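import Pool.Agent.H18.R2.Defs
import Pool.Agent.H20.Edm.Minor
import Mathlib.Combinatorics.Nullstellensatz

/-!
# Grid version: local optimality is only needed on a finite grid (module Grid, helper18)
-/

namespace Pool.Agent.H18.R2

open Matrix MvPolynomial

section general

variable {F : Type*} [Field F] {V : Type*} [Finite V]
variable {ι p q : Type*} [Fintype ι] [Fintype p] [Fintype q]

/-- finitely many matrices with entries of degree at most `1` in every variable: a grid point at
which every rank is at least its rank at a given point -/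
theorem exists_grid (N : ι → Matrix p q (MvPolynomial V F))
    (hN : ∀ j a b k, (N j a b).degreeOf k ≤ 1) (c : ι → V → F) (T : Finset F)
    (hT : ∑ j, ((N j).map (MvPolynomial.eval (c j))).rank < T.card) :
    ∃ b : V → F, (∀ i, b i ∈ T) ∧
      ∀ j, ((N j).map (MvPolynomial.eval (c j))).rank ≤ ((N j).map (MvPolynomial.eval b)).rank := by
  classical
  choose f g hfg using fun j =>
    Pool.Agent.H20.Edm.exists_minor ((N j).map (MvPolynomial.eval (c j))) (le_refl _)
  have hne : ∀ j, ((N j).submatrix (f j) (g j)).det ≠ 0 := by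
    intro j h0
    apply hfg j
    rw [Pool.Agent.H20.Edm.eval_minor, h0, map_zero]
  have hP : (∏ j, ((N j).submatrix (f j) (g j)).det) ≠ 0 :=
    Finset.prod_ne_zero_iff.2 fun j _ => hne j
  have hdeg : ∀ k, (∏ j, ((N j).submatrix (f j) (g j)).det).degreeOf k < T.card := by
    intro k
    refine lt_of_le_of_lt ((MvPolynomial.degreeOf_prod_le _ _ _).trans
      (Finset.sum_le_sum fun j _ => ?_)) hT
    have := Pool.Agent.H20.Edm.degreeOf_det_le ((N j).submatrix (f j) (g j)) k 1
      (fun a b => hN j _ _ k)
    simpa using this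
  by_contra hcon
  apply hP
  refine MvPolynomial.eq_zero_of_eval_zero_at_prod_finset _ (fun _ => T) hdeg ?_
  intro x hx
  by_contra h0
  apply hcon
  refine ⟨x, hx, fun j => ?_⟩
  have h0 := Finset.prod_ne_zero_iff.1 (by rw [← map_prod]; exact h0 :
    ∏ j, MvPolynomial.eval x ((N j).submatrix (f j) (g j)).det ≠ 0)
  refine Pool.Agent.H20.Edm.le_rank_of_minor _ (f j) (g j) ?_
  rw [Pool.Agent.H20.Edm.eval_minor]
  exact h0 j (Finset.mem_univ _)

end general

variable {F : Type*} [Field F] {V : Type*} [Fintype V] [DecidableEq V]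
variable {m n : Type*} [Fintype m] [Fintype n] [DecidableEq m] [DecidableEq n]

/-- the symbolic matrix with the variables in `S` free and the others set to `a` -/
noncomputable def symLin (B : Matrix m n F) (A : V → Matrix m n F) (a : V → F) (S : Finset V) :
    Matrix m n (MvPolynomial V F) :=
  B.map C + ∑ i, (if i ∈ S then MvPolynomial.X i else MvPolynomial.C (a i)) • (A i).map MvPolynomial.C

/-- its bordered version -/
noncomputable def symBig (B : Matrix m n F) (A : V → Matrix m n F) (a : V → F) (S : Finset V)
    (r1 r2 s1 s2 : Option V) : Matrix (m ⊕ (m ⊕ m)) (n ⊕ (n ⊕ n)) (MvPolynomial V F) :=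
  Matrix.fromBlocks (symLin B A a S)
    ((Matrix.fromCols (opt A s1) (opt A s2)).map C)
    ((Matrix.fromRows (opt A r1) (opt A r2)).map C) 0

omit [Fintype m] [Fintype n] [DecidableEq m] [DecidableEq n] in
theorem symLin_apply (B : Matrix m n F) (A : V → Matrix m n F) (a : V → F) (S : Finset V)
    (i : m) (j : n) : symLin B A a S i j =
      C (B i j) + ∑ k, (if k ∈ S then MvPolynomial.X k else MvPolynomial.C (a k)) * MvPolynomial.C (A k i j) := by
  simp only [symLin, Matrix.add_apply, Matrix.sum_apply, Matrix.map_apply]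
  congr 1

theorem symLin_eval (B : Matrix m n F) (A : V → Matrix m n F) (a : V → F) (S : Finset V)
    (c : V → F) : (symLin B A a S).map (MvPolynomial.eval c) =
      lin B A (fun i => if i ∈ S then c i else a i) := by
  ext i j
  rw [Matrix.map_apply, symLin_apply]
  simp only [lin, Matrix.add_apply, Matrix.sum_apply, Matrix.smul_apply, smul_eq_mul, map_add,
    map_sum, map_mul, eval_C]
  congr 1
  refine Finset.sum_congr rfl fun k _ => ?_
  by_cases hk : k ∈ S <;> simp [hk]

theorem symBig_eval (B : Matrix m n F) (A : V → Matrix m n F) (a : V → F) (S : Finset V)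
    (r1 r2 s1 s2 : Option V) (c : V → F) :
    (symBig B A a S r1 r2 s1 s2).map (MvPolynomial.eval c) =
      big (lin B A (fun i => if i ∈ S then c i else a i)) A r1 r2 s1 s2 := by
  rw [symBig, big, Matrix.fromBlocks_map, symLin_eval]
  congr 1
  · ext i j; simp
  · ext i j; simp

theorem symLin_degree (B : Matrix m n F) (A : V → Matrix m n F) (a : V → F) (S : Finset V)
    (i : m) (j : n) (k : V) : (symLin B A a S i j).degreeOf k ≤ 1 := by
  rw [symLin_apply]
  refine (MvPolynomial.degreeOf_add_le _ _ _).trans (max_le (by simp) ?_)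
  refine (MvPolynomial.degreeOf_sum_le _ _ _).trans (Finset.sup_le fun l _ => ?_)
  refine (MvPolynomial.degreeOf_mul_le _ _ _).trans ?_
  by_cases hl : l ∈ S
  · simp only [hl, if_true, degreeOf_C, add_zero]
    rw [MvPolynomial.degreeOf_X]
    split_ifs <;> simp
  · simp [hl]

theorem symBig_degree (B : Matrix m n F) (A : V → Matrix m n F) (a : V → F) (S : Finset V)
    (r1 r2 s1 s2 : Option V) (i j) (k : V) :
    (symBig B A a S r1 r2 s1 s2 i j).degreeOf k ≤ 1 := by
  rcases i with i | i <;> rcases j with j | j
  · simpa [symBig] using symLin_degree B A a S i j k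
  · simp [symBig]
  · simp [symBig]
  · simp [symBig]

/-- the potential: the sum of all the bordered ranks -/
noncomputable def Phi (B : Matrix m n F) (A : V → Matrix m n F) (a : V → F) : ℕ :=
  ∑ J : (Option V × Option V) × (Option V × Option V),
    (big (lin B A a) A J.1.1 J.1.2 J.2.1 J.2.2).rank

omit [Fintype V] [DecidableEq V] [DecidableEq m] [DecidableEq n] in
theorem big_rank_le (M : Matrix m n F) (A : V → Matrix m n F) (r1 r2 s1 s2 : Option V) :
    (big M A r1 r2 s1 s2).rank ≤ 3 * Fintype.card m := by
  refine (Matrix.rank_le_card_height _).trans ?_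
  simp only [Fintype.card_sum]
  omega

omit [DecidableEq V] [DecidableEq m] in
theorem sum_le_bound (f : (Option V × Option V) × (Option V × Option V) → ℕ)
    (hf : ∀ J, f J ≤ 3 * Fintype.card m) :
    ∑ J, f J ≤ 3 * Fintype.card m * (Fintype.card V + 1) ^ 4 := by
  refine (Finset.sum_le_sum fun J _ => hf J).trans ?_
  simp only [Finset.sum_const, Finset.card_univ, Fintype.card_prod, Fintype.card_option,
    smul_eq_mul]
  apply le_of_eq
  ring

omit [DecidableEq V] [DecidableEq m] [DecidableEq n] in
theorem Phi_le (B : Matrix m n F) (A : V → Matrix m n F) (a : V → F) :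
    Phi B A a ≤ 3 * Fintype.card m * (Fintype.card V + 1) ^ 4 :=
  sum_le_bound _ fun _ => big_rank_le _ _ _ _ _ _

/-- local optimality for the potential on a grid gives local optimality for all bordered ranks and
all values -/
theorem grid_local (B : Matrix m n F) (A : V → Matrix m n F) (T : Finset F)
    (hT : 3 * Fintype.card m * (Fintype.card V + 1) ^ 4 < T.card) (a : V → F) (t : ℕ)
    (hloc : ∀ (S : Finset V) (b : V → F), S.card ≤ t → (∀ i, i ∉ S → b i = a i) →
      (∀ i ∈ S, b i ∈ T) → Phi B A b ≤ Phi B A a)
    (S : Finset V) (a' : V → F) (hS : S.card ≤ t) (ha' : ∀ i, i ∉ S → a' i = a i)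
    (r1 r2 s1 s2 : Option V) :
    (big (lin B A a') A r1 r2 s1 s2).rank ≤ (big (lin B A a) A r1 r2 s1 s2).rank := by
  by_contra hlt
  push Not at hlt
  have ea : (fun i => if i ∈ S then a i else a i) = a := by
    funext i; simp
  have ea' : (fun i => if i ∈ S then a' i else a i) = a' := by
    funext i
    by_cases hi : i ∈ S
    · simp [hi]
    · simp [hi, ha' i hi]
  let c : (Option V × Option V) × (Option V × Option V) → V → F := fun J =>
    if J = ((r1, r2), (s1, s2)) then a' else a
  have hc : ∀ J, (symBig B A a S J.1.1 J.1.2 J.2.1 J.2.2).map (MvPolynomial.eval (c J)) =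
      big (lin B A (c J)) A J.1.1 J.1.2 J.2.1 J.2.2 := by
    intro J
    rw [symBig_eval]
    congr 2
    funext i
    by_cases hJ : J = ((r1, r2), (s1, s2))
    · simp only [c, hJ, if_true]
      exact congrFun ea' i
    · simp only [c, hJ, if_false]
      exact congrFun ea i
  obtain ⟨b, hb1, hb2⟩ := exists_grid
    (fun J : (Option V × Option V) × (Option V × Option V) =>
      symBig B A a S J.1.1 J.1.2 J.2.1 J.2.2)
    (fun J i j k => symBig_degree B A a S _ _ _ _ i j k) c T (by
      refine lt_of_le_of_lt (sum_le_bound (m := m) _ fun J => ?_) hT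
      rw [hc]
      exact big_rank_le _ _ _ _ _ _)
  have h1 := hloc S (fun i => if i ∈ S then b i else a i) hS (by intro i hi; simp [hi])
    (by intro i hi; simpa [hi] using hb1 i)
  have h2 : Phi B A a < Phi B A (fun i => if i ∈ S then b i else a i) := by
    refine Finset.sum_lt_sum (fun J _ => ?_) ⟨((r1, r2), (s1, s2)), Finset.mem_univ _, ?_⟩
    · have h3 := hb2 J
      simp only [hc, symBig_eval] at h3
      refine le_trans ?_ h3
      by_cases hJ : J = ((r1, r2), (s1, s2))
      · subst hJ
        simp only [c, if_true]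
        exact hlt.le
      · simp [c, hJ]
    · have h3 := hb2 ((r1, r2), (s1, s2))
      simp only [symBig_eval, c, if_true, ea'] at h3
      exact lt_of_lt_of_le hlt h3
  omega

end Pool.Agent.H18.R2
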