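import Pool.Agent.H18.R2.Defs

/-!
# Borders by `A` and borders by factors (module Big)

`factor_two`: a matrix `A` of rank at most 2 is `P Q` with `P : m x 2`, `Q : 2 x n`,
`P = A Q'` and `Q = P' A`.  Choose two vectors spanning the range of `A` (the columns of `P`);
they lie in the range of `A`, so `P = A Q'`; every column of `A` is a combination of them, so
`A = P Q₀`; with a generalised inverse `G` (`A G A = A`) put `Q = Q₀ G A`, `P' = Q₀ G`.
`big_rank`: `[[M, A_s1, A_s2],[A_r1, 0, 0],[A_r2, 0, 0]] = L [[M, P_s1, P_s2],[Q_r1,..],[Q_r2,..]] L'`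
with block diagonal `L = diag(1, P_r1, P_r2)`, `L' = diag(1, Q_s1, Q_s2)`, and conversely with
`diag(1, P'_r1, P'_r2)`, `diag(1, Q'_s1, Q'_s2)`; `Matrix.rank_mul_le_left/right` both ways.
-/

namespace Pool.Agent.H18.R2

open Matrix

variable {F : Type*} [Field F] {V : Type*} [Fintype V] [DecidableEq V]
variable {m n : Type*} [Fintype m] [Fintype n] [DecidableEq m] [DecidableEq n]

theorem factor_two (A : Matrix m n F) (h : A.rank ≤ 2) :
    ∃ (P : Matrix m (Fin 2) F) (Q : Matrix (Fin 2) n F) (Q' : Matrix n (Fin 2) F)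
      (P' : Matrix (Fin 2) m F), A = P * Q ∧ P = A * Q' ∧ Q = P' * A := by
  let a : (n → F) →ₗ[F] (m → F) := Matrix.toLin' A
  have hr : Module.finrank F a.range ≤ Module.finrank F (Fin 2 → F) := by
    rw [Module.finrank_fintype_fun_eq_card, Fintype.card_fin]
    exact h
  obtain ⟨f, hf⟩ := finrank_le_iff_exists_linearMap.1 hr
  obtain ⟨g, hg⟩ := f.exists_leftInverse_of_injective (LinearMap.ker_eq_bot.2 hf)
  obtain ⟨s, hs⟩ := a.rangeRestrict.exists_rightInverse_of_surjective
    (LinearMap.range_rangeRestrict a)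
  obtain ⟨e, he⟩ := LinearMap.exists_extend (LinearMap.id : a.range →ₗ[F] a.range)
  have ha : a = a.range.subtype ∘ₗ a.rangeRestrict := by
    ext v
    rfl
  have hA : A = LinearMap.toMatrix' a := (LinearMap.toMatrix'_toLin' A).symm
  refine ⟨LinearMap.toMatrix' (a.range.subtype ∘ₗ g), LinearMap.toMatrix' (f ∘ₗ a.rangeRestrict),
    LinearMap.toMatrix' (s ∘ₗ g), LinearMap.toMatrix' (f ∘ₗ e), ?_, ?_, ?_⟩
  · rw [← LinearMap.toMatrix'_comp, LinearMap.comp_assoc, ← LinearMap.comp_assoc _ f g, hg,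
      LinearMap.id_comp, ← ha]
    exact hA
  · have e1 : a.range.subtype ∘ₗ g = a ∘ₗ (s ∘ₗ g) := by
      have e2 : a ∘ₗ s = a.range.subtype := by
        apply LinearMap.ext
        intro w
        exact congrArg Subtype.val (LinearMap.congr_fun hs w)
      rw [← LinearMap.comp_assoc, e2]
    rw [hA, ← LinearMap.toMatrix'_comp, e1]
  · have e1 : f ∘ₗ a.rangeRestrict = (f ∘ₗ e) ∘ₗ a := by
      have e2 : e ∘ₗ a = a.rangeRestrict := by
        apply LinearMap.ext
        intro w
        exact LinearMap.congr_fun he (a.rangeRestrict w)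
      rw [LinearMap.comp_assoc, e2]
    rw [hA, ← LinearMap.toMatrix'_comp, e1]

/-- all factors `P i` side by side -/
def glueP (P : V → Matrix m (Fin 2) F) : Matrix m (V × Fin 2) F :=
  Matrix.of fun a p => P p.1 a p.2

/-- all factors `Q i` on top of each other -/
def glueQ (Q : V → Matrix (Fin 2) n F) : Matrix (V × Fin 2) n F :=
  Matrix.of fun p b => Q p.1 p.2 b

theorem lin_eq (B : Matrix m n F) (A : V → Matrix m n F) (P : V → Matrix m (Fin 2) F)
    (Q : V → Matrix (Fin 2) n F) (h : ∀ i, A i = P i * Q i) (x : V → F) :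
    lin B A x = B + glueP P * X x * glueQ Q := by
  rw [lin]
  congr 1
  ext a b
  rw [Matrix.sum_apply, Matrix.mul_apply, Fintype.sum_prod_type]
  refine Finset.sum_congr rfl fun i _ => ?_
  rw [Matrix.smul_apply, h i, Matrix.mul_apply, smul_eq_mul, Finset.mul_sum]
  refine Finset.sum_congr rfl fun t _ => ?_
  rw [X, Matrix.mul_diagonal]
  simp only [glueP, glueQ, Matrix.of_apply]
  ring

theorem Big_selC (P : V → Matrix m (Fin 2) F) (i : V) :
    glueP P * (selC (some i) : Matrix (V × Fin 2) (Fin 2) F) = P i := by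
  ext a t
  rw [Matrix.mul_apply]
  simp only [glueP, selC, Matrix.of_apply, mul_ite, mul_one, mul_zero, Finset.sum_ite_eq',
    Finset.mem_univ, if_true]

theorem Big_selR (Q : V → Matrix (Fin 2) n F) (i : V) :
    (selR (some i) : Matrix (Fin 2) (V × Fin 2) F) * glueQ Q = Q i := by
  ext t b
  rw [Matrix.mul_apply]
  simp only [glueQ, selR, Matrix.of_apply, ite_mul, one_mul, zero_mul, Finset.sum_ite_eq',
    Finset.mem_univ, if_true]

theorem Big_sandwich {c c' r r' : Type*} [Fintype c] [Fintype r] [Fintype c'] [Fintype r']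
    (M : Matrix m n F) (S1 S2 : Matrix m c F) (R1 R2 : Matrix r n F) (L1 L2 : Matrix r' r F)
    (K1 K2 : Matrix c c' F) :
    (Matrix.fromBlocks (1 : Matrix m m F) 0 0 (Matrix.fromBlocks L1 0 0 L2)) *
      (Matrix.fromBlocks M (Matrix.fromCols S1 S2) (Matrix.fromRows R1 R2) 0) *
      (Matrix.fromBlocks (1 : Matrix n n F) 0 0 (Matrix.fromBlocks K1 0 0 K2)) =
    Matrix.fromBlocks M (Matrix.fromCols (S1 * K1) (S2 * K2))
      (Matrix.fromRows (L1 * R1) (L2 * R2)) 0 := by
  rw [Matrix.fromBlocks_multiply, Matrix.fromBlocks_multiply]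
  simp only [Matrix.one_mul, Matrix.zero_mul, Matrix.mul_zero, add_zero, zero_add, Matrix.mul_one,
    Matrix.fromCols_mul_fromBlocks, Matrix.fromBlocks_mul_fromRows]

theorem Big_rank_le {c c' r r' : Type*} [Fintype c] [Fintype r] [Fintype c'] [Fintype r']
    (M : Matrix m n F) (S1 S2 : Matrix m c F) (R1 R2 : Matrix r n F) (L1 L2 : Matrix r' r F)
    (K1 K2 : Matrix c c' F) :
    (Matrix.fromBlocks M (Matrix.fromCols (S1 * K1) (S2 * K2))
      (Matrix.fromRows (L1 * R1) (L2 * R2)) 0).rank ≤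
      (Matrix.fromBlocks M (Matrix.fromCols S1 S2) (Matrix.fromRows R1 R2) 0).rank := by
  rw [← Big_sandwich]
  exact (Matrix.rank_mul_le_left _ _).trans (Matrix.rank_mul_le_right _ _)

theorem big_rank (M : Matrix m n F) (A : V → Matrix m n F) (P : V → Matrix m (Fin 2) F)
    (Q : V → Matrix (Fin 2) n F) (Q' : V → Matrix n (Fin 2) F) (P' : V → Matrix (Fin 2) m F)
    (h1 : ∀ i, A i = P i * Q i) (h2 : ∀ i, P i = A i * Q' i) (h3 : ∀ i, Q i = P' i * A i)
    (r1 r2 s1 s2 : Option V) :
    (big M A r1 r2 s1 s2).rank =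
      (Matrix.fromBlocks M (glueP P * Matrix.fromCols (selC s1) (selC s2))
        (Matrix.fromRows (selR r1) (selR r2) * glueQ Q) 0).rank := by
  have key : (big M A r1 r2 s1 s2).rank =
      (Matrix.fromBlocks M (glueP P * (Matrix.fromCols (selC s1) (selC s2) :
          Matrix (V × Fin 2) (Fin 2 ⊕ Fin 2) F))
        ((Matrix.fromRows (selR r1) (selR r2) : Matrix (Fin 2 ⊕ Fin 2) (V × Fin 2) F) *
          glueQ Q) 0).rank := by
    rw [Matrix.mul_fromCols, Matrix.fromRows_mul, big]
    have e1 : ∀ s : Option V, opt A s = (glueP P * (selC s : Matrix (V × Fin 2) (Fin 2) F)) *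
        ((selR s : Matrix (Fin 2) (V × Fin 2) F) * glueQ Q) := by
      intro s
      cases s with
      | none => simp only [opt, selC, selR, Matrix.mul_zero, Matrix.zero_mul]
      | some i => rw [Big_selC, Big_selR, opt, h1 i]
    have e2 : ∀ s : Option V, ∃ K : Matrix n (Fin 2) F,
        glueP P * (selC s : Matrix (V × Fin 2) (Fin 2) F) = opt A s * K := by
      intro s
      cases s with
      | none => exact ⟨0, by simp only [opt, selC, Matrix.mul_zero]⟩
      | some i => exact ⟨Q' i, by rw [Big_selC, opt, h2 i]⟩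
    have e3 : ∀ s : Option V, ∃ K : Matrix (Fin 2) m F,
        (selR s : Matrix (Fin 2) (V × Fin 2) F) * glueQ Q = K * opt A s := by
      intro s
      cases s with
      | none => exact ⟨0, by simp only [opt, selR, Matrix.zero_mul]⟩
      | some i => exact ⟨P' i, by rw [Big_selR, opt, h3 i]⟩
    apply le_antisymm
    · rw [e1 s1, e1 s2, e1 r1, e1 r2]
      exact Big_rank_le _ _ _ _ _ _ _ _ _
    · obtain ⟨K1, hK1⟩ := e2 s1
      obtain ⟨K2, hK2⟩ := e2 s2
      obtain ⟨L1, hL1⟩ := e3 r1
      obtain ⟨L2, hL2⟩ := e3 r2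
      rw [hK1, hK2, hL1, hL2]
      exact Big_rank_le _ _ _ _ _ _ _ _ _
  exact key

/-- no borders -/
theorem big_none (M : Matrix m n F) (A : V → Matrix m n F) :
    (big M A none none none none).rank = M.rank := by
  have h0 : big M A none none none none =
      (Matrix.fromRows (1 : Matrix m m F) (0 : Matrix (m ⊕ m) m F)) * M *
        (Matrix.fromCols (1 : Matrix n n F) (0 : Matrix n (n ⊕ n) F)) := by
    rw [Matrix.fromRows_mul, Matrix.mul_fromCols]
    ext i j
    rcases i with i | i
    · rcases j with j | j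
      · simp [big]
      · rcases j with j | j <;> simp [big, opt]
    · rcases j with j | j
      · rcases i with i | i <;> simp [big, opt]
      · simp [big]
  have h1 : M = (Matrix.fromCols (1 : Matrix m m F) (0 : Matrix m (m ⊕ m) F)) *
      big M A none none none none *
        (Matrix.fromRows (1 : Matrix n n F) (0 : Matrix (n ⊕ n) n F)) := by
    rw [h0]
    have e1 : (Matrix.fromCols (1 : Matrix m m F) (0 : Matrix m (m ⊕ m) F)) *
        (Matrix.fromRows (1 : Matrix m m F) (0 : Matrix (m ⊕ m) m F)) = 1 := by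
      rw [Matrix.fromCols_mul_fromRows, Matrix.mul_zero, Matrix.mul_one, add_zero]
    have e2 : (Matrix.fromCols (1 : Matrix n n F) (0 : Matrix n (n ⊕ n) F)) *
        (Matrix.fromRows (1 : Matrix n n F) (0 : Matrix (n ⊕ n) n F)) = 1 := by
      rw [Matrix.fromCols_mul_fromRows, Matrix.mul_zero, Matrix.mul_one, add_zero]
    have e3 : ∀ (a : Matrix m (m ⊕ (m ⊕ m)) F) (b : Matrix (m ⊕ (m ⊕ m)) m F)
        (c : Matrix n (n ⊕ (n ⊕ n)) F) (d : Matrix (n ⊕ (n ⊕ n)) n F), a * b = 1 → c * d = 1 →
        M = a * (b * M * c) * d := by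
      intro a b c d hab hcd
      have : a * (b * M * c) * d = (a * b) * M * (c * d) := by
        simp only [Matrix.mul_assoc]
      rw [this, hab, hcd, Matrix.one_mul, Matrix.mul_one]
    exact e3 _ _ _ _ e1 e2
  apply le_antisymm
  · rw [h0]
    exact (Matrix.rank_mul_le_left _ _).trans (Matrix.rank_mul_le_right _ _)
  · conv_lhs => rw [h1]
    exact (Matrix.rank_mul_le_left _ _).trans (Matrix.rank_mul_le_right _ _)

end Pool.Agent.H18.R2
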