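import Pool.Agent.H18.R2.Gen

/-!
# Ranks of matrices with polynomial entries (module RankGen, helper75)

`exists_minor`: a matrix `M(x)` with polynomial entries; at `x₀` some square submatrix of size
`rank M(x₀)` has nonzero determinant; the same minor as a polynomial function `f`.
-/

namespace Pool.Agent.H18.R2

open Matrix

variable {F : Type*} [Field F] {σ : Type*}

section RankGenMinors

variable {m n : Type*} [Fintype m] [Fintype n]

omit [Fintype m] in
private theorem rankGen_cols (A : Matrix m n F) (k : ℕ) (hk : A.rank = k) :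
    ∃ t : Fin k → n, LinearIndependent F (fun j => A.col (t j)) := by
  classical
  obtain ⟨κ, a, ha, hsp, hli⟩ := exists_linearIndependent' F A.col
  have hκ : Finite κ := Finite.of_injective a ha
  have hκ' : Fintype κ := Fintype.ofFinite κ
  have h1 : Fintype.card κ = k := by
    rw [← hk, Matrix.rank_eq_finrank_span_cols, ← hsp, finrank_span_eq_card hli]
  let e : Fin k ≃ κ := (Fintype.equivFinOfCardEq h1).symm
  exact ⟨fun j => a (e j), hli.comp e e.injective⟩

private theorem rankGen_minor (A : Matrix m n F) (k : ℕ) (hk : A.rank = k) :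
    ∃ (s : Fin k → m) (t : Fin k → n), (A.submatrix s t).det ≠ 0 := by
  obtain ⟨t, ht⟩ := rankGen_cols A k hk
  have h1 : (A.submatrix id t).transpose.rank = k := by
    have h2 : LinearIndependent F (A.submatrix id t).transpose.row := ht
    have h3 := h2.rank_matrix
    rw [Fintype.card_fin] at h3
    exact h3
  obtain ⟨s, hs⟩ := rankGen_cols (A.submatrix id t).transpose k h1
  refine ⟨s, t, ?_⟩
  have h2 : LinearIndependent F (A.submatrix s t).row := hs
  rw [Matrix.linearIndependent_rows_iff_isUnit, Matrix.isUnit_iff_isUnit_det] at h2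
  exact h2.ne_zero

private theorem rankGen_sub_le {m' n' : Type*} [Fintype m'] [Fintype n'] (A : Matrix m n F)
    (s : m' → m) (t : n' → n) : (A.submatrix s t).rank ≤ A.rank := by
  classical
  have h1 : (A.submatrix s id).rank ≤ A.rank := by
    rw [Matrix.rank_eq_finrank_span_row, Matrix.rank_eq_finrank_span_row]
    refine Submodule.finrank_mono (Submodule.span_mono ?_)
    rintro _ ⟨i, rfl⟩
    exact ⟨s i, rfl⟩
  have h2 : ((A.submatrix s id).submatrix id t).rank ≤ (A.submatrix s id).rank := by
    rw [Matrix.rank_eq_finrank_span_cols, Matrix.rank_eq_finrank_span_cols]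
    refine Submodule.finrank_mono (Submodule.span_mono ?_)
    rintro _ ⟨i, rfl⟩
    exact ⟨t i, rfl⟩
  exact h2.trans h1

end RankGenMinors

variable {p q : Type*} [Fintype p] [Fintype q] [DecidableEq p] [DecidableEq q]

/-- a polynomial function that is nonzero at `x₀` and bounds the rank from below where nonzero -/
theorem exists_minor (M : (σ → F) → Matrix p q F) (hM : ∀ i j, PolyFun (fun x => M x i j))
    (x₀ : σ → F) :
    ∃ f : (σ → F) → F, PolyFun f ∧ f x₀ ≠ 0 ∧ ∀ y, f y ≠ 0 → (M x₀).rank ≤ (M y).rank := by
  obtain ⟨s, t, hst⟩ := rankGen_minor (M x₀) _ rfl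
  refine ⟨fun x => ((M x).submatrix s t).det, PolyFun.det fun i j => hM (s i) (t j), hst, ?_⟩
  intro y hy
  have h1 := Matrix.rank_of_det_ne_zero (A := (M y).submatrix s t) hy
  rw [Fintype.card_fin] at h1
  rw [← h1]
  exact rankGen_sub_le (M y) s t

/-- a rank bound that holds where a nonzero polynomial function does not vanish holds always -/
theorem rank_le_of_generic [Infinite F] (M : (σ → F) → Matrix p q F)
    (hM : ∀ i j, PolyFun (fun x => M x i j)) {d : (σ → F) → F} (hd : PolyFun d)
    (hd0 : ∃ x, d x ≠ 0) {r : ℕ} (h : ∀ x, d x ≠ 0 → (M x).rank ≤ r) (x : σ → F) :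
    (M x).rank ≤ r := by
  obtain ⟨f, hf, hfx, hfr⟩ := exists_minor M hM x
  obtain ⟨y, hy⟩ := exists_common (Finset.univ : Finset Bool)
    (f := fun b : Bool => if b then f else d) (by
      intro b
      cases b
      · simpa using hd
      · simpa using hf) (by
      intro b _
      cases b
      · simpa using hd0
      · exact ⟨x, by simpa using hfx⟩)
  have h1 : f y ≠ 0 := by simpa using hy true (Finset.mem_univ _)
  have h2 : d y ≠ 0 := by simpa using hy false (Finset.mem_univ _)
  exact (hfr y h1).trans (h y h2)

end Pool.Agent.H18.R2
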