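import Pool.Agent.H18.R2.Defs

/-!
# The data of a matrix pencil (module Schur, helper60)

`M(x) = B + P X Q` with `P : m x (V x 2)`, `Q : (V x 2) x n`.  Square case first: by
`Matrix.exists_rank_normal_form` write `U B W = [[1_r, 0],[0, 0]]` (reindexed), `U P = [P1; P2]`,
`Q W = [Q1, Q2]`.  Put `T = - Q1 P1`, `μ = Q2`, `ν = P2`, `H₀ = 0`, `Θ = [[T, μ],[ν, 0]]`.
For `x` with `det(1 - T X) ≠ 0` the corner `1 + P1 X Q1` is invertible
(`det(1 + P1 X Q1) = det(1 + Q1 P1 X) = det(1 - T X)`, `Matrix.det_one_add_mul_comm`), and the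
Schur complement of `[[1 + P1 X Q1, P1 X Q2, P1 C],[P2 X Q1, P2 X Q2, P2 C],[R Q1, R Q2, 0]]` is
`[[ν X (1-TX)⁻¹ μ, ν (1-XT)⁻¹ C],[R (1-TX)⁻¹ μ, R (1-TX)⁻¹ T C]] = bord (shift Θ x) R C`
(`Matrix.fromBlocks_eq_of_invertible₁₁`; rank of a block diagonal matrix with invertible first
block).  Identities: `X - X Q1 (1 + P1 X Q1)⁻¹ P1 X = X (1 - T X)⁻¹`,
`1 - X Q1 (1 + P1 X Q1)⁻¹ P1 = (1 - X T)⁻¹`, `1 - Q1 (1 + P1 X Q1)⁻¹ P1 X = (1 - T X)⁻¹`,
`- Q1 (1 + P1 X Q1)⁻¹ P1 = (1 - T X)⁻¹ T`.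
Rectangular case: pad with zeros to the index type `m ⊕ n` (rows and columns).
-/

set_option autoImplicit false

namespace Pool.Agent.H18.R2.SchurAux

open Matrix

universe u v

variable {F : Type*} [Field F]

/-- The product of two submodules. -/
def prodSub {M N : Type*} [AddCommGroup M] [Module F M] [AddCommGroup N] [Module F N]
    (p : Submodule F M) (q : Submodule F N) : (p.prod q) ≃ₗ[F] p × q where
  toFun z := (⟨z.1.1, z.2.1⟩, ⟨z.1.2, z.2.2⟩)
  invFun z := ⟨(z.1.1, z.2.1), ⟨z.1.2, z.2.2⟩⟩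
  left_inv _ := rfl
  right_inv _ := rfl
  map_add' _ _ := rfl
  map_smul' _ _ := rfl

theorem rank_diag {m n m' n' : Type*} [Fintype m] [Fintype m'] [Fintype n] [Fintype n']
    (A : Matrix m n F) (D : Matrix m' n' F) :
    (fromBlocks A 0 0 D).rank = A.rank + D.rank := by
  have h : (fromBlocks A 0 0 D).mulVecLin =
      (LinearEquiv.sumArrowLequivProdArrow m m' F F).symm.toLinearMap ∘ₗ
        (A.mulVecLin.prodMap D.mulVecLin) ∘ₗ
          (LinearEquiv.sumArrowLequivProdArrow n n' F F).toLinearMap := by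
    refine LinearMap.ext fun v => ?_
    funext i
    rcases i with i | i
    · simp [Matrix.mulVec, dotProduct, LinearEquiv.sumArrowLequivProdArrow]
    · simp [Matrix.mulVec, dotProduct, LinearEquiv.sumArrowLequivProdArrow]
  rw [Matrix.rank, h, LinearMap.range_comp, LinearMap.range_comp, LinearEquiv.range,
    Submodule.map_top, LinearEquiv.finrank_map_eq, LinearMap.range_prodMap,
    LinearEquiv.finrank_eq (prodSub _ _), Module.finrank_prod]
  rfl

/-- Rank of a block matrix with invertible corner. -/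
theorem rank_schur {m n l : Type*} [Fintype m] [DecidableEq m] [Fintype n] [DecidableEq n]
    [Fintype l] [DecidableEq l]
    (A : Matrix m m F) (B : Matrix m n F) (C : Matrix l m F) (D : Matrix l n F)
    (hA : A.det ≠ 0) :
    (fromBlocks A B C D).rank = Fintype.card m + (D - C * A⁻¹ * B).rank := by
  have hu : IsUnit A.det := isUnit_iff_ne_zero.2 hA
  let _ : Invertible A := Matrix.invertibleOfIsUnitDet A hu
  rw [Matrix.fromBlocks_eq_of_invertible₁₁ A B C D, Matrix.invOf_eq_nonsing_inv]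
  rw [Matrix.rank_mul_eq_left_of_isUnit_det, Matrix.rank_mul_eq_right_of_isUnit_det, rank_diag,
    Matrix.rank_of_det_ne_zero hA]
  · rw [Matrix.det_fromBlocks_zero₁₂]; simp
  · rw [Matrix.det_fromBlocks_zero₂₁]; simp

section Normal

variable {ρ δ δ' W γ ε : Type*} [Fintype ρ] [DecidableEq ρ] [Fintype δ] [DecidableEq δ]
  [Fintype δ'] [DecidableEq δ'] [Fintype W] [DecidableEq W] [Fintype γ] [DecidableEq γ]
  [Fintype ε] [DecidableEq ε]

/-- The corner is invertible iff `1 - T X` is. -/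
theorem det_corner (P1 : Matrix ρ W F) (Q1 : Matrix W ρ F) (X : Matrix W W F) :
    (1 + P1 * X * Q1).det = (1 - (-(Q1 * P1)) * X).det := by
  rw [Matrix.mul_assoc, Matrix.det_one_add_mul_comm, Matrix.mul_assoc, Matrix.det_one_add_mul_comm,
    Matrix.neg_mul, sub_neg_eq_add, Matrix.mul_assoc, Matrix.det_one_add_mul_comm]

/-- Push-through for the resolvent. -/
theorem inv_push (P1 : Matrix ρ W F) (Q1 : Matrix W ρ F) (X : Matrix W W F)
    (h : (1 - (-(Q1 * P1)) * X).det ≠ 0) :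
    (1 - (-(Q1 * P1)) * X)⁻¹ = 1 - Q1 * (1 + P1 * X * Q1)⁻¹ * P1 * X := by
  have hA : (1 + P1 * X * Q1).det ≠ 0 := by rw [det_corner]; exact h
  have hA' : IsUnit (1 + P1 * X * Q1).det := isUnit_iff_ne_zero.2 hA
  refine Matrix.inv_eq_right_inv ?_
  have e := Matrix.mul_nonsing_inv (1 + P1 * X * Q1) hA'
  set G := (1 + P1 * X * Q1)⁻¹ with hG
  have e2 : Q1 * ((1 + P1 * X * Q1) * (G * (P1 * X))) = Q1 * (P1 * X) := by
    rw [← Matrix.mul_assoc (1 + P1 * X * Q1), e, Matrix.one_mul]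
  simp only [Matrix.mul_add, Matrix.add_mul, Matrix.mul_sub, Matrix.sub_mul, Matrix.mul_assoc,
    Matrix.one_mul, Matrix.mul_one, Matrix.neg_mul] at e2 ⊢
  rw [← e2]
  abel

/-- The other resolvent. -/
theorem inv_push' (P1 : Matrix ρ W F) (Q1 : Matrix W ρ F) (X : Matrix W W F)
    (h : (1 - (-(Q1 * P1)) * X).det ≠ 0) :
    (1 - X * (-(Q1 * P1)))⁻¹ = 1 - X * Q1 * (1 + P1 * X * Q1)⁻¹ * P1 := by
  have hA : (1 + P1 * X * Q1).det ≠ 0 := by rw [det_corner]; exact h
  have hA' : IsUnit (1 + P1 * X * Q1).det := isUnit_iff_ne_zero.2 hA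
  refine Matrix.inv_eq_right_inv ?_
  have e := Matrix.mul_nonsing_inv (1 + P1 * X * Q1) hA'
  set G := (1 + P1 * X * Q1)⁻¹ with hG
  have e2 : X * (Q1 * ((1 + P1 * X * Q1) * (G * P1))) = X * (Q1 * P1) := by
    rw [← Matrix.mul_assoc (1 + P1 * X * Q1), e, Matrix.one_mul]
  simp only [Matrix.mul_add, Matrix.add_mul, Matrix.mul_sub, Matrix.sub_mul, Matrix.mul_assoc,
    Matrix.one_mul, Matrix.mul_one, Matrix.neg_mul, Matrix.mul_neg] at e2 ⊢
  rw [← e2]
  abel

/-- The shifted `T`. -/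
theorem inv_push_T (P1 : Matrix ρ W F) (Q1 : Matrix W ρ F) (X : Matrix W W F)
    (h : (1 - (-(Q1 * P1)) * X).det ≠ 0) :
    (1 - (-(Q1 * P1)) * X)⁻¹ * (-(Q1 * P1)) = - (Q1 * (1 + P1 * X * Q1)⁻¹ * P1) := by
  have hA : (1 + P1 * X * Q1).det ≠ 0 := by rw [det_corner]; exact h
  have hA' : IsUnit (1 + P1 * X * Q1).det := isUnit_iff_ne_zero.2 hA
  rw [inv_push P1 Q1 X h]
  have e := Matrix.nonsing_inv_mul (1 + P1 * X * Q1) hA'
  set G := (1 + P1 * X * Q1)⁻¹ with hG
  have e2 : Q1 * (G * ((1 + P1 * X * Q1) * P1)) = Q1 * P1 := by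
    rw [← Matrix.mul_assoc G, e, Matrix.one_mul]
  simp only [Matrix.mul_add, Matrix.add_mul, Matrix.sub_mul, Matrix.mul_assoc,
    Matrix.one_mul, Matrix.mul_neg] at e2 ⊢
  rw [eq_sub_of_add_eq' e2]
  abel

/-- The bordered matrix in normal form. -/
theorem schur_normal (P1 : Matrix ρ W F) (P2 : Matrix δ' W F) (Q1 : Matrix W ρ F)
    (Q2 : Matrix W δ F) (X : Matrix W W F) (C : Matrix W γ F) (R : Matrix ε W F)
    (h : (1 - (-(Q1 * P1)) * X).det ≠ 0) :
    (fromBlocks (fromBlocks 1 0 0 0 + fromRows P1 P2 * X * fromCols Q1 Q2) (fromRows P1 P2 * C)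
      (R * fromCols Q1 Q2) (0 : Matrix ε γ F)).rank =
    Fintype.card ρ +
      (fromBlocks (P2 * X * (1 - (-(Q1 * P1)) * X)⁻¹ * Q2) (P2 * (1 - X * (-(Q1 * P1)))⁻¹ * C)
        (R * (1 - (-(Q1 * P1)) * X)⁻¹ * Q2)
        (R * ((1 - (-(Q1 * P1)) * X)⁻¹ * (-(Q1 * P1))) * C)).rank := by
  have hA : (1 + P1 * X * Q1).det ≠ 0 := by rw [det_corner]; exact h
  have h1 := rank_schur (1 + P1 * X * Q1) (fromCols (P1 * X * Q2) (P1 * C))
    (fromRows (P2 * X * Q1) (R * Q1)) (fromBlocks (P2 * X * Q2) (P2 * C) (R * Q2) 0) hA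
  have h2 : (fromBlocks (fromBlocks 1 0 0 0 + fromRows P1 P2 * X * fromCols Q1 Q2)
      (fromRows P1 P2 * C) (R * fromCols Q1 Q2) (0 : Matrix ε γ F)) =
      (fromBlocks (1 + P1 * X * Q1) (fromCols (P1 * X * Q2) (P1 * C))
        (fromRows (P2 * X * Q1) (R * Q1)) (fromBlocks (P2 * X * Q2) (P2 * C) (R * Q2) 0)).submatrix
        (Equiv.sumAssoc ρ δ' ε) (Equiv.sumAssoc ρ δ γ) := by
    ext i j
    rcases i with (i | i) | i <;> rcases j with (j | j) | j <;>
      simp [Matrix.fromRows_mul, Matrix.mul_fromCols]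
  rw [h2, Matrix.rank_submatrix, h1]
  congr 2
  have hs : fromRows (P2 * X * Q1) (R * Q1) * (1 + P1 * X * Q1)⁻¹ *
      fromCols (P1 * X * Q2) (P1 * C) =
      fromBlocks (P2 * X * Q1 * (1 + P1 * X * Q1)⁻¹ * (P1 * X * Q2))
        (P2 * X * Q1 * (1 + P1 * X * Q1)⁻¹ * (P1 * C))
        (R * Q1 * (1 + P1 * X * Q1)⁻¹ * (P1 * X * Q2))
        (R * Q1 * (1 + P1 * X * Q1)⁻¹ * (P1 * C)) := by
    rw [Matrix.fromRows_mul, Matrix.fromRows_mul_fromCols]
  rw [hs, inv_push_T P1 Q1 X h, inv_push P1 Q1 X h, inv_push' P1 Q1 X h, sub_eq_add_neg,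
    Matrix.fromBlocks_neg, Matrix.fromBlocks_add]
  simp only [Matrix.mul_add, Matrix.add_mul, Matrix.mul_assoc,
    Matrix.one_mul, Matrix.neg_mul, Matrix.mul_neg, sub_eq_add_neg, zero_add]

end Normal

/-- **Schur block.** For a square matrix `B` and factors `P`, `Q` there are `T`, `mu`, `nu` such
that for all `X` with `1 - T X` invertible and all borders `C`, `R` the rank of the bordered
matrix is `rank B` plus the rank of the bordered Schur complement. -/
theorem schur_exists {n W : Type*} [Fintype n] [DecidableEq n] [Fintype W] [DecidableEq W]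
    (B : Matrix n n F) (P : Matrix n W F) (Q : Matrix W n F) :
    ∃ (T : Matrix W W F) (mu : Matrix W (Fin (Fintype.card n - B.rank)) F)
      (nu : Matrix (Fin (Fintype.card n - B.rank)) W F),
      ∀ X : Matrix W W F, (1 - T * X).det ≠ 0 →
      ∀ {γ : Type u} {ε : Type v} [Fintype γ] [Fintype ε] (C : Matrix W γ F) (R : Matrix ε W F),
        (fromBlocks (B + P * X * Q) (P * C) (R * Q) (0 : Matrix ε γ F)).rank =
          B.rank + (fromBlocks (nu * X * (1 - T * X)⁻¹ * mu) (nu * (1 - X * T)⁻¹ * C)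
            (R * (1 - T * X)⁻¹ * mu) (R * ((1 - T * X)⁻¹ * T) * C)).rank := by
  classical
  obtain ⟨V, U, e, hV, hU, hB⟩ := Matrix.exists_rank_normal_form B
  refine ⟨-(((Q * U).submatrix id (fun i => e.symm (Sum.inl i))) *
    ((V * P).submatrix (fun i => e.symm (Sum.inl i)) id)),
    (Q * U).submatrix id (fun i => e.symm (Sum.inr i)),
    (V * P).submatrix (fun i => e.symm (Sum.inr i)) id, ?_⟩
  intro X hX γ ε _ _ C R
  have hV' : IsUnit V.det := (Matrix.isUnit_iff_isUnit_det V).1 hV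
  have hU' : IsUnit U.det := (Matrix.isUnit_iff_isUnit_det U).1 hU
  have key := schur_normal ((V * P).submatrix (fun i => e.symm (Sum.inl i)) id)
    ((V * P).submatrix (fun i => e.symm (Sum.inr i)) id)
    ((Q * U).submatrix id (fun i => e.symm (Sum.inl i)))
    ((Q * U).submatrix id (fun i => e.symm (Sum.inr i))) X C R hX
  rw [Fintype.card_fin] at key
  rw [← key]
  have h1 : (fromBlocks V 0 0 (1 : Matrix ε ε F)).det ≠ 0 := by
    rw [Matrix.det_fromBlocks_zero₁₂]; simpa using hV'.ne_zero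
  have h2 : (fromBlocks U 0 0 (1 : Matrix γ γ F)).det ≠ 0 := by
    rw [Matrix.det_fromBlocks_zero₁₂]; simpa using hU'.ne_zero
  rw [← Matrix.rank_mul_eq_left_of_det_ne_zero _ _ h2,
    ← Matrix.rank_mul_eq_right_of_det_ne_zero _ _ h1]
  have h3 : fromRows ((V * P).submatrix (fun i => e.symm (Sum.inl i)) id)
      ((V * P).submatrix (fun i => e.symm (Sum.inr i)) id) = (V * P).submatrix e.symm id := by
    ext i j; rcases i with i | i <;> simp
  have h4 : fromCols ((Q * U).submatrix id (fun i => e.symm (Sum.inl i)))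
      ((Q * U).submatrix id (fun i => e.symm (Sum.inr i))) = (Q * U).submatrix id e.symm := by
    ext i j; rcases j with j | j <;> simp
  rw [h3, h4]
  have h5 : fromBlocks (fromBlocks 1 0 0 0 + (V * P).submatrix e.symm id * X *
        (Q * U).submatrix id e.symm) ((V * P).submatrix e.symm id * C)
        (R * (Q * U).submatrix id e.symm) (0 : Matrix ε γ F) =
      (fromBlocks V 0 0 (1 : Matrix ε ε F) * (fromBlocks (B + P * X * Q) (P * C) (R * Q) 0 *
        fromBlocks U 0 0 (1 : Matrix γ γ F))).submatrix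
        (Equiv.sumCongr e.symm (Equiv.refl ε)) (Equiv.sumCongr e.symm (Equiv.refl γ)) := by
    have h6 : (fromBlocks 1 0 0 0 : Matrix (Fin B.rank ⊕ Fin (Fintype.card n - B.rank))
        (Fin B.rank ⊕ Fin (Fintype.card n - B.rank)) F) = (V * B * U).submatrix e.symm e.symm := by
      rw [hB]; ext i j; simp
    have h7 : (V * P).submatrix e.symm id * X * (Q * U).submatrix id e.symm =
        (V * P * X * (Q * U)).submatrix e.symm e.symm := rfl
    have h8 : (V * P).submatrix e.symm id * C = (V * P * C).submatrix e.symm id := rfl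
    have h9 : R * (Q * U).submatrix id e.symm = (R * (Q * U)).submatrix id e.symm := rfl
    rw [h6, h7, h8, h9, Matrix.fromBlocks_multiply, Matrix.fromBlocks_multiply]
    simp only [Matrix.mul_zero, Matrix.zero_mul, add_zero, zero_add, Matrix.one_mul,
      Matrix.mul_one, Matrix.mul_add, Matrix.add_mul, Matrix.mul_assoc]
    ext i j
    rcases i with i | i <;> rcases j with j | j <;> simp
  rw [h5, Matrix.rank_submatrix]


/-- The rectangular version. -/
theorem schur_rect {m n W : Type*} [Fintype m] [Fintype n] [DecidableEq m] [DecidableEq n]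
    [Fintype W] [DecidableEq W] (B : Matrix m n F) (P : Matrix m W F) (Q : Matrix W n F) :
    ∃ (a : ℕ) (T : Matrix W W F) (mu : Matrix W (Fin a) F) (nu : Matrix (Fin a) W F),
      ∀ X : Matrix W W F, (1 - T * X).det ≠ 0 →
      ∀ {γ : Type u} {ε : Type v} [Fintype γ] [Fintype ε] (C : Matrix W γ F) (R : Matrix ε W F),
        (fromBlocks (B + P * X * Q) (P * C) (R * Q) (0 : Matrix ε γ F)).rank =
          B.rank + (fromBlocks (nu * X * (1 - T * X)⁻¹ * mu) (nu * (1 - X * T)⁻¹ * C)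
            (R * (1 - T * X)⁻¹ * mu) (R * ((1 - T * X)⁻¹ * T) * C)).rank := by
  classical
  obtain ⟨T, mu, nu, h⟩ := schur_exists (fromBlocks (0 : Matrix m m F) B (0 : Matrix n m F) 0)
    (fromRows P (0 : Matrix n W F)) (fromCols (0 : Matrix W m F) Q)
  refine ⟨_, T, mu, nu, ?_⟩
  intro X hX γ ε _ _ C R
  have key := h X hX C R
  have hB : (fromBlocks (0 : Matrix m m F) B (0 : Matrix n m F) 0).rank = B.rank := by
    have e : (fromBlocks (0 : Matrix m m F) B (0 : Matrix n m F) 0) =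
        (fromBlocks B 0 0 (0 : Matrix n m F)).submatrix (Equiv.refl (m ⊕ n)) (Equiv.sumComm m n) := by
      ext i j
      rcases i with i | i <;> rcases j with j | j <;> simp
    rw [e, Matrix.rank_submatrix, rank_diag, Matrix.rank_zero, add_zero]
  rw [← hB, ← key]
  let e1 : (m ⊕ n) ⊕ ε ≃ (m ⊕ ε) ⊕ n :=
    { toFun := fun z => match z with
        | Sum.inl (Sum.inl i) => Sum.inl (Sum.inl i)
        | Sum.inl (Sum.inr i) => Sum.inr i
        | Sum.inr i => Sum.inl (Sum.inr i)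
      invFun := fun z => match z with
        | Sum.inl (Sum.inl i) => Sum.inl (Sum.inl i)
        | Sum.inr i => Sum.inl (Sum.inr i)
        | Sum.inl (Sum.inr i) => Sum.inr i
      left_inv := by rintro ((i | i) | i) <;> rfl
      right_inv := by rintro ((i | i) | i) <;> rfl }
  let e2 : (m ⊕ n) ⊕ γ ≃ (n ⊕ γ) ⊕ m :=
    { toFun := fun z => match z with
        | Sum.inl (Sum.inl i) => Sum.inr i
        | Sum.inl (Sum.inr i) => Sum.inl (Sum.inl i)
        | Sum.inr i => Sum.inl (Sum.inr i)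
      invFun := fun z => match z with
        | Sum.inr i => Sum.inl (Sum.inl i)
        | Sum.inl (Sum.inl i) => Sum.inl (Sum.inr i)
        | Sum.inl (Sum.inr i) => Sum.inr i
      left_inv := by rintro ((i | i) | i) <;> rfl
      right_inv := by rintro ((i | i) | i) <;> rfl }
  have e : fromBlocks (fromBlocks (0 : Matrix m m F) B (0 : Matrix n m F) 0 +
        fromRows P (0 : Matrix n W F) * X * fromCols (0 : Matrix W m F) Q)
        (fromRows P (0 : Matrix n W F) * C) (R * fromCols (0 : Matrix W m F) Q)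
        (0 : Matrix ε γ F) =
      (fromBlocks (fromBlocks (B + P * X * Q) (P * C) (R * Q) (0 : Matrix ε γ F)) 0 0
        (0 : Matrix n m F)).submatrix e1 e2 := by
    ext i j
    rcases i with (i | i) | i <;> rcases j with (j | j) | j <;>
      simp [e1, e2, Matrix.fromRows_mul, Matrix.mul_fromCols]
  rw [e, Matrix.rank_submatrix, rank_diag, Matrix.rank_zero, add_zero]

end Pool.Agent.H18.R2.SchurAux

namespace Pool.Agent.H18.R2

open Matrix

variable {F : Type*} [Field F] {V : Type*} [Fintype V] [DecidableEq V]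
variable {m n : Type*} [Fintype m] [Fintype n] [DecidableEq m] [DecidableEq n]

theorem exists_data (B : Matrix m n F) (P : Matrix m (V × Fin 2) F)
    (Q : Matrix (V × Fin 2) n F) :
    ∃ (a b : ℕ) (Θ : Matrix ((V × Fin 2) ⊕ Fin a) ((V × Fin 2) ⊕ Fin b) F),
      (∀ p q, Θ (Sum.inr p) (Sum.inr q) = 0) ∧
      ∀ x : V → F, Reg (TT Θ) x →
        ∀ (R : Matrix (Fin 2 ⊕ Fin 2) (V × Fin 2) F) (C : Matrix (V × Fin 2) (Fin 2 ⊕ Fin 2) F),
        (Matrix.fromBlocks (B + P * X x * Q) (P * C) (R * Q) 0).rank =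
          B.rank + (bord (shift Θ x) R C).rank := by
  obtain ⟨a, T, mu, nu, h⟩ := SchurAux.schur_rect B P Q
  refine ⟨a, a, fromBlocks T mu nu 0, fun p q => rfl, ?_⟩
  intro x hx R C
  have hT : TT (fromBlocks T mu nu (0 : Matrix (Fin a) (Fin a) F)) = T := by
    ext i j; rfl
  have hreg : (1 - T * X x).det ≠ 0 := by
    have := hx
    unfold Reg at this
    rwa [hT] at this
  rw [h (X x) hreg C R]
  congr 2
  have hu : IsUnit (1 - T * X x).det := isUnit_iff_ne_zero.2 hreg
  have g1 := Matrix.mul_nonsing_inv (1 - T * X x) hu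
  have hc : cols (fromBlocks T mu nu (0 : Matrix (Fin a) (Fin a) F)) = fromRows T nu := by
    ext i j; rcases i with i | i <;> rfl
  have hr : rows (fromBlocks T mu nu (0 : Matrix (Fin a) (Fin a) F)) = fromCols T mu := by
    ext i j; rcases j with j | j <;> rfl
  have hl : (1 - X x * T)⁻¹ = 1 + X x * (1 - T * X x)⁻¹ * T := by
    refine Matrix.inv_eq_right_inv ?_
    set G := (1 - T * X x)⁻¹ with hG
    have e2 : X x * ((1 - T * X x) * (G * T)) = X x * T := by
      rw [← Matrix.mul_assoc (1 - T * X x), g1, Matrix.one_mul]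
    simp only [Matrix.mul_add, Matrix.mul_sub, Matrix.sub_mul, Matrix.mul_assoc,
      Matrix.one_mul, Matrix.mul_one] at e2 ⊢
    rw [← e2]
    abel
  have hg : 1 + T * X x * (1 - T * X x)⁻¹ = (1 - T * X x)⁻¹ := by
    rw [Matrix.sub_mul, Matrix.one_mul] at g1
    exact (sub_eq_iff_eq_add.1 g1).symm
  unfold bord shift
  rw [hT, hc, hr, hl]
  set G := (1 - T * X x)⁻¹ with hG
  have hs : fromBlocks T mu nu (0 : Matrix (Fin a) (Fin a) F) +
      fromRows T nu * X x * G * fromCols T mu =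
      fromBlocks (G * T) (G * mu) (nu + nu * X x * G * T) (nu * X x * G * mu) := by
    rw [Matrix.fromRows_mul, Matrix.fromRows_mul, Matrix.fromRows_mul_fromCols,
      Matrix.fromBlocks_add, zero_add]
    congr 1
    · conv_rhs => rw [← hg]
      rw [Matrix.add_mul, Matrix.one_mul]
    · conv_rhs => rw [← hg]
      rw [Matrix.add_mul, Matrix.one_mul]
  rw [hs, hatR, hatC, Matrix.fromBlocks_multiply, Matrix.fromBlocks_multiply]
  simp only [Matrix.zero_mul, Matrix.mul_zero, Matrix.one_mul, Matrix.mul_one, zero_add, add_zero,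
    Matrix.mul_add, Matrix.mul_assoc]

end Pool.Agent.H18.R2
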