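import Pool.Agent.H18.R2.ZeroAll
import Pool.Agent.H18.R2.Schur
import Pool.Agent.H18.R2.Big
import Pool.Agent.H18.R2.RankGen

/-!
# Theorem L: local optimum = global optimum (module LocalGlobal, helper18: assembled below)
-/

namespace Pool.Agent.H18.R2

open Matrix

variable {F : Type*} [Field F] [Infinite F] {V : Type*} [Fintype V] [DecidableEq V]
variable {m n : Type*} [Fintype m] [Fintype n] [DecidableEq m] [DecidableEq n]

omit [Infinite F] [Fintype m] [Fintype n] [DecidableEq m] [DecidableEq n] in
theorem lin_add (B : Matrix m n F) (A : V → Matrix m n F) (a x : V → F) :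
    lin B A (a + x) = lin (lin B A a) A x := by
  simp only [lin, Pi.add_apply, add_smul, Finset.sum_add_distrib]
  rw [add_assoc]

/-- polynomial entries -/
theorem polyFun_lin (B : Matrix m n F) (A : V → Matrix m n F) (i : m) (j : n) :
    PolyFun (fun x => lin B A x i j) := by
  have h := (PolyFun.const (σ := V) (B i j)).add
    (PolyFun.sum Finset.univ (f := fun k x => x k * A k i j)
      (fun k => (PolyFun.coord k).mul (PolyFun.const (A k i j))))
  convert h using 2 with x
  simp [lin, Matrix.sum_apply]

theorem zeroPair_none {a b : ℕ} (Θ : Matrix ((V × Fin 2) ⊕ Fin a) ((V × Fin 2) ⊕ Fin b) F)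
    (h : ∀ p q, Θ (Sum.inr p) (Sum.inr q) = 0) : ZeroPair Θ none none := by
  rw [ZeroPair, bord]
  ext p q
  rcases p with p | p <;> rcases q with q | q <;>
    simp [hatR, hatC, selR, selC, Matrix.mul_apply, Matrix.one_apply, h]

theorem bord_none (a b : ℕ) (Θ : Matrix ((V × Fin 2) ⊕ Fin a) ((V × Fin 2) ⊕ Fin b) F)
    (h : ZeroPair Θ none none) : brank Θ none none none none = 0 := by
  have h1 : bord Θ (Matrix.fromRows (selR (none : Option V)) (selR none))
      (Matrix.fromCols (selC (none : Option V)) (selC none)) = 0 := by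
    have h2 : ∀ p q, Θ (Sum.inr p) (Sum.inr q) = 0 := by
      intro p q
      have := congrFun (congrFun h (Sum.inl p)) (Sum.inl q)
      simpa [bord, hatR, hatC, selR, selC, Matrix.mul_apply, Matrix.one_apply] using this
    rw [bord]
    ext p q
    rcases p with p | p | p <;> rcases q with q | q | q <;>
      simp [hatR, hatC, selR, selC, Matrix.mul_apply, Matrix.one_apply, h2]
  rw [brank, h1, Matrix.rank_zero]

theorem local_global (B : Matrix m n F) (A : V → Matrix m n F) (hA : ∀ i, (A i).rank ≤ 2)
    (a : V → F)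
    (hloc : ∀ (S : Finset V) (a' : V → F), S.card ≤ 5 → (∀ i, i ∉ S → a' i = a i) →
      ∀ r1 r2 s1 s2 : Option V,
        (big (lin B A a') A r1 r2 s1 s2).rank ≤ (big (lin B A a) A r1 r2 s1 s2).rank)
    (x : V → F) : (lin B A x).rank ≤ (lin B A a).rank := by
  choose P Q Q' P' h1 h2 h3 using fun i => factor_two (A i) (hA i)
  obtain ⟨na, nb, Θ, h0, hΘ⟩ := exists_data (lin B A a) (glueP P) (glueQ Q)
  -- bordered ranks at regular points
  have hb : ∀ z : V → F, Reg (TT Θ) z → ∀ r1 r2 s1 s2 : Option V,
      (big (lin B A (a + z)) A r1 r2 s1 s2).rank =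
        (lin B A a).rank + brank (shift Θ z) r1 r2 s1 s2 := by
    intro z hz r1 r2 s1 s2
    rw [big_rank _ A P Q Q' P' h1 h2 h3, lin_add, lin_eq _ A P Q h1]
    exact hΘ z hz _ _
  have hb0 : ∀ r1 r2 s1 s2 : Option V,
      (big (lin B A a) A r1 r2 s1 s2).rank = (lin B A a).rank + brank Θ r1 r2 s1 s2 := by
    intro r1 r2 s1 s2
    have := hb 0 (reg_zero _) r1 r2 s1 s2
    rwa [add_zero, shift_zero] at this
  have hlo : LocOpt Θ := by
    intro S z hS hz hr r1 r2 s1 s2
    have h4 := hloc S (a + z) hS (by intro i hi; simp [hz i hi]) r1 r2 s1 s2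
    rw [hb z hr, hb0] at h4
    omega
  have hz0 : ZeroPair Θ none none := by
    exact zeroPair_none Θ h0
  have hreg : ∀ z : V → F, Reg (TT Θ) z → (lin B A (a + z)).rank ≤ (lin B A a).rank := by
    intro z hz
    have h5 := hb z hz none none none none
    rw [big_none, bord_none _ _ _ (locOpt_zero hlo hz0 hz)] at h5
    omega
  have h6 := rank_le_of_generic (fun z : V → F => lin (lin B A a) A z)
    (fun i j => polyFun_lin _ _ i j) (polyFun_den Θ) ⟨0, reg_zero _⟩
    (r := (lin B A a).rank) (by
      intro z hz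
      have := hreg z hz
      rwa [lin_add] at this) (x - a)
  have h7 : lin (lin B A a) A (x - a) = lin B A x := by
    rw [← lin_add]
    congr 1
    ext i
    simp
  simpa [h7] using h6

end Pool.Agent.H18.R2
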