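import Pool.Agent.H18.R2.Defs

/-!
# Base change (module Base, helper24)

Write `T = TT Θ`, `X = X x`, `Y = X y`, `Θ^x = shift Θ x`.
(S0) `shift Θ 0 = Θ`, `0` is regular, `X (x+y) = X x + X y`.
(S1) `x` regular: `x + y` regular iff `y` regular for `TT (shift Θ x) = (1 - T X)⁻¹ T`
     [`1 - T(X+Y) = (1 - TX)(1 - (1-TX)⁻¹ T Y)`].
(S2) `shift (shift Θ x) y = shift Θ (x + y)` (both regular).
     [Put `A = (1-TX)⁻¹`, `A' = (1-T(X+Y))⁻¹ = (1 - A T Y)⁻¹ A`.  `cols (shift Θ x) = cols Θ (1 + X A T)`,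
      `rows (shift Θ x) = (1 + T X A) rows Θ = A rows Θ`, `TT (shift Θ x) = A T = T + T X A T`.
      Then compare `Θ + cols Θ X A rows Θ + cols Θ (1 + X A T) Y (1 - A T Y)⁻¹ A rows Θ` with
      `Θ + cols Θ (X + Y) A' rows Θ`: enough `X A + (1 + X A T) Y A' = (X + Y) A'`, i.e.
      `X A (1 + T Y A') = X A'`, and `A (1 + T Y A') = A'` is `(1-TX) A' = 1 + T Y A'`.]
(S3) `shift Θ y = Θ + cols Θ Y rows (shift Θ y) = Θ + cols (shift Θ y) Y rows Θ` (y regular)
     [`rows (shift Θ y) = (1 - T Y)⁻¹ rows Θ`; `cols (shift Θ y) = cols Θ (1 + Y (1-TY)⁻¹ T)` and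
      `(1 + Y (1-TY)⁻¹ T) Y = Y (1-TY)⁻¹`].
(star) one coordinate: `x` regular and `x + t e_m` regular (`Function.update x m (x m + t)`).
-/

namespace Pool.Agent.H18.R2

open Matrix

variable {F : Type*} [Field F] {V : Type*} [Fintype V] [DecidableEq V]
variable {α β : Type*} [Fintype α] [Fintype β] [DecidableEq α] [DecidableEq β]

private lemma Base_inv_mul {A : Matrix (V × Fin 2) (V × Fin 2) F} (h : A.det ≠ 0) :
    A⁻¹ * A = 1 :=
  Matrix.nonsing_inv_mul A (isUnit_iff_ne_zero.mpr h)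

private lemma Base_mul_inv {A : Matrix (V × Fin 2) (V × Fin 2) F} (h : A.det ≠ 0) :
    A * A⁻¹ = 1 :=
  Matrix.mul_nonsing_inv A (isUnit_iff_ne_zero.mpr h)

omit [DecidableEq V] [Fintype α] [Fintype β] [DecidableEq α] [DecidableEq β] in
private lemma Base_TT (Θ : Matrix ((V × Fin 2) ⊕ α) ((V × Fin 2) ⊕ β) F)
    (M : Matrix (V × Fin 2) (V × Fin 2) F) :
    TT (Θ + cols Θ * M * rows Θ) = TT Θ + TT Θ * M * TT Θ := by
  ext i j
  simp only [TT, cols, rows, Matrix.submatrix_apply, Matrix.add_apply, Matrix.mul_apply, id_eq]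

omit [DecidableEq V] [Fintype α] [Fintype β] [DecidableEq α] [DecidableEq β] in
private lemma Base_cols (Θ : Matrix ((V × Fin 2) ⊕ α) ((V × Fin 2) ⊕ β) F)
    (M : Matrix (V × Fin 2) (V × Fin 2) F) :
    cols (Θ + cols Θ * M * rows Θ) = cols Θ + cols Θ * M * TT Θ := by
  ext i j
  simp only [TT, cols, rows, Matrix.submatrix_apply, Matrix.add_apply, Matrix.mul_apply, id_eq]

omit [DecidableEq V] [Fintype α] [Fintype β] [DecidableEq α] [DecidableEq β] in
private lemma Base_rows (Θ : Matrix ((V × Fin 2) ⊕ α) ((V × Fin 2) ⊕ β) F)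
    (M : Matrix (V × Fin 2) (V × Fin 2) F) :
    rows (Θ + cols Θ * M * rows Θ) = rows Θ + TT Θ * M * rows Θ := by
  ext i j
  simp only [TT, cols, rows, Matrix.submatrix_apply, Matrix.add_apply, Matrix.mul_apply, id_eq]

omit [Fintype α] [Fintype β] [DecidableEq α] [DecidableEq β] in
private lemma Base_shift (Θ : Matrix ((V × Fin 2) ⊕ α) ((V × Fin 2) ⊕ β) F) (x : V → F) :
    shift Θ x = Θ + cols Θ * (X x * (1 - TT Θ * X x)⁻¹) * rows Θ := by
  rw [shift, ← Matrix.mul_assoc]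

private lemma Base_one {T Y : Matrix (V × Fin 2) (V × Fin 2) F} (h : (1 - T * Y).det ≠ 0) :
    1 + T * (Y * (1 - T * Y)⁻¹) = (1 - T * Y)⁻¹ := by
  have h1 := Base_mul_inv h
  rw [Matrix.sub_mul, Matrix.one_mul, sub_eq_iff_eq_add] at h1
  rw [← Matrix.mul_assoc]
  exact h1.symm

private lemma Base_one' {T Y : Matrix (V × Fin 2) (V × Fin 2) F} (h : (1 - T * Y).det ≠ 0) :
    1 + (1 - T * Y)⁻¹ * (T * Y) = (1 - T * Y)⁻¹ := by
  have h1 := Base_inv_mul h
  rw [Matrix.mul_sub, Matrix.mul_one, sub_eq_iff_eq_add] at h1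
  exact h1.symm

omit [Fintype α] [Fintype β] [DecidableEq α] [DecidableEq β] in
/-- `rows (shift Θ x) = (1 - T X)⁻¹ rows Θ` -/
theorem base_rows_shift (Θ : Matrix ((V × Fin 2) ⊕ α) ((V × Fin 2) ⊕ β) F) {x : V → F}
    (hx : Reg (TT Θ) x) : rows (shift Θ x) = (1 - TT Θ * X x)⁻¹ * rows Θ := by
  rw [Base_shift, Base_rows]
  conv_rhs => rw [← Base_one hx]
  rw [Matrix.add_mul, Matrix.one_mul]

omit [Fintype α] [Fintype β] [DecidableEq α] [DecidableEq β] in
/-- `TT (shift Θ x) = (1 - T X)⁻¹ T` -/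
theorem base_TT_shift (Θ : Matrix ((V × Fin 2) ⊕ α) ((V × Fin 2) ⊕ β) F) {x : V → F}
    (hx : Reg (TT Θ) x) : TT (shift Θ x) = (1 - TT Θ * X x)⁻¹ * TT Θ := by
  rw [Base_shift, Base_TT]
  conv_rhs => rw [← Base_one hx]
  rw [Matrix.add_mul, Matrix.one_mul]

omit [Fintype α] [Fintype β] [DecidableEq α] [DecidableEq β] in
/-- `cols (shift Θ x) = cols Θ (1 + X (1 - T X)⁻¹ T)` -/
theorem base_cols_shift (Θ : Matrix ((V × Fin 2) ⊕ α) ((V × Fin 2) ⊕ β) F) (x : V → F) :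
    cols (shift Θ x) = cols Θ * (1 + X x * (1 - TT Θ * X x)⁻¹ * TT Θ) := by
  rw [Base_shift, Base_cols, Matrix.mul_add, Matrix.mul_one, Matrix.mul_assoc]

theorem X_add (x y : V → F) : X (x + y) = X x + X y := by
  ext i j
  by_cases h : i = j
  · subst h
    simp [X]
  · simp [X, Matrix.diagonal_apply_ne _ h]

theorem X_zero : X (0 : V → F) = 0 := by
  ext i j
  by_cases h : i = j
  · subst h
    simp [X]
  · simp [X, Matrix.diagonal_apply_ne _ h]

theorem reg_zero (T : Matrix (V × Fin 2) (V × Fin 2) F) : Reg T 0 := by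
  rw [Reg, X_zero, Matrix.mul_zero, sub_zero, Matrix.det_one]
  exact one_ne_zero

theorem shift_zero (Θ : Matrix ((V × Fin 2) ⊕ α) ((V × Fin 2) ⊕ β) F) : shift Θ 0 = Θ := by
  rw [shift, X_zero, Matrix.mul_zero, Matrix.zero_mul, Matrix.zero_mul, add_zero]

omit [Fintype α] [Fintype β] [DecidableEq α] [DecidableEq β] in
private lemma Base_fac (Θ : Matrix ((V × Fin 2) ⊕ α) ((V × Fin 2) ⊕ β) F) {x : V → F}
    (hx : Reg (TT Θ) x) (y : V → F) :
    1 - TT Θ * X (x + y) = (1 - TT Θ * X x) * (1 - TT (shift Θ x) * X y) := by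
  rw [base_TT_shift Θ hx, Matrix.mul_sub, Matrix.mul_one, ← Matrix.mul_assoc, ← Matrix.mul_assoc,
    Base_mul_inv hx, Matrix.one_mul, X_add, Matrix.mul_add]
  abel

/-- (S1) -/
theorem reg_add (Θ : Matrix ((V × Fin 2) ⊕ α) ((V × Fin 2) ⊕ β) F) {x : V → F}
    (hx : Reg (TT Θ) x) (y : V → F) : Reg (TT Θ) (x + y) ↔ Reg (TT (shift Θ x)) y := by
  rw [Reg, Base_fac Θ hx y, Matrix.det_mul, Reg]
  exact ⟨fun h h1 => h (by rw [h1, mul_zero]), fun h => mul_ne_zero hx h⟩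

/-- (S2) -/
theorem shift_shift (Θ : Matrix ((V × Fin 2) ⊕ α) ((V × Fin 2) ⊕ β) F) {x y : V → F}
    (hx : Reg (TT Θ) x) (hxy : Reg (TT Θ) (x + y)) :
    shift (shift Θ x) y = shift Θ (x + y) := by
  have e0 : (1 - TT Θ * X (x + y))⁻¹ =
      (1 - TT (shift Θ x) * X y)⁻¹ * (1 - TT Θ * X x)⁻¹ := by
    rw [Base_fac Θ hx y, Matrix.mul_inv_rev]
  have e1 : shift (shift Θ x) y = shift Θ x + cols (shift Θ x) * X y *
      (1 - TT (shift Θ x) * X y)⁻¹ * rows (shift Θ x) := rfl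
  rw [e1, base_rows_shift Θ hx, base_cols_shift]
  have e2 : cols Θ * (1 + X x * (1 - TT Θ * X x)⁻¹ * TT Θ) * X y *
      (1 - TT (shift Θ x) * X y)⁻¹ * ((1 - TT Θ * X x)⁻¹ * rows Θ) =
      cols Θ * ((1 + X x * (1 - TT Θ * X x)⁻¹ * TT Θ) * X y *
        (1 - TT Θ * X (x + y))⁻¹) * rows Θ := by
    rw [e0]
    simp only [Matrix.mul_assoc]
  rw [e2, Base_shift, Base_shift, add_assoc, ← Matrix.add_mul, ← Matrix.mul_add]
  congr 3
  -- `X A + (1 + X A T) Y A' = (X + Y) A'`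
  set T := TT Θ with hT
  set A := (1 - T * X x)⁻¹ with hA
  set A' := (1 - T * X (x + y))⁻¹ with hA'
  have h1 : (1 - T * X x) * A' = 1 + T * X y * A' := by
    have h2 : (1 - T * X (x + y)) * A' = 1 := Base_mul_inv hxy
    rw [X_add, Matrix.mul_add, ← sub_sub, Matrix.sub_mul, sub_eq_iff_eq_add] at h2
    exact h2
  have h3 : A' = A + A * (T * X y * A') := by
    have h4 : A * ((1 - T * X x) * A') = A * (1 + T * X y * A') := by rw [h1]
    rw [← Matrix.mul_assoc, Base_inv_mul hx, Matrix.one_mul, Matrix.mul_add, Matrix.mul_one] at h4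
    exact h4
  have h5 : X x * A' = X x * A + X x * A * T * X y * A' := by
    conv_lhs => rw [h3]
    rw [Matrix.mul_add]
    simp only [Matrix.mul_assoc]
  rw [X_add, Matrix.add_mul (X x) (X y) A', h5, Matrix.add_mul, Matrix.add_mul, Matrix.one_mul]
  abel

/-- (S3), first form -/
theorem shift_eq_left (Θ : Matrix ((V × Fin 2) ⊕ α) ((V × Fin 2) ⊕ β) F) {y : V → F}
    (hy : Reg (TT Θ) y) : shift Θ y = Θ + cols Θ * X y * rows (shift Θ y) := by
  rw [base_rows_shift Θ hy, ← Matrix.mul_assoc]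
  rfl

/-- (S3), second form -/
theorem shift_eq_right (Θ : Matrix ((V × Fin 2) ⊕ α) ((V × Fin 2) ⊕ β) F) {y : V → F}
    (hy : Reg (TT Θ) y) : shift Θ y = Θ + cols (shift Θ y) * X y * rows Θ := by
  rw [base_cols_shift]
  have h : (1 + X y * (1 - TT Θ * X y)⁻¹ * TT Θ) * X y = X y * (1 - TT Θ * X y)⁻¹ := by
    conv_rhs => rw [← Base_one' hy]
    rw [Matrix.mul_add, Matrix.mul_one, Matrix.add_mul, Matrix.one_mul]
    simp only [Matrix.mul_assoc]
  rw [Matrix.mul_assoc (cols Θ), h, Base_shift]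

/-- change of the `m`-th coordinate by `t` -/
def bump (x : V → F) (m : V) (t : F) : V → F := Function.update x m (x m + t)

theorem bump_apply_same (x : V → F) (m : V) (t : F) : bump x m t m = x m + t := by
  simp [bump]

theorem bump_apply_ne (x : V → F) {m i : V} (t : F) (h : i ≠ m) : bump x m t i = x i := by
  simp [bump, h]

omit [Fintype V] in
private lemma Base_bump (x : V → F) (m : V) (t : F) : bump x m t = x + Pi.single m t := by
  funext i
  by_cases h : i = m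
  · subst h
    simp [bump]
  · simp [bump, h]

omit [Fintype α] [Fintype β] [DecidableEq α] [DecidableEq β] in
private lemma Base_single {ρ γ : Type*} (P : Matrix ρ (V × Fin 2) F)
    (Q : Matrix (V × Fin 2) γ F) (m : V) (t : F) (p : ρ) (q : γ) :
    (P * X (Pi.single m t : V → F) * Q) p q =
      t * ∑ s : Fin 2, P p (m, s) * Q (m, s) q := by
  rw [Matrix.mul_apply]
  have h1 : ∀ k : V × Fin 2, (P * X (Pi.single m t : V → F)) p k =
      P p k * (Pi.single m t : V → F) k.1 := by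
    intro k
    rw [X, Matrix.mul_diagonal]
  simp only [h1]
  rw [Fintype.sum_prod_type, Finset.sum_eq_single m]
  · rw [Finset.mul_sum]
    refine Finset.sum_congr rfl fun s _ => ?_
    rw [Pi.single_eq_same]
    ring
  · intro i _ hi
    refine Finset.sum_eq_zero fun s _ => ?_
    rw [Pi.single_eq_of_ne hi, mul_zero, zero_mul]
  · intro h
    exact absurd (Finset.mem_univ m) h

/-- (star), first form -/
theorem star_left (Θ : Matrix ((V × Fin 2) ⊕ α) ((V × Fin 2) ⊕ β) F) {x : V → F} {m : V} {t : F}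
    (hx : Reg (TT Θ) x) (hy : Reg (TT Θ) (bump x m t)) (p : (V × Fin 2) ⊕ α)
    (q : (V × Fin 2) ⊕ β) :
    shift Θ (bump x m t) p q = shift Θ x p q +
      t * ∑ s : Fin 2, shift Θ x p (Sum.inl (m, s)) * shift Θ (bump x m t) (Sum.inl (m, s)) q := by
  rw [Base_bump] at hy ⊢
  have h1 := shift_eq_left (shift Θ x) ((reg_add Θ hx _).mp hy)
  rw [shift_shift Θ hx hy] at h1
  have h2 := congrFun (congrFun h1 p) q
  rw [Matrix.add_apply, Base_single] at h2
  rw [h2]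
  rfl

/-- (star), second form -/
theorem star_right (Θ : Matrix ((V × Fin 2) ⊕ α) ((V × Fin 2) ⊕ β) F) {x : V → F} {m : V} {t : F}
    (hx : Reg (TT Θ) x) (hy : Reg (TT Θ) (bump x m t)) (p : (V × Fin 2) ⊕ α)
    (q : (V × Fin 2) ⊕ β) :
    shift Θ (bump x m t) p q = shift Θ x p q +
      t * ∑ s : Fin 2, shift Θ (bump x m t) p (Sum.inl (m, s)) * shift Θ x (Sum.inl (m, s)) q := by
  rw [Base_bump] at hy ⊢
  have h1 := shift_eq_right (shift Θ x) ((reg_add Θ hx _).mp hy)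
  rw [shift_shift Θ hx hy] at h1
  have h2 := congrFun (congrFun h1 p) q
  rw [Matrix.add_apply, Base_single] at h2
  rw [h2]
  rfl

end Pool.Agent.H18.R2
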