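import Pool.Agent.H18.R2.Base

/-!
# Changing the border (module Tr)

`tr Θ A C` keeps the `V`-part and replaces the border rows by `A Θ`, the border columns by `Θ C`.
`shift` commutes with `tr` (immediate from the definition: `cols (tr Θ A C) = [T; A cols Θ]`,
`rows (tr Θ A C) = [T, rows Θ C]`, `TT (tr Θ A C) = TT Θ`).
-/

namespace Pool.Agent.H18.R2

open Matrix

variable {F : Type*} [Field F] {V : Type*} [Fintype V] [DecidableEq V]
variable {α β α' β' : Type*} [Fintype α] [Fintype β] [DecidableEq α] [DecidableEq β]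

/-- new border rows `A`, new border columns `C` -/
def tr (Θ : Matrix ((V × Fin 2) ⊕ α) ((V × Fin 2) ⊕ β) F)
    (A : Matrix α' ((V × Fin 2) ⊕ α) F) (C : Matrix ((V × Fin 2) ⊕ β) β' F) :
    Matrix ((V × Fin 2) ⊕ α') ((V × Fin 2) ⊕ β') F :=
  Matrix.fromBlocks (TT Θ) (rows Θ * C) (A * cols Θ) (A * Θ * C)

omit [DecidableEq V] [DecidableEq α] [DecidableEq β] in
theorem TT_tr (Θ : Matrix ((V × Fin 2) ⊕ α) ((V × Fin 2) ⊕ β) F)
    (A : Matrix α' ((V × Fin 2) ⊕ α) F) (C : Matrix ((V × Fin 2) ⊕ β) β' F) :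
    TT (tr Θ A C) = TT Θ := by
  ext p q
  rfl

/-- the left factor: `V`-rows kept, new border rows `A` -/
private def LA (A : Matrix α' ((V × Fin 2) ⊕ α) F) :
    Matrix ((V × Fin 2) ⊕ α') ((V × Fin 2) ⊕ α) F :=
  Matrix.fromRows (Matrix.fromCols 1 0) A

/-- the right factor -/
private def RC (C : Matrix ((V × Fin 2) ⊕ β) β' F) :
    Matrix ((V × Fin 2) ⊕ β) ((V × Fin 2) ⊕ β') F :=
  Matrix.fromCols (Matrix.fromRows 1 0) C

omit [DecidableEq α] in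
private lemma one_zero_mul {κ : Type*} (M : Matrix ((V × Fin 2) ⊕ α) κ F) :
    (Matrix.fromCols 1 0 : Matrix (V × Fin 2) ((V × Fin 2) ⊕ α) F) * M
      = M.submatrix Sum.inl id := by
  ext p q
  simp [Matrix.mul_apply, Fintype.sum_sum_type, Matrix.fromCols, Matrix.one_apply]

omit [DecidableEq β] in
private lemma mul_one_zero {κ : Type*} (M : Matrix κ ((V × Fin 2) ⊕ β) F) :
    M * (Matrix.fromRows 1 0 : Matrix ((V × Fin 2) ⊕ β) (V × Fin 2) F)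
      = M.submatrix id Sum.inl := by
  ext p q
  simp [Matrix.mul_apply, Fintype.sum_sum_type, Matrix.fromRows, Matrix.one_apply]

omit [DecidableEq α] [DecidableEq β] in
private lemma cols_tr (Θ : Matrix ((V × Fin 2) ⊕ α) ((V × Fin 2) ⊕ β) F)
    (A : Matrix α' ((V × Fin 2) ⊕ α) F) (C : Matrix ((V × Fin 2) ⊕ β) β' F) :
    cols (tr Θ A C) = LA A * cols Θ := by
  rw [LA, Matrix.fromRows_mul, one_zero_mul]
  ext (p | p) q <;> rfl

omit [DecidableEq α] [DecidableEq β] in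
private lemma rows_tr (Θ : Matrix ((V × Fin 2) ⊕ α) ((V × Fin 2) ⊕ β) F)
    (A : Matrix α' ((V × Fin 2) ⊕ α) F) (C : Matrix ((V × Fin 2) ⊕ β) β' F) :
    rows (tr Θ A C) = rows Θ * RC C := by
  rw [RC, Matrix.mul_fromCols, mul_one_zero]
  ext p (q | q) <;> rfl

omit [DecidableEq α] [DecidableEq β] in
private lemma tr_eq (Θ : Matrix ((V × Fin 2) ⊕ α) ((V × Fin 2) ⊕ β) F)
    (A : Matrix α' ((V × Fin 2) ⊕ α) F) (C : Matrix ((V × Fin 2) ⊕ β) β' F) :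
    tr Θ A C = LA A * Θ * RC C := by
  rw [LA, RC, Matrix.fromRows_mul, one_zero_mul, Matrix.fromRows_mul_fromCols, mul_one_zero,
    mul_one_zero]
  ext (p | p) (q | q)
  · rfl
  · rfl
  · show (A * cols Θ) p q = (A * Θ) p (Sum.inl q)
    rfl
  · rfl

theorem shift_tr (Θ : Matrix ((V × Fin 2) ⊕ α) ((V × Fin 2) ⊕ β) F)
    (A : Matrix α' ((V × Fin 2) ⊕ α) F) (C : Matrix ((V × Fin 2) ⊕ β) β' F) (x : V → F) :
    shift (tr Θ A C) x = tr (shift Θ x) A C := by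
  rw [tr_eq (shift Θ x), shift, shift, TT_tr, cols_tr, rows_tr, tr_eq]
  simp only [Matrix.mul_add, Matrix.add_mul, Matrix.mul_assoc]

/-- the data extended by the block row `r` and the block column `s` -/
def ext (Θ : Matrix ((V × Fin 2) ⊕ α) ((V × Fin 2) ⊕ β) F) (r s : Option V) :
    Matrix ((V × Fin 2) ⊕ (α ⊕ Fin 2)) ((V × Fin 2) ⊕ (β ⊕ Fin 2)) F :=
  tr Θ (hatR (selR r)) (hatC (selC s))

theorem TT_ext (Θ : Matrix ((V × Fin 2) ⊕ α) ((V × Fin 2) ⊕ β) F) (r s : Option V) :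
    TT (ext Θ r s) = TT Θ := TT_tr _ _ _

theorem shift_ext (Θ : Matrix ((V × Fin 2) ⊕ α) ((V × Fin 2) ⊕ β) F) (r s : Option V)
    (x : V → F) : shift (ext Θ r s) x = ext (shift Θ x) r s := shift_tr _ _ _ _

/-- the corner of the extended data is the bordered matrix -/
theorem ext_corner (Θ : Matrix ((V × Fin 2) ⊕ α) ((V × Fin 2) ⊕ β) F) (r s : Option V) :
    (ext Θ r s).toBlocks₂₂ = bord Θ (selR r) (selC s) := by
  rw [ext, tr, Matrix.toBlocks_fromBlocks₂₂, bord]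

private lemma hatR_mul_LA {ρ₁ ρ₂ : Type*} [Fintype ρ₁] [DecidableEq ρ₁]
    (R₁ : Matrix ρ₁ (V × Fin 2) F) (R₂ : Matrix ρ₂ (V × Fin 2) F) :
    (hatR R₂ : Matrix ((α ⊕ ρ₁) ⊕ ρ₂) ((V × Fin 2) ⊕ (α ⊕ ρ₁)) F) *
      LA (hatR R₁ : Matrix (α ⊕ ρ₁) ((V × Fin 2) ⊕ α) F) =
    (hatR (Matrix.fromRows R₁ R₂) : Matrix (α ⊕ (ρ₁ ⊕ ρ₂)) ((V × Fin 2) ⊕ α) F).submatrix
      (Equiv.sumAssoc α ρ₁ ρ₂) id := by
  rw [LA, hatR, Matrix.fromBlocks_mul_fromRows]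
  ext ((p | p) | p) (q | q)
  · simp [hatR, Matrix.fromRows]
  · simp [hatR, Matrix.fromRows]
  · simp [hatR, Matrix.fromRows]
  · simp [hatR, Matrix.fromRows]
  · simp [hatR, Matrix.fromRows, Matrix.mul_apply, Matrix.fromCols, Matrix.one_apply]
  · simp [hatR, Matrix.fromRows, Matrix.mul_apply, Matrix.fromCols]

private lemma RC_mul_hatC {γ₁ γ₂ : Type*} [Fintype γ₁] [DecidableEq γ₁]
    (C₁ : Matrix (V × Fin 2) γ₁ F) (C₂ : Matrix (V × Fin 2) γ₂ F) :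
    RC (hatC C₁ : Matrix ((V × Fin 2) ⊕ β) (β ⊕ γ₁) F) *
      (hatC C₂ : Matrix ((V × Fin 2) ⊕ (β ⊕ γ₁)) ((β ⊕ γ₁) ⊕ γ₂) F) =
    (hatC (Matrix.fromCols C₁ C₂) : Matrix ((V × Fin 2) ⊕ β) (β ⊕ (γ₁ ⊕ γ₂)) F).submatrix
      id (Equiv.sumAssoc β γ₁ γ₂) := by
  have e : (hatC C₂ : Matrix ((V × Fin 2) ⊕ (β ⊕ γ₁)) ((β ⊕ γ₁) ⊕ γ₂) F)
      = Matrix.fromBlocks 0 C₂ 1 0 := rfl
  rw [RC, e, Matrix.fromCols_mul_fromBlocks]
  ext (p | p) ((q | q) | q)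
  · simp [hatC, Matrix.fromCols]
  · simp [hatC, Matrix.fromCols]
  · simp [hatC, Matrix.fromRows, Matrix.mul_apply, Matrix.fromCols, Matrix.one_apply]
  · simp [hatC, Matrix.fromCols]
  · simp [hatC, Matrix.fromCols]
  · simp [hatC, Matrix.fromRows, Matrix.mul_apply, Matrix.fromCols]

/-- bordering the extended data by `(i, j)` is bordering the data by `(r, i)` and `(s, j)` -/
theorem rank_bord_ext (Θ : Matrix ((V × Fin 2) ⊕ α) ((V × Fin 2) ⊕ β) F) (r s i j : Option V) :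
    (bord (ext Θ r s) (selR i) (selC j)).rank = brank Θ r i s j := by
  have h : bord (ext Θ r s) (selR i) (selC j) =
      (bord Θ (Matrix.fromRows (selR r) (selR i)) (Matrix.fromCols (selC s) (selC j))).submatrix
        (Equiv.sumAssoc α (Fin 2) (Fin 2)) (Equiv.sumAssoc β (Fin 2) (Fin 2)) := by
    rw [bord, ext, tr_eq, bord]
    have e : ∀ (P : Matrix ((α ⊕ Fin 2) ⊕ Fin 2) ((V × Fin 2) ⊕ (α ⊕ Fin 2)) F)
        (P' : Matrix ((V × Fin 2) ⊕ (α ⊕ Fin 2)) ((V × Fin 2) ⊕ α) F)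
        (Q' : Matrix ((V × Fin 2) ⊕ β) ((V × Fin 2) ⊕ (β ⊕ Fin 2)) F)
        (Q : Matrix ((V × Fin 2) ⊕ (β ⊕ Fin 2)) ((β ⊕ Fin 2) ⊕ Fin 2) F),
        P * (P' * Θ * Q') * Q = (P * P') * Θ * (Q' * Q) := by
      intro P P' Q' Q
      simp only [Matrix.mul_assoc]
    rw [e, hatR_mul_LA, RC_mul_hatC]
    ext p q
    rfl
  rw [h, Matrix.rank_submatrix, brank]

private lemma bord_inl {ρ γ : Type*} (Θ : Matrix ((V × Fin 2) ⊕ α) ((V × Fin 2) ⊕ β) F)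
    (R : Matrix ρ (V × Fin 2) F) (C : Matrix (V × Fin 2) γ F) (a : α) (q : β ⊕ γ) :
    bord Θ R C (Sum.inl a) q = (Θ * (hatC C : Matrix ((V × Fin 2) ⊕ β) (β ⊕ γ) F)) (Sum.inr a) q := by
  rw [bord, Matrix.mul_assoc, Matrix.mul_apply]
  simp [hatR, Fintype.sum_sum_type, Matrix.one_apply]

private lemma bord_inr {γ : Type*} (Θ : Matrix ((V × Fin 2) ⊕ α) ((V × Fin 2) ⊕ β) F)
    (m : V) (C : Matrix (V × Fin 2) γ F) (t : Fin 2) (q : β ⊕ γ) :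
    bord Θ (selR (some m)) C (Sum.inr t) q
      = (Θ * (hatC C : Matrix ((V × Fin 2) ⊕ β) (β ⊕ γ) F)) (Sum.inl (m, t)) q := by
  rw [bord, Matrix.mul_assoc, Matrix.mul_apply]
  simp [hatR, Fintype.sum_sum_type, selR]

private lemma bord_inl' {ρ γ : Type*} (Θ : Matrix ((V × Fin 2) ⊕ α) ((V × Fin 2) ⊕ β) F)
    (R : Matrix ρ (V × Fin 2) F) (C : Matrix (V × Fin 2) γ F) (p : α ⊕ ρ) (b : β) :
    bord Θ R C p (Sum.inl b) = ((hatR R : Matrix (α ⊕ ρ) ((V × Fin 2) ⊕ α) F) * Θ) p (Sum.inr b) := by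
  rw [bord, Matrix.mul_apply]
  simp [hatC, Fintype.sum_sum_type, Matrix.one_apply]

private lemma bord_inr' {ρ : Type*} (Θ : Matrix ((V × Fin 2) ⊕ α) ((V × Fin 2) ⊕ β) F)
    (R : Matrix ρ (V × Fin 2) F) (m : V) (p : α ⊕ ρ) (t : Fin 2) :
    bord Θ R (selC (some m)) p (Sum.inr t)
      = ((hatR R : Matrix (α ⊕ ρ) ((V × Fin 2) ⊕ α) F) * Θ) p (Sum.inl (m, t)) := by
  rw [bord, Matrix.mul_apply]
  simp [hatC, Fintype.sum_sum_type, selC]

private lemma ext_row (Θ : Matrix ((V × Fin 2) ⊕ α) ((V × Fin 2) ⊕ β) F) (r s : Option V)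
    (m : V) (t : Fin 2) (q : β ⊕ Fin 2) :
    ext Θ r s (Sum.inl (m, t)) (Sum.inr q)
      = (Θ * (hatC (selC s) : Matrix ((V × Fin 2) ⊕ β) (β ⊕ Fin 2) F)) (Sum.inl (m, t)) q := rfl

private lemma ext_col (Θ : Matrix ((V × Fin 2) ⊕ α) ((V × Fin 2) ⊕ β) F) (r s : Option V)
    (m : V) (t : Fin 2) (p : α ⊕ Fin 2) :
    ext Θ r s (Sum.inr p) (Sum.inl (m, t))
      = ((hatR (selR r) : Matrix (α ⊕ Fin 2) ((V × Fin 2) ⊕ α) F) * Θ) p (Sum.inl (m, t)) := rfl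

/-- `μ~_m = 0` makes `(m, s)` and `(m, none)` zero pairs, if `(none, s)` is one -/
theorem zeroPair_of_row (Θ : Matrix ((V × Fin 2) ⊕ α) ((V × Fin 2) ⊕ β) F) {r s : Option V}
    (h : ZeroPair Θ r s) (m : V) (hm : ∀ t q, ext Θ r s (Sum.inl (m, t)) (Sum.inr q) = 0) :
    ZeroPair Θ (some m) s := by
  rw [ZeroPair] at h ⊢
  ext (p | p) q
  · have := congrFun (congrFun h (Sum.inl p)) q
    rw [bord_inl] at this
    rw [bord_inl, this]; try rfl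
  · rw [bord_inr, ← ext_row Θ r s m p q, hm]; try rfl

/-- the same for columns -/
theorem zeroPair_of_col (Θ : Matrix ((V × Fin 2) ⊕ α) ((V × Fin 2) ⊕ β) F) {r s : Option V}
    (h : ZeroPair Θ r s) (m : V) (hm : ∀ p t, ext Θ r s (Sum.inr p) (Sum.inl (m, t)) = 0) :
    ZeroPair Θ r (some m) := by
  rw [ZeroPair] at h ⊢
  ext p (q | q)
  · have := congrFun (congrFun h p) (Sum.inl q)
    rw [bord_inl'] at this
    rw [bord_inl', this]; try rfl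
  · rw [bord_inr', ← ext_col Θ r s m q p, hm]; try rfl

/-- conversely a zero pair `(m, s)` kills the block row `m` of the extended data -/
theorem row_of_zeroPair (Θ : Matrix ((V × Fin 2) ⊕ α) ((V × Fin 2) ⊕ β) F) {r s : Option V}
    (m : V) (h : ZeroPair Θ (some m) s) (t : Fin 2) (q : β ⊕ Fin 2) :
    ext Θ r s (Sum.inl (m, t)) (Sum.inr q) = 0 := by
  rw [ext_row, ← bord_inr]
  exact congrFun (congrFun h (Sum.inr t)) q

theorem col_of_zeroPair (Θ : Matrix ((V × Fin 2) ⊕ α) ((V × Fin 2) ⊕ β) F) {r s : Option V}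
    (m : V) (h : ZeroPair Θ r (some m)) (p : α ⊕ Fin 2) (t : Fin 2) :
    ext Θ r s (Sum.inr p) (Sum.inl (m, t)) = 0 := by
  rw [ext_col, ← bord_inr']
  exact congrFun (congrFun h p) (Sum.inr t)

end Pool.Agent.H18.R2
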