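import Pool.Agent.H18.R2.Num
import Pool.Agent.H18.R2.Tr

/-!
# Critical sets (module Crit)

(2) `zeroPair_local`: local optimality with `r2 = s2 = none`: the bordered rank of a zero pair is
    `0` at the base (the extra rows `selR none` and columns `selC none` are zero), hence `0` at
    every regular `x` supported on at most five coordinates, so `bord (shift Θ x) (selR r)
    (selC s)` (a submatrix) is `0` (`Matrix.rank_eq_zero`-type argument: a matrix of rank `0`
    over a field is `0`).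
`Crit Θ r s U`: `U` is a smallest set on which some zero pair fails.
`exists_crit`: well-founded minimum of the cardinality (`Nat.find`).
`crit_card`: by (2), `U` has at least six elements.
`crit_row`: if the block row `m` of `ext Θ r s` vanishes on the border columns then `(m, s)` is a
    zero pair (`zeroPair_of_row`), so by minimality the block row `m` of `ext (shift Θ x') r s`
    vanishes on the border for regular `x'` supported on `U.erase m`, and so does the corner.
    By `exists_common_supp` (polynomial functions: a nonzero numerator of the corner entry,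
    `den Θ x`, `den Θ (update x m 0)`) there is a regular `x` on `U` with a nonzero corner entry
    of `ext (shift Θ x) r s` and `x' = update x m 0` regular; `x = bump x' m (x m)` and
    `star_right` for `ext Θ r s` gives corner entry = 0 + t * ∑ (..) * 0 = 0, contradiction.
`crit_col`: the same with `star_left`.
-/

namespace Pool.Agent.H18.R2

open Matrix

variable {F : Type*} [Field F] {V : Type*} [Fintype V] [DecidableEq V]
variable {α β : Type*} [Fintype α] [Fintype β] [DecidableEq α] [DecidableEq β]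

/-- a matrix of rank `0` over a field is `0` -/
private theorem crit_eq_zero_of_rank {m n : Type*} [Fintype m] [Fintype n] [DecidableEq n]
    (M : Matrix m n F) (h : M.rank = 0) : M = 0 := by
  rw [Matrix.rank, Submodule.finrank_eq_zero, LinearMap.range_eq_bot] at h
  ext i j
  have h1 := congrFun (LinearMap.congr_fun h (Pi.single j 1)) i
  simpa using h1

omit [DecidableEq V] in
/-- bordering by a larger block and restricting -/
private theorem crit_bord_sub {ρ γ ρ' γ' : Type*}
    (Θ : Matrix ((V × Fin 2) ⊕ α) ((V × Fin 2) ⊕ β) F)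
    (R : Matrix ρ (V × Fin 2) F) (R' : Matrix ρ' (V × Fin 2) F)
    (C : Matrix (V × Fin 2) γ F) (C' : Matrix (V × Fin 2) γ' F) :
    (bord Θ (Matrix.fromRows R R') (Matrix.fromCols C C')).submatrix (Sum.map id Sum.inl)
      (Sum.map id Sum.inl) = bord Θ R C := by
  have h1 : (hatR (Matrix.fromRows R R') :
      Matrix (α ⊕ (ρ ⊕ ρ')) ((V × Fin 2) ⊕ α) F).submatrix (Sum.map id Sum.inl) id = hatR R := by
    ext p q
    rcases p with p | p <;> rcases q with q | q <;> rfl
  have h2 : (hatC (Matrix.fromCols C C') :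
      Matrix ((V × Fin 2) ⊕ β) (β ⊕ (γ ⊕ γ')) F).submatrix id (Sum.map id Sum.inl) = hatC C := by
    ext p q
    rcases p with p | p <;> rcases q with q | q <;> rfl
  unfold bord
  rw [← h1, ← h2]
  ext p q
  rfl

omit [DecidableEq V] in
/-- bordering by zero blocks keeps the zero matrix -/
private theorem crit_bord_zero {ρ γ ρ' γ' : Type*} [Fintype ρ] [Fintype γ] [DecidableEq ρ]
    [DecidableEq γ] (Θ : Matrix ((V × Fin 2) ⊕ α) ((V × Fin 2) ⊕ β) F)
    (R : Matrix ρ (V × Fin 2) F) (C : Matrix (V × Fin 2) γ F) (h : bord Θ R C = 0) :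
    bord Θ (Matrix.fromRows R (0 : Matrix ρ' (V × Fin 2) F))
      (Matrix.fromCols C (0 : Matrix (V × Fin 2) γ' F)) = 0 := by
  have h1 : (hatR (Matrix.fromRows R (0 : Matrix ρ' (V × Fin 2) F)) :
      Matrix (α ⊕ (ρ ⊕ ρ')) ((V × Fin 2) ⊕ α) F) =
      (Matrix.fromBlocks 1 0 0 (Matrix.fromRows 1 0) : Matrix (α ⊕ (ρ ⊕ ρ')) (α ⊕ ρ) F) *
        (hatR R : Matrix (α ⊕ ρ) ((V × Fin 2) ⊕ α) F) := by
    unfold hatR
    rw [Matrix.fromBlocks_multiply]
    simp [Matrix.fromRows_mul]
  have h2 : (hatC (Matrix.fromCols C (0 : Matrix (V × Fin 2) γ' F)) :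
      Matrix ((V × Fin 2) ⊕ β) (β ⊕ (γ ⊕ γ')) F) =
      (hatC C : Matrix ((V × Fin 2) ⊕ β) (β ⊕ γ) F) *
      (Matrix.fromBlocks 1 0 0 (Matrix.fromCols 1 0) : Matrix (β ⊕ γ) (β ⊕ (γ ⊕ γ')) F) := by
    unfold hatC
    rw [Matrix.fromBlocks_multiply]
    simp [Matrix.mul_fromCols]
  unfold bord at h ⊢
  rw [h1, h2, ← Matrix.mul_assoc, Matrix.mul_assoc _ (hatR R) Θ, Matrix.mul_assoc _ (hatR R * Θ),
    h]
  simp

theorem zeroPair_local {Θ : Matrix ((V × Fin 2) ⊕ α) ((V × Fin 2) ⊕ β) F} (hloc : LocOpt Θ)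
    {r s : Option V} (h : ZeroPair Θ r s) {S : Finset V} (hS : S.card ≤ 5) {x : V → F}
    (hx : SuppIn x S) (hr : Reg (TT Θ) x) : ZeroPair (shift Θ x) r s := by
  have h0 : brank Θ r none s none = 0 := by
    unfold brank
    have h1 : bord Θ (Matrix.fromRows (selR r) (selR none))
        (Matrix.fromCols (selC s) (selC none)) = 0 := crit_bord_zero Θ _ _ h
    rw [h1, Matrix.rank_zero]
  have h2 := hloc S x hS hx hr r none s none
  rw [h0] at h2
  have h3 := crit_eq_zero_of_rank _ (Nat.le_zero.mp h2)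
  unfold ZeroPair
  rw [← crit_bord_sub (shift Θ x) (selR r) (selR none) (selC s) (selC none), h3]
  rfl

/-- `U` is a smallest set on which a zero pair fails -/
structure Crit (Θ : Matrix ((V × Fin 2) ⊕ α) ((V × Fin 2) ⊕ β) F) (r s : Option V)
    (U : Finset V) : Prop where
  zero : ZeroPair Θ r s
  small : ∀ r' s', ZeroPair Θ r' s' → ∀ S : Finset V, S.card < U.card →
    ∀ x, SuppIn x S → Reg (TT Θ) x → ZeroPair (shift Θ x) r' s'
  bad : ∃ x, SuppIn x U ∧ Reg (TT Θ) x ∧ ¬ ZeroPair (shift Θ x) r s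

theorem exists_crit {Θ : Matrix ((V × Fin 2) ⊕ α) ((V × Fin 2) ⊕ β) F} {r s : Option V}
    (h : ZeroPair Θ r s) {x : V → F} (hx : Reg (TT Θ) x) (hb : ¬ ZeroPair (shift Θ x) r s) :
    ∃ r' s' U, Crit Θ r' s' U := by
  classical
  let P : ℕ → Prop := fun n => ∃ (r' s' : Option V) (S : Finset V), S.card = n ∧
    ZeroPair Θ r' s' ∧ ∃ y, SuppIn y S ∧ Reg (TT Θ) y ∧ ¬ ZeroPair (shift Θ y) r' s'
  have hP : ∃ n, P n := ⟨_, r, s, Finset.univ, rfl, h, x,
    fun i hi => absurd (Finset.mem_univ i) hi, hx, hb⟩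
  obtain ⟨r', s', U, hU, hz, hbad⟩ := Nat.find_spec hP
  refine ⟨r', s', U, hz, ?_, hbad⟩
  intro r'' s'' hz'' S hS y hy hyr
  by_contra hc
  rw [hU] at hS
  exact Nat.find_min hP hS ⟨r'', s'', S, rfl, hz'', y, hy, hyr, hc⟩

theorem crit_card {Θ : Matrix ((V × Fin 2) ⊕ α) ((V × Fin 2) ⊕ β) F} (hloc : LocOpt Θ)
    {r s : Option V} {U : Finset V} (h : Crit Θ r s U) : 6 ≤ U.card := by
  by_contra hc
  obtain ⟨x, hx, hr, hb⟩ := h.bad
  exact hb (zeroPair_local hloc h.zero (by omega) hx hr)

/-- the generic point of `crit_row`, `crit_col` -/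
private theorem crit_point [Infinite F] {Θ : Matrix ((V × Fin 2) ⊕ α) ((V × Fin 2) ⊕ β) F}
    {r s : Option V} {U : Finset V} (h : Crit Θ r s U) (m : V) :
    ∃ (x : V → F) (p : α ⊕ Fin 2) (q : β ⊕ Fin 2), SuppIn x U ∧ Reg (TT Θ) x ∧
      Reg (TT Θ) (Function.update x m 0) ∧
      shift (ext Θ r s) x (Sum.inr p) (Sum.inr q) ≠ 0 := by
  obtain ⟨x0, hx0U, hx0R, hx0B⟩ := h.bad
  have hex : ∃ p q, bord (shift Θ x0) (selR r) (selC s) p q ≠ 0 := by
    by_contra hc
    push Not at hc
    exact hx0B (Matrix.ext hc)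
  obtain ⟨p, q, hpq⟩ := hex
  have hpq' : shift (ext Θ r s) x0 (Sum.inr p) (Sum.inr q) ≠ 0 := by
    rw [shift_ext]
    have h1 := congrFun (congrFun (ext_corner (shift Θ x0) r s) p) q
    rw [Matrix.toBlocks₂₂, Matrix.of_apply] at h1
    rw [h1]
    exact hpq
  have hreg : ∀ y : V → F, Reg (TT (ext Θ r s)) y ↔ Reg (TT Θ) y := by
    intro y
    rw [TT_ext]
  let f : Fin 3 → (V → F) → F := ![fun x => num (ext Θ r s) x (Sum.inr p) (Sum.inr q),
    den Θ, fun x => den Θ (Function.update x m 0)]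
  have hf : ∀ i, PolyFun (f i) := by
    intro i
    fin_cases i
    · exact polyFun_num (ext Θ r s) (Sum.inr p) (Sum.inr q)
    · exact polyFun_den Θ
    · exact PolyFun.update_zero (polyFun_den Θ) m
  have hne : ∀ i ∈ (Finset.univ : Finset (Fin 3)), ∃ x, SuppIn x U ∧ f i x ≠ 0 := by
    intro i _
    fin_cases i
    · refine ⟨x0, hx0U, ?_⟩
      change num (ext Θ r s) x0 (Sum.inr p) (Sum.inr q) ≠ 0
      rw [num_eq (ext Θ r s) ((hreg x0).2 hx0R)]
      exact mul_ne_zero ((den_ne_zero_iff _ _).2 ((hreg x0).2 hx0R)) hpq'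
    · refine ⟨0, fun _ _ => rfl, ?_⟩
      change den Θ 0 ≠ 0
      rw [den_zero]
      exact one_ne_zero
    · refine ⟨0, fun _ _ => rfl, ?_⟩
      change den Θ (Function.update (0 : V → F) m 0) ≠ 0
      have h2 : Function.update (0 : V → F) m 0 = 0 := by
        have := Function.update_eq_self m (0 : V → F)
        rwa [Pi.zero_apply] at this
      rw [h2, den_zero]
      exact one_ne_zero
  obtain ⟨x, hxU, hx⟩ := exists_common_supp Finset.univ U hf hne
  have hx0 : num (ext Θ r s) x (Sum.inr p) (Sum.inr q) ≠ 0 := hx 0 (Finset.mem_univ _)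
  have hx1 : den Θ x ≠ 0 := hx 1 (Finset.mem_univ _)
  have hx2 : den Θ (Function.update x m 0) ≠ 0 := hx 2 (Finset.mem_univ _)
  refine ⟨x, p, q, hxU, (den_ne_zero_iff _ _).1 hx1, (den_ne_zero_iff _ _).1 hx2, ?_⟩
  rw [num_eq (ext Θ r s) ((hreg x).2 ((den_ne_zero_iff _ _).1 hx1))] at hx0
  exact right_ne_zero_of_mul hx0

/-- at the point with the `m`-th coordinate removed the corner vanishes -/
private theorem crit_corner {Θ : Matrix ((V × Fin 2) ⊕ α) ((V × Fin 2) ⊕ β) F}
    {r s : Option V} {U : Finset V} (h : Crit Θ r s U) {m : V} (hm : m ∈ U) {x : V → F}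
    (hx : SuppIn x U) (hr : Reg (TT Θ) (Function.update x m 0)) {r' s' : Option V}
    (hz : ZeroPair Θ r' s') : ZeroPair (shift Θ (Function.update x m 0)) r' s' := by
  refine h.small r' s' hz (U.erase m) (Finset.card_erase_lt_of_mem hm) _ ?_ hr
  intro i hi
  by_cases him : i = m
  · subst him
    exact Function.update_self _ _ _
  · rw [Function.update_of_ne him]
    exact hx i fun hiU => hi (Finset.mem_erase.2 ⟨him, hiU⟩)

omit [Fintype V] in
private theorem crit_bump (x : V → F) (m : V) :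
    bump (Function.update x m 0) m (x m) = x := by
  unfold bump
  rw [Function.update_self, zero_add, Function.update_idem, Function.update_eq_self]

theorem crit_row [Infinite F] {Θ : Matrix ((V × Fin 2) ⊕ α) ((V × Fin 2) ⊕ β) F}
    {r s : Option V} {U : Finset V} (h : Crit Θ r s U) {m : V} (hm : m ∈ U) :
    ∃ t q, ext Θ r s (Sum.inl (m, t)) (Sum.inr q) ≠ 0 := by
  by_contra hc
  push Not at hc
  obtain ⟨x, p, q, hxU, hxR, hxR', hne⟩ := crit_point h m
  have hz1 := crit_corner h hm hxU hxR' (zeroPair_of_row Θ h.zero m hc)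
  have hz2 := crit_corner h hm hxU hxR' h.zero
  have hreg : ∀ y : V → F, Reg (TT (ext Θ r s)) y ↔ Reg (TT Θ) y := by
    intro y
    rw [TT_ext]
  have hstar := star_right (ext Θ r s) (x := Function.update x m 0) (m := m) (t := x m)
    ((hreg _).2 hxR') ((hreg _).2 (by rw [crit_bump]; exact hxR)) (Sum.inr p) (Sum.inr q)
  rw [crit_bump] at hstar
  have hcor : shift (ext Θ r s) (Function.update x m 0) (Sum.inr p) (Sum.inr q) = 0 := by
    rw [shift_ext]
    have h1 := congrFun (congrFun (ext_corner (shift Θ (Function.update x m 0)) r s) p) q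
    rw [Matrix.toBlocks₂₂, Matrix.of_apply] at h1
    rw [h1]
    exact congrFun (congrFun hz2 p) q
  apply hne
  rw [hstar, hcor, zero_add, Finset.sum_eq_zero, mul_zero]
  intro t _
  rw [shift_ext Θ r s (Function.update x m 0),
    row_of_zeroPair (shift Θ (Function.update x m 0)) m hz1 t q, mul_zero]

theorem crit_col [Infinite F] {Θ : Matrix ((V × Fin 2) ⊕ α) ((V × Fin 2) ⊕ β) F}
    {r s : Option V} {U : Finset V} (h : Crit Θ r s U) {m : V} (hm : m ∈ U) :
    ∃ p t, ext Θ r s (Sum.inr p) (Sum.inl (m, t)) ≠ 0 := by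
  by_contra hc
  push Not at hc
  obtain ⟨x, p, q, hxU, hxR, hxR', hne⟩ := crit_point h m
  have hz1 := crit_corner h hm hxU hxR' (zeroPair_of_col Θ h.zero m hc)
  have hz2 := crit_corner h hm hxU hxR' h.zero
  have hreg : ∀ y : V → F, Reg (TT (ext Θ r s)) y ↔ Reg (TT Θ) y := by
    intro y
    rw [TT_ext]
  have hstar := star_left (ext Θ r s) (x := Function.update x m 0) (m := m) (t := x m)
    ((hreg _).2 hxR') ((hreg _).2 (by rw [crit_bump]; exact hxR)) (Sum.inr p) (Sum.inr q)
  rw [crit_bump] at hstar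
  have hcor : shift (ext Θ r s) (Function.update x m 0) (Sum.inr p) (Sum.inr q) = 0 := by
    rw [shift_ext]
    have h1 := congrFun (congrFun (ext_corner (shift Θ (Function.update x m 0)) r s) p) q
    rw [Matrix.toBlocks₂₂, Matrix.of_apply] at h1
    rw [h1]
    exact congrFun (congrFun hz2 p) q
  apply hne
  rw [hstar, hcor, zero_add, Finset.sum_eq_zero, mul_zero]
  intro t _
  rw [shift_ext Θ r s (Function.update x m 0),
    col_of_zeroPair (shift Θ (Function.update x m 0)) m hz1 p t, zero_mul]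

end Pool.Agent.H18.R2
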