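import Mathlib

/-!
# Rank at most 2 coefficient matrices: local optimum = global optimum.  Definitions.

Paper: /team-store/h18_rank2_local_search.md (Theorem L, on top of Theorem 1 of h50_rank2_paper.md).

`Θ` is the data at a base point: the block matrix `[[T, μ], [ν, H₀]]` with rows `(V × Fin 2) ⊕ α`
and columns `(V × Fin 2) ⊕ β`.  `shift Θ x` is the data at the point `x`: its blocks are
`T^x, k(x), l(x), H(x)`.
-/

namespace Pool.Agent.H18.R2

open Matrix

variable {F : Type*} [Field F] {V : Type*} [Fintype V] [DecidableEq V]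
variable {α β γ ρ : Type*}

/-- the block scalar matrix `diag (x i • 1₂)` -/
def X (x : V → F) : Matrix (V × Fin 2) (V × Fin 2) F := Matrix.diagonal fun p => x p.1

/-- `x` is supported on `S` -/
def SuppIn (x : V → F) (S : Finset V) : Prop := ∀ i, i ∉ S → x i = 0

/-- `x` is regular for `T` -/
def Reg (T : Matrix (V × Fin 2) (V × Fin 2) F) (x : V → F) : Prop := (1 - T * X x).det ≠ 0

/-- the corner `T` of the data -/
def TT (Θ : Matrix ((V × Fin 2) ⊕ α) ((V × Fin 2) ⊕ β) F) :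
    Matrix (V × Fin 2) (V × Fin 2) F := Θ.submatrix Sum.inl Sum.inl

/-- the `V`-columns of the data -/
def cols (Θ : Matrix ((V × Fin 2) ⊕ α) ((V × Fin 2) ⊕ β) F) :
    Matrix ((V × Fin 2) ⊕ α) (V × Fin 2) F := Θ.submatrix id Sum.inl

/-- the `V`-rows of the data -/
def rows (Θ : Matrix ((V × Fin 2) ⊕ α) ((V × Fin 2) ⊕ β) F) :
    Matrix (V × Fin 2) ((V × Fin 2) ⊕ β) F := Θ.submatrix Sum.inl id

/-- the data at the point `x` -/
noncomputable def shift (Θ : Matrix ((V × Fin 2) ⊕ α) ((V × Fin 2) ⊕ β) F) (x : V → F) :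
    Matrix ((V × Fin 2) ⊕ α) ((V × Fin 2) ⊕ β) F :=
  Θ + cols Θ * X x * (1 - TT Θ * X x)⁻¹ * rows Θ

/-- block row selection: `none` gives zero rows -/
def selR : Option V → Matrix (Fin 2) (V × Fin 2) F
  | none => 0
  | some i => Matrix.of fun t p => if p = (i, t) then 1 else 0

/-- block column selection: `none` gives zero columns -/
def selC : Option V → Matrix (V × Fin 2) (Fin 2) F
  | none => 0
  | some i => Matrix.of fun p t => if p = (i, t) then 1 else 0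

/-- the rows of `α` together with the rows `R` of the `V`-part -/
def hatR [DecidableEq α] (R : Matrix ρ (V × Fin 2) F) :
    Matrix (α ⊕ ρ) ((V × Fin 2) ⊕ α) F := Matrix.fromBlocks 0 1 R 0

/-- the columns of `β` together with the columns `C` of the `V`-part -/
def hatC [DecidableEq β] (C : Matrix (V × Fin 2) γ F) :
    Matrix ((V × Fin 2) ⊕ β) (β ⊕ γ) F := Matrix.fromBlocks 0 C 1 0

variable [Fintype α] [Fintype β] [DecidableEq α] [DecidableEq β]

/-- the bordered data `[[H, l C], [R k, R T C]]` -/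
def bord (Θ : Matrix ((V × Fin 2) ⊕ α) ((V × Fin 2) ⊕ β) F)
    (R : Matrix ρ (V × Fin 2) F) (C : Matrix (V × Fin 2) γ F) : Matrix (α ⊕ ρ) (β ⊕ γ) F :=
  (hatR R : Matrix (α ⊕ ρ) ((V × Fin 2) ⊕ α) F) * Θ *
    (hatC C : Matrix ((V × Fin 2) ⊕ β) (β ⊕ γ) F)

/-- `(r, s)` is a zero pair: `H = 0`, `k_r = 0`, `l_s = 0`, `T_rs = 0` -/
def ZeroPair (Θ : Matrix ((V × Fin 2) ⊕ α) ((V × Fin 2) ⊕ β) F) (r s : Option V) : Prop :=
  bord Θ (selR r) (selC s) = 0

/-- rank of the data bordered by two row blocks and two column blocks -/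
noncomputable def brank (Θ : Matrix ((V × Fin 2) ⊕ α) ((V × Fin 2) ⊕ β) F)
    (r1 r2 s1 s2 : Option V) : ℕ :=
  (bord Θ (Matrix.fromRows (selR r1) (selR r2)) (Matrix.fromCols (selC s1) (selC s2))).rank

/-- local optimality for changes of at most five coordinates -/
def LocOpt (Θ : Matrix ((V × Fin 2) ⊕ α) ((V × Fin 2) ⊕ β) F) : Prop :=
  ∀ (S : Finset V) (x : V → F), S.card ≤ 5 → SuppIn x S → Reg (TT Θ) x →
    ∀ r1 r2 s1 s2 : Option V, brank (shift Θ x) r1 r2 s1 s2 ≤ brank Θ r1 r2 s1 s2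

/-! ### Scalar instances (`α = β = Unit`) -/

/-- `k_i(x)` for a scalar instance -/
noncomputable def kv (Θ : Matrix ((V × Fin 2) ⊕ Unit) ((V × Fin 2) ⊕ Unit) F) (i : V) :
    Fin 2 → F := fun t => Θ (Sum.inl (i, t)) (Sum.inr ())

/-- `l_i(x)` for a scalar instance -/
noncomputable def lv (Θ : Matrix ((V × Fin 2) ⊕ Unit) ((V × Fin 2) ⊕ Unit) F) (i : V) :
    Fin 2 → F := fun t => Θ (Sum.inr ()) (Sum.inl (i, t))

/-- `S` is odd: `h(x) = 0` for all regular `x` supported on `S` -/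
def OddOn (Θ : Matrix ((V × Fin 2) ⊕ Unit) ((V × Fin 2) ⊕ Unit) F) (S : Finset V) : Prop :=
  ∀ x : V → F, SuppIn x S → Reg (TT Θ) x → shift Θ x (Sum.inr ()) (Sum.inr ()) = 0

/-- `τ_ij = ν_i T_ij μ_j` -/
noncomputable def tau (Θ : Matrix ((V × Fin 2) ⊕ Unit) ((V × Fin 2) ⊕ Unit) F) (i j : V) : F :=
  ∑ s : Fin 2, ∑ t : Fin 2, lv Θ i s * Θ (Sum.inl (i, s)) (Sum.inl (j, t)) * kv Θ j t

/-- `S` is genuine -/
def GenuineOn (Θ : Matrix ((V × Fin 2) ⊕ Unit) ((V × Fin 2) ⊕ Unit) F) (S : Finset V) : Prop :=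
  ∀ i ∈ S, ∀ j ∈ S, i ≠ j → tau Θ i j = 0 → ∀ x y : V → F, SuppIn x S → SuppIn y S →
    Reg (TT Θ) x → Reg (TT Θ) y → (∀ l, l ≠ j → x l = y l) →
    kv (shift Θ x) i 0 * kv (shift Θ y) i 1 = kv (shift Θ x) i 1 * kv (shift Θ y) i 0

/-! ### The symbolic matrix -/

variable {m n : Type*} [Fintype m] [Fintype n] [DecidableEq m] [DecidableEq n]

/-- `B + ∑ xᵢ Aᵢ` -/
def lin (B : Matrix m n F) (A : V → Matrix m n F) (x : V → F) : Matrix m n F :=
  B + ∑ i, x i • A i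

/-- `A` extended by the zero matrix -/
def opt (A : V → Matrix m n F) : Option V → Matrix m n F
  | none => 0
  | some i => A i

/-- `[[M, A_s1, A_s2], [A_r1, 0, 0], [A_r2, 0, 0]]` -/
def big (M : Matrix m n F) (A : V → Matrix m n F) (r1 r2 s1 s2 : Option V) :
    Matrix (m ⊕ (m ⊕ m)) (n ⊕ (n ⊕ n)) F :=
  Matrix.fromBlocks M (Matrix.fromCols (opt A s1) (opt A s2))
    (Matrix.fromRows (opt A r1) (opt A r2)) 0

end Pool.Agent.H18.R2
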