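import Pool.Agent.H18.R2.Defs

/-!
# Polynomial functions on `F^σ` and generic points (module Gen)

`PolyFun f`: `f : (σ → F) → F` is the evaluation of a multivariate polynomial.
Everything is elementary closure (`MvPolynomial`), plus the generic point lemma `exists_common`:
finitely many polynomial functions, each nonzero somewhere, are all nonzero at a common point
(`F` infinite): the product of the polynomials is nonzero (no zero divisors), and a nonzero
polynomial over an infinite field is nonzero at some point (`MvPolynomial.funext`).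

`exists_common_supp`: the same on the coordinate subspace `SuppIn x S`: compose with the
restriction `x ↦ (fun i => if i ∈ S then x i else 0)` (`PolyFun.comp`).
-/

namespace Pool.Agent.H18.R2

open Matrix

variable {F : Type*} [Field F] {σ τ : Type*}

/-- polynomial functions -/
def PolyFun (f : (σ → F) → F) : Prop := ∃ p : MvPolynomial σ F, ∀ x, f x = MvPolynomial.eval x p

theorem PolyFun.const (c : F) : PolyFun (fun _ : σ → F => c) :=
  ⟨MvPolynomial.C c, fun _ => (MvPolynomial.eval_C c).symm⟩

theorem PolyFun.coord (i : σ) : PolyFun (fun x : σ → F => x i) :=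
  ⟨MvPolynomial.X i, fun _ => (MvPolynomial.eval_X i).symm⟩

theorem PolyFun.add {f g : (σ → F) → F} (hf : PolyFun f) (hg : PolyFun g) :
    PolyFun (fun x => f x + g x) := by
  obtain ⟨p, hp⟩ := hf
  obtain ⟨q, hq⟩ := hg
  exact ⟨p + q, fun x => by beta_reduce; rw [map_add, hp, hq]⟩

theorem PolyFun.mul {f g : (σ → F) → F} (hf : PolyFun f) (hg : PolyFun g) :
    PolyFun (fun x => f x * g x) := by
  obtain ⟨p, hp⟩ := hf
  obtain ⟨q, hq⟩ := hg
  exact ⟨p * q, fun x => by beta_reduce; rw [map_mul, hp, hq]⟩

theorem PolyFun.neg {f : (σ → F) → F} (hf : PolyFun f) : PolyFun (fun x => - f x) := by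
  obtain ⟨p, hp⟩ := hf
  exact ⟨-p, fun x => by beta_reduce; rw [map_neg, hp]⟩

theorem PolyFun.sub {f g : (σ → F) → F} (hf : PolyFun f) (hg : PolyFun g) :
    PolyFun (fun x => f x - g x) := by
  obtain ⟨p, hp⟩ := hf
  obtain ⟨q, hq⟩ := hg
  exact ⟨p - q, fun x => by beta_reduce; rw [map_sub, hp, hq]⟩

theorem PolyFun.sum {ι : Type*} (s : Finset ι) {f : ι → (σ → F) → F} (hf : ∀ i, PolyFun (f i)) :
    PolyFun (fun x => ∑ i ∈ s, f i x) := by
  choose p hp using hf
  refine ⟨∑ i ∈ s, p i, fun x => ?_⟩
  rw [map_sum]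
  exact Finset.sum_congr rfl fun i _ => hp i x

theorem PolyFun.prod {ι : Type*} (s : Finset ι) {f : ι → (σ → F) → F} (hf : ∀ i, PolyFun (f i)) :
    PolyFun (fun x => ∏ i ∈ s, f i x) := by
  choose p hp using hf
  refine ⟨∏ i ∈ s, p i, fun x => ?_⟩
  rw [map_prod]
  exact Finset.prod_congr rfl fun i _ => hp i x

/-- composition with polynomial maps -/
theorem PolyFun.comp {f : (σ → F) → F} (hf : PolyFun f) {g : σ → (τ → F) → F}
    (hg : ∀ i, PolyFun (g i)) : PolyFun (fun y => f (fun i => g i y)) := by
  obtain ⟨p, hp⟩ := hf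
  choose q hq using hg
  refine ⟨MvPolynomial.bind₁ q p, fun y => ?_⟩
  beta_reduce
  rw [hp]
  have h : ((MvPolynomial.eval y).comp (MvPolynomial.bind₁ q).toRingHom) =
      MvPolynomial.eval (fun i => g i y) := by
    apply MvPolynomial.ringHom_ext
    · intro c
      simp
    · intro i
      simp [hq i y]
  exact (congrArg (fun φ : MvPolynomial σ F →+* F => φ p) h).symm

theorem PolyFun.det {n : Type*} [Fintype n] [DecidableEq n] {M : (σ → F) → Matrix n n F}
    (hM : ∀ i j, PolyFun (fun x => M x i j)) : PolyFun (fun x => (M x).det) := by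
  simp only [Matrix.det_apply']
  exact PolyFun.sum _ fun s => (PolyFun.const _).mul (PolyFun.prod _ fun i => hM (s i) i)

theorem PolyFun.adjugate {n : Type*} [Fintype n] [DecidableEq n] {M : (σ → F) → Matrix n n F}
    (hM : ∀ i j, PolyFun (fun x => M x i j)) (i j : n) :
    PolyFun (fun x => (M x).adjugate i j) := by
  simp only [Matrix.adjugate_apply]
  refine PolyFun.det fun a b => ?_
  by_cases ha : a = j
  · subst ha
    simp only [Matrix.updateRow_self]
    exact PolyFun.const _
  · simp only [Matrix.updateRow_ne ha]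
    exact hM a b

theorem PolyFun.matMul {l m n : Type*} [Fintype m] {M : (σ → F) → Matrix l m F}
    {N : (σ → F) → Matrix m n F} (hM : ∀ i j, PolyFun (fun x => M x i j))
    (hN : ∀ i j, PolyFun (fun x => N x i j)) (i : l) (j : n) :
    PolyFun (fun x => (M x * N x) i j) := by
  simp only [Matrix.mul_apply]
  exact PolyFun.sum _ fun k => (hM i k).mul (hN k j)

/-- generic points -/
theorem exists_common [Infinite F] {ι : Type*} (s : Finset ι) {f : ι → (σ → F) → F}
    (hf : ∀ i, PolyFun (f i)) (h : ∀ i ∈ s, ∃ x, f i x ≠ 0) : ∃ x, ∀ i ∈ s, f i x ≠ 0 := by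
  choose p hp using hf
  have h0 : ∏ i ∈ s, p i ≠ 0 := by
    rw [Finset.prod_ne_zero_iff]
    intro i hi h1
    obtain ⟨x, hx⟩ := h i hi
    apply hx
    rw [hp, h1, map_zero]
  have h1 : ∃ x, MvPolynomial.eval x (∏ i ∈ s, p i) ≠ 0 := by
    by_contra hcon
    push Not at hcon
    apply h0
    apply MvPolynomial.funext
    intro x
    rw [hcon x, map_zero]
  obtain ⟨x, hx⟩ := h1
  rw [map_prod, Finset.prod_ne_zero_iff] at hx
  exact ⟨x, fun i hi => by rw [hp]; exact hx i hi⟩

/-- generic points of a coordinate subspace -/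
theorem exists_common_supp [Infinite F] {V : Type*} [DecidableEq V] {ι : Type*} (s : Finset ι)
    (S : Finset V) {f : ι → (V → F) → F} (hf : ∀ i, PolyFun (f i))
    (h : ∀ i ∈ s, ∃ x, SuppIn x S ∧ f i x ≠ 0) : ∃ x, SuppIn x S ∧ ∀ i ∈ s, f i x ≠ 0 := by
  have hres : ∀ j : V, PolyFun (fun x : V → F => if j ∈ S then x j else 0) := by
    intro j
    by_cases hj : j ∈ S
    · simp only [if_pos hj]
      exact PolyFun.coord j
    · simp only [if_neg hj]
      exact PolyFun.const 0
  obtain ⟨x, hx⟩ := exists_common s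
    (f := fun i (x : V → F) => f i (fun j => if j ∈ S then x j else 0))
    (fun i => PolyFun.comp (hf i) hres) (by
      intro i hi
      obtain ⟨x, hxS, hx⟩ := h i hi
      refine ⟨x, ?_⟩
      have : (fun j => if j ∈ S then x j else 0) = x := by
        funext j
        by_cases hj : j ∈ S
        · rw [if_pos hj]
        · rw [if_neg hj, hxS j hj]
      rw [this]
      exact hx)
  exact ⟨fun j => if j ∈ S then x j else 0, fun j hj => if_neg hj, hx⟩

end Pool.Agent.H18.R2
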