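import Pool.Agent.H18.R2.Defs

/-!
# Rank of `[[0, l], [k, T]]` (module RankCorner; pure linear algebra)

`l : α x 2`, `k : 2 x β`, `T : 2 x 2`, both `l, k` nonzero, `a k = 0` for a nonzero row vector `a`,
`l b = 0` for a nonzero column vector `b`.  Then `rank k = rank l = 1`, the column space of `k` is
the kernel of `a` (a line), the kernel of `l` is the line through `b`, and
   `rank [[0, l], [k, T]] = 2 + [a T b ≠ 0]`.
`rank_ge_three`: choose `q` with `k_q ≠ 0` (column) and `p` with `l_p ≠ 0` (row).  The 3 x 3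
   submatrix with rows `p, 0, 1` and columns `q, 0, 1` is `[[0, l_p0, l_p1],[k_0q, T00, T01],
   [k_1q, T10, T11]]`; with `l_p = c (−b_1, b_0)`, `k_q = d (−a_1, a_0)^T` (`c, d ≠ 0`) its
   determinant is `± c d (a T b)`, so it is nonzero and the rank is at least 3
   (`rank_submatrix_le`, `rank_of_isUnit` / `rank_of_det_ne_zero`).
`rank_le_two`: if `a T b = 0`, then `T b` is in the kernel of `a`, which is the line through `k_q`.
   All columns of the matrix lie in the span of the two columns `(0, k_q)` and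
   `(l e, T e)`, where `e` is a vector with `l_p e ≠ 0` (`e, b` is a basis of `F²`): the column
   `(0, k_q')` is a multiple of `(0, k_q)`; the column `(l v, T v)` with `v = λ e + μ b` is
   `λ (l e, T e) + μ (0, T b)`.  (`Matrix.rank_eq_finrank_span_cols`, `finrank_span_le_card`.)
-/

namespace Pool.Agent.H18.R2

open Matrix

variable {F : Type*} [Field F]
variable {α β : Type*} [Fintype α] [Fintype β] [DecidableEq α] [DecidableEq β]

omit [Fintype α] [Fintype β] [DecidableEq α] [DecidableEq β] in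
private theorem rc_line {a u : Fin 2 → F} (ha : a ≠ 0) (h : a 0 * u 0 + a 1 * u 1 = 0) :
    ∃ d, u 0 = -(d * a 1) ∧ u 1 = d * a 0 := by
  by_cases h0 : a 0 = 0
  · have h1 : a 1 ≠ 0 := by
      intro h1
      apply ha
      funext i
      fin_cases i
      · exact h0
      · exact h1
    have h2 : u 1 = 0 := by
      rw [h0, zero_mul, zero_add] at h
      exact (mul_eq_zero.mp h).resolve_left h1
    refine ⟨-(u 0 / a 1), ?_, ?_⟩
    · field_simp
    · rw [h0, h2, mul_zero]
  · refine ⟨u 1 / a 0, ?_, ?_⟩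
    · field_simp
      linear_combination h
    · field_simp

theorem rank_ge_three (l : Matrix α (Fin 2) F) (k : Matrix (Fin 2) β F)
    (T : Matrix (Fin 2) (Fin 2) F) (a b : Fin 2 → F) (ha : ∀ q, ∑ s, a s * k s q = 0)
    (hb : ∀ p, ∑ t, l p t * b t = 0) (hl : l ≠ 0) (hk : k ≠ 0)
    (hT : ∑ s, ∑ t, a s * T s t * b t ≠ 0) :
    3 ≤ (Matrix.fromBlocks (0 : Matrix α β F) l k T).rank := by
  have hb0 : b ≠ 0 := by
    rintro rfl
    exact hT (Finset.sum_eq_zero fun s _ => Finset.sum_eq_zero fun t _ => by simp)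
  have ha0 : a ≠ 0 := by
    rintro rfl
    exact hT (Finset.sum_eq_zero fun s _ => Finset.sum_eq_zero fun t _ => by simp)
  obtain ⟨p, hp⟩ : ∃ p, l p ≠ 0 := by
    by_contra hc
    push Not at hc
    exact hl (Matrix.ext fun p t => congrFun (hc p) t)
  obtain ⟨q, hq⟩ : ∃ q, (fun s => k s q) ≠ 0 := by
    by_contra hc
    push Not at hc
    exact hk (Matrix.ext fun s q => congrFun (hc q) s)
  have hap : a 0 * k 0 q + a 1 * k 1 q = 0 := by
    have := ha q
    rwa [Fin.sum_univ_two] at this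
  have hbp : b 0 * l p 0 + b 1 * l p 1 = 0 := by
    have := hb p
    rw [Fin.sum_univ_two] at this
    linear_combination this
  obtain ⟨d, hd0, hd1⟩ := rc_line (u := fun s => k s q) ha0 hap
  obtain ⟨c, hc0, hc1⟩ := rc_line (u := l p) hb0 hbp
  have hd : d ≠ 0 := by
    rintro rfl
    apply hq
    funext i
    fin_cases i
    · simpa using hd0
    · simpa using hd1
  have hc : c ≠ 0 := by
    rintro rfl
    apply hp
    funext i
    fin_cases i
    · simpa using hc0
    · simpa using hc1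
  let r : Fin 3 → α ⊕ Fin 2 := ![Sum.inl p, Sum.inr 0, Sum.inr 1]
  let e : Fin 3 → β ⊕ Fin 2 := ![Sum.inl q, Sum.inr 0, Sum.inr 1]
  have hdet : ((Matrix.fromBlocks (0 : Matrix α β F) l k T).submatrix r e).det ≠ 0 := by
    rw [Matrix.det_fin_three]
    have e00 : (Matrix.fromBlocks (0 : Matrix α β F) l k T).submatrix r e 0 0 = 0 := rfl
    have e01 : (Matrix.fromBlocks (0 : Matrix α β F) l k T).submatrix r e 0 1 = l p 0 := rfl
    have e02 : (Matrix.fromBlocks (0 : Matrix α β F) l k T).submatrix r e 0 2 = l p 1 := rfl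
    have e10 : (Matrix.fromBlocks (0 : Matrix α β F) l k T).submatrix r e 1 0 = k 0 q := rfl
    have e11 : (Matrix.fromBlocks (0 : Matrix α β F) l k T).submatrix r e 1 1 = T 0 0 := rfl
    have e12 : (Matrix.fromBlocks (0 : Matrix α β F) l k T).submatrix r e 1 2 = T 0 1 := rfl
    have e20 : (Matrix.fromBlocks (0 : Matrix α β F) l k T).submatrix r e 2 0 = k 1 q := rfl
    have e21 : (Matrix.fromBlocks (0 : Matrix α β F) l k T).submatrix r e 2 1 = T 1 0 := rfl
    have e22 : (Matrix.fromBlocks (0 : Matrix α β F) l k T).submatrix r e 2 2 = T 1 1 := rfl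
    rw [e00, e01, e02, e10, e11, e12, e20, e21, e22]
    have hd0' : k 0 q = -(d * a 1) := hd0
    have hd1' : k 1 q = d * a 0 := hd1
    rw [hd0', hd1', hc0, hc1]
    have hT' : a 0 * T 0 0 * b 0 + a 0 * T 0 1 * b 1 + (a 1 * T 1 0 * b 0 + a 1 * T 1 1 * b 1)
        ≠ 0 := by
      rw [Fin.sum_univ_two, Fin.sum_univ_two, Fin.sum_univ_two] at hT
      exact hT
    have : 0 * T 0 0 * T 1 1 - 0 * T 0 1 * T 1 0 - -(c * b 1) * -(d * a 1) * T 1 1 +
        -(c * b 1) * T 0 1 * (d * a 0) + c * b 0 * -(d * a 1) * T 1 0 -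
        c * b 0 * T 0 0 * (d * a 0) = -(c * d * (a 0 * T 0 0 * b 0 + a 0 * T 0 1 * b 1 +
        (a 1 * T 1 0 * b 0 + a 1 * T 1 1 * b 1))) := by ring
    rw [this]
    exact neg_ne_zero.mpr (mul_ne_zero (mul_ne_zero hc hd) hT')
  have h3 := Matrix.rank_of_det_ne_zero hdet
  rw [Fintype.card_fin] at h3
  rw [← h3]
  exact Matrix.rank_submatrix_le _ r e

theorem rank_le_two (l : Matrix α (Fin 2) F) (k : Matrix (Fin 2) β F)
    (T : Matrix (Fin 2) (Fin 2) F) (a b : Fin 2 → F) (ha0 : a ≠ 0) (hb0 : b ≠ 0)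
    (ha : ∀ q, ∑ s, a s * k s q = 0) (hb : ∀ p, ∑ t, l p t * b t = 0) (hl : l ≠ 0) (hk : k ≠ 0)
    (hT : ∑ s, ∑ t, a s * T s t * b t = 0) :
    (Matrix.fromBlocks (0 : Matrix α β F) l k T).rank ≤ 2 := by
  classical
  obtain ⟨q, hq⟩ : ∃ q, (fun s => k s q) ≠ 0 := by
    by_contra hc
    push Not at hc
    exact hk (Matrix.ext fun s q => congrFun (hc q) s)
  have hap : ∀ q', a 0 * k 0 q' + a 1 * k 1 q' = 0 := by
    intro q'
    have := ha q'
    rwa [Fin.sum_univ_two] at this
  have hbp : ∀ p, l p 0 * b 0 + l p 1 * b 1 = 0 := by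
    intro p
    have := hb p
    rwa [Fin.sum_univ_two] at this
  obtain ⟨d, hd0, hd1⟩ := rc_line (u := fun s => k s q) ha0 (hap q)
  have hd : d ≠ 0 := by
    rintro rfl
    apply hq
    funext i
    fin_cases i
    · simpa using hd0
    · simpa using hd1
  -- every vector in the kernel of `a` is a multiple of `k_q`
  have hker : ∀ u : Fin 2 → F, a 0 * u 0 + a 1 * u 1 = 0 → ∃ x : F, ∀ s, u s = x * k s q := by
    intro u hu
    obtain ⟨d', h0, h1⟩ := rc_line ha0 hu
    have hd0' : k 0 q = -(d * a 1) := hd0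
    have hd1' : k 1 q = d * a 0 := hd1
    refine ⟨d' / d, fun s => ?_⟩
    fin_cases s
    · show u 0 = d' / d * k 0 q
      rw [h0, hd0']
      field_simp
    · show u 1 = d' / d * k 1 q
      rw [h1, hd1']
      field_simp
  obtain ⟨e0, e1, he⟩ : ∃ e0 e1 : F, b 0 * e1 - b 1 * e0 = 1 := by
    by_cases h0 : b 0 = 0
    · have h1 : b 1 ≠ 0 := by
        intro h1
        apply hb0
        funext i
        fin_cases i
        · exact h0
        · exact h1
      refine ⟨-(1 / b 1), 0, ?_⟩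
      field_simp
      ring
    · refine ⟨0, 1 / b 0, ?_⟩
      field_simp
      ring
  have hTb : a 0 * (T 0 0 * b 0 + T 0 1 * b 1) + a 1 * (T 1 0 * b 0 + T 1 1 * b 1) = 0 := by
    rw [Fin.sum_univ_two, Fin.sum_univ_two, Fin.sum_univ_two] at hT
    linear_combination hT
  obtain ⟨ν, hν⟩ := hker ![T 0 0 * b 0 + T 0 1 * b 1, T 1 0 * b 0 + T 1 1 * b 1] hTb
  have hν0 : T 0 0 * b 0 + T 0 1 * b 1 = ν * k 0 q := hν 0
  have hν1 : T 1 0 * b 0 + T 1 1 * b 1 = ν * k 1 q := hν 1
  let v1 : α ⊕ Fin 2 → F := Sum.elim 0 (fun s => k s q)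
  let v2 : α ⊕ Fin 2 → F := Sum.elim (fun p => l p 0 * e0 + l p 1 * e1)
    (fun s => T s 0 * e0 + T s 1 * e1)
  rw [Matrix.rank_eq_finrank_span_cols]
  have hspan : Submodule.span F (Set.range (Matrix.fromBlocks (0 : Matrix α β F) l k T).col) ≤
      Submodule.span F ((({v1, v2} : Finset (α ⊕ Fin 2 → F)) : Set (α ⊕ Fin 2 → F))) := by
    rw [Submodule.span_le, Finset.coe_pair]
    rintro _ ⟨j, rfl⟩
    rw [SetLike.mem_coe, Submodule.mem_span_pair]
    rcases j with q' | t
    · obtain ⟨x, hx⟩ := hker (fun s => k s q') (hap q')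
      refine ⟨x, 0, ?_⟩
      funext i
      rcases i with p | s
      · show x * 0 + 0 * (l p 0 * e0 + l p 1 * e1) = 0
        ring
      · show x * k s q + 0 * (T s 0 * e0 + T s 1 * e1) = k s q'
        rw [zero_mul, add_zero]
        exact (hx s).symm
    · -- the unit vector `t` is `lam e + mu b`
      have hkey : ∀ w0 w1 lam mu : F, lam = b 0 * w1 - b 1 * w0 → mu = e1 * w0 - e0 * w1 →
          (∀ p, mu * ν * 0 + lam * (l p 0 * e0 + l p 1 * e1) = l p 0 * w0 + l p 1 * w1) ∧
          ∀ s, mu * ν * k s q + lam * (T s 0 * e0 + T s 1 * e1) = T s 0 * w0 + T s 1 * w1 := by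
        intro w0 w1 lam mu hlam hmu
        constructor
        · intro p
          rw [hlam]
          have h1 := hbp p
          have h2 : l p 0 * w0 + l p 1 * w1 = (b 0 * e1 - b 1 * e0) * (l p 0 * w0 + l p 1 * w1) := by
            rw [he, one_mul]
          rw [h2]
          linear_combination (-(e1 * w0 - e0 * w1)) * h1
        · intro s
          have h1 : T s 0 * b 0 + T s 1 * b 1 = ν * k s q := by
            fin_cases s
            · exact hν0
            · exact hν1
          rw [hlam, hmu]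
          have h2 : T s 0 * w0 + T s 1 * w1 = (b 0 * e1 - b 1 * e0) * (T s 0 * w0 + T s 1 * w1) := by
            rw [he, one_mul]
          rw [h2]
          linear_combination (-(e1 * w0 - e0 * w1)) * h1
      fin_cases t
      · obtain ⟨k1, k2⟩ := hkey 1 0 _ _ rfl rfl
        refine ⟨(e1 * 1 - e0 * 0) * ν, b 0 * 0 - b 1 * 1, ?_⟩
        funext i
        rcases i with p | s
        · show (e1 * 1 - e0 * 0) * ν * 0 + (b 0 * 0 - b 1 * 1) * (l p 0 * e0 + l p 1 * e1) = l p 0
          rw [k1 p]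
          ring
        · show (e1 * 1 - e0 * 0) * ν * k s q + (b 0 * 0 - b 1 * 1) *
            (T s 0 * e0 + T s 1 * e1) = T s 0
          rw [k2 s]
          ring
      · obtain ⟨k1, k2⟩ := hkey 0 1 _ _ rfl rfl
        refine ⟨(e1 * 0 - e0 * 1) * ν, b 0 * 1 - b 1 * 0, ?_⟩
        funext i
        rcases i with p | s
        · show (e1 * 0 - e0 * 1) * ν * 0 + (b 0 * 1 - b 1 * 0) * (l p 0 * e0 + l p 1 * e1) = l p 1
          rw [k1 p]
          ring
        · show (e1 * 0 - e0 * 1) * ν * k s q + (b 0 * 1 - b 1 * 0) *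
            (T s 0 * e0 + T s 1 * e1) = T s 1
          rw [k2 s]
          ring
  refine (Submodule.finrank_mono hspan).trans ?_
  exact (finrank_span_finset_le_card _).trans Finset.card_le_two

end Pool.Agent.H18.R2
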