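import Pool.Agent.H18.R2.Num
import Pool.Agent.H18.R2.Tr

/-!
# Scalar instances (module Scalar)

For `g : α → F`, `b : β → F` let `sc Θ g b` be the scalar instance with one border row
`∑ p, g p * (row p)` and one border column `∑ q, b q * (column q)`.
`shift_sc`: `shift (sc Θ g b) x` has the entries `∑ q, Θ^x (i,t) q * b q`, etc. (from `shift_tr`).
`exists_scalars`: for a finite set `U` of indices whose block rows and block columns are nonzero on
the border, and a point `x` with a nonzero corner entry of `shift Θ x`, there are `g, b` with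
`kv (sc Θ g b) m ≠ 0`, `lv (sc Θ g b) m ≠ 0` for `m ∈ U` and corner of `shift (sc Θ g b) x`
nonzero: apply `exists_common` on `F^(α ⊕ β)` to the linear functions
`(g, b) ↦ ∑ q, Θ (m,t) q * b q`, `(g, b) ↦ ∑ p, g p * Θ p (m,t)` (nonzero at a basis vector) and
the bilinear function `∑ p q, g p * Θ^x p q * b q` (nonzero at `(e_p, e_q)`).
-/

namespace Pool.Agent.H18.R2

open Matrix

variable {F : Type*} [Field F] {V : Type*} [Fintype V] [DecidableEq V]
variable {α β : Type*} [Fintype α] [Fintype β] [DecidableEq α] [DecidableEq β]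

/-- scalar instance -/
def sc (Θ : Matrix ((V × Fin 2) ⊕ α) ((V × Fin 2) ⊕ β) F) (g : α → F) (b : β → F) :
    Matrix ((V × Fin 2) ⊕ Unit) ((V × Fin 2) ⊕ Unit) F :=
  tr Θ (Matrix.of fun (_ : Unit) p => Sum.elim (fun _ => 0) g p)
    (Matrix.of fun q (_ : Unit) => Sum.elim (fun _ => 0) b q)

theorem TT_sc (Θ : Matrix ((V × Fin 2) ⊕ α) ((V × Fin 2) ⊕ β) F) (g : α → F) (b : β → F) :
    TT (sc Θ g b) = TT Θ := TT_tr _ _ _

theorem shift_sc (Θ : Matrix ((V × Fin 2) ⊕ α) ((V × Fin 2) ⊕ β) F) (g : α → F) (b : β → F)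
    (x : V → F) : shift (sc Θ g b) x = sc (shift Θ x) g b := shift_tr _ _ _ _

theorem kv_sc (Θ : Matrix ((V × Fin 2) ⊕ α) ((V × Fin 2) ⊕ β) F) (g : α → F) (b : β → F)
    (i : V) (t : Fin 2) :
    kv (sc Θ g b) i t = ∑ q, Θ (Sum.inl (i, t)) (Sum.inr q) * b q := by
  simp [kv, sc, tr, Matrix.mul_apply, Fintype.sum_sum_type, rows]

theorem lv_sc (Θ : Matrix ((V × Fin 2) ⊕ α) ((V × Fin 2) ⊕ β) F) (g : α → F) (b : β → F)
    (i : V) (t : Fin 2) :
    lv (sc Θ g b) i t = ∑ p, g p * Θ (Sum.inr p) (Sum.inl (i, t)) := by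
  simp [lv, sc, tr, Matrix.mul_apply, Fintype.sum_sum_type, cols]

theorem corner_sc (Θ : Matrix ((V × Fin 2) ⊕ α) ((V × Fin 2) ⊕ β) F) (g : α → F) (b : β → F) :
    sc Θ g b (Sum.inr ()) (Sum.inr ()) =
      ∑ p, ∑ q, g p * Θ (Sum.inr p) (Sum.inr q) * b q := by
  simp only [sc, tr, Matrix.fromBlocks_apply₂₂, Matrix.mul_apply, Fintype.sum_sum_type,
    Matrix.of_apply, Sum.elim_inl, Sum.elim_inr, zero_mul, mul_zero, Finset.sum_const_zero,
    zero_add, Finset.sum_mul]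
  exact Finset.sum_comm

theorem inner_sc (Θ : Matrix ((V × Fin 2) ⊕ α) ((V × Fin 2) ⊕ β) F) (g : α → F) (b : β → F)
    (u v : V × Fin 2) : sc Θ g b (Sum.inl u) (Sum.inl v) = Θ (Sum.inl u) (Sum.inl v) := by
  simp [sc, tr, TT]

theorem exists_scalars [Infinite F] (Θ : Matrix ((V × Fin 2) ⊕ α) ((V × Fin 2) ⊕ β) F)
    (U : Finset V) (hrow : ∀ m ∈ U, ∃ t q, Θ (Sum.inl (m, t)) (Sum.inr q) ≠ 0)
    (hcol : ∀ m ∈ U, ∃ p t, Θ (Sum.inr p) (Sum.inl (m, t)) ≠ 0) (x : V → F)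
    (hx : ∃ p q, shift Θ x (Sum.inr p) (Sum.inr q) ≠ 0) :
    ∃ (g : α → F) (b : β → F), (∀ m ∈ U, kv (sc Θ g b) m ≠ 0) ∧
      (∀ m ∈ U, lv (sc Θ g b) m ≠ 0) ∧
      shift (sc Θ g b) x (Sum.inr ()) (Sum.inr ()) ≠ 0 := by
  choose t q hq using hrow
  choose p t' hp using hcol
  obtain ⟨p₀, q₀, h₀⟩ := hx
  let f : ((↥U ⊕ ↥U) ⊕ Unit) → ((α ⊕ β → F) → F) := fun w z =>
    match w with
    | Sum.inl (Sum.inl m) =>
        ∑ q', Θ (Sum.inl (m.1, t m.1 m.2)) (Sum.inr q') * z (Sum.inr q')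
    | Sum.inl (Sum.inr m) =>
        ∑ p', z (Sum.inl p') * Θ (Sum.inr p') (Sum.inl (m.1, t' m.1 m.2))
    | Sum.inr _ => ∑ p', ∑ q', z (Sum.inl p') * shift Θ x (Sum.inr p') (Sum.inr q') *
        z (Sum.inr q')
  have hf : ∀ w, PolyFun (f w) := by
    rintro ((m | m) | u)
    · exact PolyFun.sum _ fun q' => (PolyFun.const _).mul (PolyFun.coord _)
    · exact PolyFun.sum _ fun p' => (PolyFun.coord _).mul (PolyFun.const _)
    · exact PolyFun.sum _ fun p' => PolyFun.sum _ fun q' =>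
        ((PolyFun.coord _).mul (PolyFun.const _)).mul (PolyFun.coord _)
  have hne : ∀ w ∈ (Finset.univ : Finset ((↥U ⊕ ↥U) ⊕ Unit)), ∃ z, f w z ≠ 0 := by
    rintro ((m | m) | u) -
    · refine ⟨Sum.elim 0 (Pi.single (q m.1 m.2) 1), ?_⟩
      have h1 : f (Sum.inl (Sum.inl m)) (Sum.elim 0 (Pi.single (q m.1 m.2) 1)) =
          Θ (Sum.inl (m.1, t m.1 m.2)) (Sum.inr (q m.1 m.2)) := by
        simp [f, Pi.single_apply]
      rw [h1]
      exact hq m.1 m.2
    · refine ⟨Sum.elim (Pi.single (p m.1 m.2) 1) 0, ?_⟩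
      have h1 : f (Sum.inl (Sum.inr m)) (Sum.elim (Pi.single (p m.1 m.2) 1) 0) =
          Θ (Sum.inr (p m.1 m.2)) (Sum.inl (m.1, t' m.1 m.2)) := by
        simp [f, Pi.single_apply]
      rw [h1]
      exact hp m.1 m.2
    · refine ⟨Sum.elim (Pi.single p₀ 1) (Pi.single q₀ 1), ?_⟩
      have h1 : f (Sum.inr u) (Sum.elim (Pi.single p₀ 1) (Pi.single q₀ 1)) =
          shift Θ x (Sum.inr p₀) (Sum.inr q₀) := by
        simp [f, Pi.single_apply]
      rw [h1]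
      exact h₀
  obtain ⟨z, hz⟩ := exists_common Finset.univ hf hne
  refine ⟨fun i => z (Sum.inl i), fun j => z (Sum.inr j), fun m hm h => ?_, fun m hm h => ?_, ?_⟩
  · refine hz (Sum.inl (Sum.inl ⟨m, hm⟩)) (Finset.mem_univ _) ?_
    have h1 := congrFun h (t m hm)
    rw [kv_sc] at h1
    exact h1
  · refine hz (Sum.inl (Sum.inr ⟨m, hm⟩)) (Finset.mem_univ _) ?_
    have h1 := congrFun h (t' m hm)
    rw [lv_sc] at h1
    exact h1
  · rw [shift_sc, corner_sc]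
    exact hz (Sum.inr ()) (Finset.mem_univ _)

end Pool.Agent.H18.R2
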