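import Pool.Agent.H18.R2.Own
import Pool.Agent.H18.R2.Scalar
import Pool.Agent.H18.R2.RankCorner

/-!
# Local genuineness of the scalar instance, generic points (module GenuineA)

Setting: `Θ`, `S`, `CornerZero Θ S`, and the rank inequality
`(bord (shift Θ z) (selR i) (selC j)).rank ≤ (bord Θ (selR i) (selC j)).rank` for regular `z` on
`S`, `i, j ∈ S`.  `Θs = sc Θ g b` with `kv Θs m ≠ 0`, `lv Θs m ≠ 0` for `m ∈ S`.
`tau_zero`: let `i ≠ j ∈ S`, `tau Θs i j = 0`, `z` regular on `S` with `lv, kv` of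
  `shift Θs z` at `i` and at `j` nonzero.  Then `tau (shift Θs z) i j = 0`.
  Proof: the corner of `shift Θ z` vanishes, so `bord (shift Θ z) (selR i) (selC j)` is
  `[[0, l_j],[k_i, T_ij]]` (blocks of `shift Θ z`).  Put `a = lv (shift Θs z) i`,
  `b' = kv (shift Θs z) j`: `a k_i = 0` and `l_j b' = 0` by `own_zero` (take linear combinations
  with `g`, `b`), `l_j, k_i ≠ 0`.  If `tau (shift Θs z) i j ≠ 0` the rank is `≥ 3`
  (`rank_ge_three`); at the base (`z = 0`, `shift_zero`) it is `≤ 2` (`rank_le_two`).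
  Contradiction with the rank inequality.
`par_generic`: for such `z` and `t` with `bump z j t` regular:
  `kv (shift Θs (bump z j t)) i` and `kv (shift Θs z) i` are proportional:
  `star_left` for the entry `((i,s), border)` of `Θs`: `k_i(z+te_j) = k_i(z) + t T^z_ij k_j(z+te_j)`
  and `k_j(z+te_j) = c k_j(z)` (`own_parallel` for `Θs`, whose corner is `0` on `S`;
  `exists_smul_of_parallel`), so `a k_i(z+te_j) = a k_i(z) + t c tau = 0` with
  `a = lv (shift Θs z) i ≠ 0`, and `a k_i(z) = 0`; `parallel_of_orth`.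
`genuine_sc`: extend to all regular pairs `x, y` on `S` that agree off `j`:
  on `F^(Option V)`, point `w`, put `x_w = (w (some l))_l` restricted to `S` and
  `y_w = bump x_w j (w none)`.  The functions `den Θs x_w`, `den Θs y_w`, one numerator of
  `kv, lv` at `i` and at `j` for `x_w` (nonzero at `w = 0` because `num Θs 0 = Θs`) and
  `φ w = num k_i0(x_w) num k_i1(y_w) - num k_i1(x_w) num k_i0(y_w)` are polynomial.  If `φ` were
  nonzero somewhere, `exists_common` gives a `w` where all are nonzero: contradiction with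
  `par_generic`.  So `φ = 0`; divide by the denominators at regular `x, y`.
-/

namespace Pool.Agent.H18.R2

open Matrix

variable {F : Type*} [Field F] [Infinite F] {V : Type*} [Fintype V] [DecidableEq V]
variable {α β : Type*} [Fintype α] [Fintype β] [DecidableEq α] [DecidableEq β]

/-- the corner of the scalar instance vanishes too -/
theorem cornerZero_sc {Θ : Matrix ((V × Fin 2) ⊕ α) ((V × Fin 2) ⊕ β) F} {S : Finset V}
    (h : CornerZero Θ S) (g : α → F) (b : β → F) : CornerZero (sc Θ g b) S := by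
  intro x hx hr p q
  rw [TT_sc] at hr
  rw [shift_sc, show p = () from rfl, show q = () from rfl, corner_sc]
  refine Finset.sum_eq_zero fun p _ => Finset.sum_eq_zero fun q _ => ?_
  rw [h x hx hr p q]
  simp

omit [Infinite F] in
private lemma bord_some_eq (Φ : Matrix ((V × Fin 2) ⊕ α) ((V × Fin 2) ⊕ β) F) (i j : V) :
    bord Φ (selR (some i)) (selC (some j)) =
      Matrix.fromBlocks (Matrix.of fun p q => Φ (Sum.inr p) (Sum.inr q))
        (Matrix.of fun p (t : Fin 2) => Φ (Sum.inr p) (Sum.inl (j, t)))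
        (Matrix.of fun (s : Fin 2) q => Φ (Sum.inl (i, s)) (Sum.inr q))
        (Matrix.of fun (s t : Fin 2) => Φ (Sum.inl (i, s)) (Sum.inl (j, t))) := by
  have hL : ∀ (r : α ⊕ Fin 2) (c : (V × Fin 2) ⊕ β),
      ((hatR (selR (some i)) : Matrix (α ⊕ Fin 2) ((V × Fin 2) ⊕ α) F) * Φ) r c =
        Sum.elim (fun p => Φ (Sum.inr p) c) (fun s => Φ (Sum.inl (i, s)) c) r := by
    intro r c
    rw [Matrix.mul_apply, Fintype.sum_sum_type]
    rcases r with p | s
    · simp [hatR, Matrix.one_apply]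
    · simp only [hatR, selR, Matrix.fromBlocks_apply₂₁, Matrix.fromBlocks_apply₂₂, Matrix.of_apply,
        Matrix.zero_apply, zero_mul, Finset.sum_const_zero, add_zero, ite_mul, one_mul,
        Finset.sum_ite_eq', Finset.mem_univ, if_true, Sum.elim_inr]
  unfold bord
  ext r c
  rw [Matrix.mul_apply, Fintype.sum_sum_type]
  simp only [hL]
  rcases c with q | t
  · simp only [hatC, Matrix.fromBlocks_apply₁₁, Matrix.fromBlocks_apply₂₁, Matrix.zero_apply,
      mul_zero, Finset.sum_const_zero, zero_add, Matrix.one_apply, mul_ite, mul_one,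
      Finset.sum_ite_eq', Finset.mem_univ, if_true]
    rcases r with p | s <;> simp
  · simp only [hatC, selC, Matrix.fromBlocks_apply₁₂, Matrix.fromBlocks_apply₂₂, Matrix.zero_apply,
      mul_zero, Finset.sum_const_zero, add_zero, Matrix.of_apply, mul_ite, mul_one,
      Finset.sum_ite_eq', Finset.mem_univ, if_true]
    rcases r with p | s <;> simp

omit [Infinite F] in
private lemma bord_of_cornerZero {Θ : Matrix ((V × Fin 2) ⊕ α) ((V × Fin 2) ⊕ β) F} {S : Finset V}
    (h : CornerZero Θ S) {z : V → F} (hz : SuppIn z S) (hr : Reg (TT Θ) z) (i j : V) :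
    bord (shift Θ z) (selR (some i)) (selC (some j)) =
      Matrix.fromBlocks 0
        (Matrix.of fun p (t : Fin 2) => shift Θ z (Sum.inr p) (Sum.inl (j, t)))
        (Matrix.of fun (s : Fin 2) q => shift Θ z (Sum.inl (i, s)) (Sum.inr q))
        (Matrix.of fun (s t : Fin 2) => shift Θ z (Sum.inl (i, s)) (Sum.inl (j, t))) := by
  rw [bord_some_eq]
  congr 1
  ext p q
  simp [h z hz hr p q]

private lemma orth_k {Θ : Matrix ((V × Fin 2) ⊕ α) ((V × Fin 2) ⊕ β) F} {S : Finset V}
    (h : CornerZero Θ S) (g : α → F) (b : β → F) {i : V} (hi : i ∈ S) {z : V → F}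
    (hz : SuppIn z S) (hr : Reg (TT Θ) z) (q : β) :
    ∑ s, lv (sc (shift Θ z) g b) i s * shift Θ z (Sum.inl (i, s)) (Sum.inr q) = 0 := by
  simp only [lv_sc, Finset.sum_mul]
  rw [Finset.sum_comm]
  refine Finset.sum_eq_zero fun p _ => ?_
  have := own_zero h hi hz hr p q
  calc ∑ s : Fin 2, g p * shift Θ z (Sum.inr p) (Sum.inl (i, s)) *
        shift Θ z (Sum.inl (i, s)) (Sum.inr q)
      = g p * ∑ s : Fin 2, shift Θ z (Sum.inr p) (Sum.inl (i, s)) *
        shift Θ z (Sum.inl (i, s)) (Sum.inr q) := by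
          rw [Finset.mul_sum]
          exact Finset.sum_congr rfl fun s _ => by ring
    _ = 0 := by rw [this, mul_zero]

private lemma orth_l {Θ : Matrix ((V × Fin 2) ⊕ α) ((V × Fin 2) ⊕ β) F} {S : Finset V}
    (h : CornerZero Θ S) (g : α → F) (b : β → F) {j : V} (hj : j ∈ S) {z : V → F}
    (hz : SuppIn z S) (hr : Reg (TT Θ) z) (p : α) :
    ∑ t, shift Θ z (Sum.inr p) (Sum.inl (j, t)) * kv (sc (shift Θ z) g b) j t = 0 := by
  simp only [kv_sc, Finset.mul_sum]
  rw [Finset.sum_comm]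
  refine Finset.sum_eq_zero fun q _ => ?_
  have := own_zero h hj hz hr p q
  calc ∑ s : Fin 2, shift Θ z (Sum.inr p) (Sum.inl (j, s)) *
        (shift Θ z (Sum.inl (j, s)) (Sum.inr q) * b q)
      = (∑ s : Fin 2, shift Θ z (Sum.inr p) (Sum.inl (j, s)) *
        shift Θ z (Sum.inl (j, s)) (Sum.inr q)) * b q := by
          rw [Finset.sum_mul]
          exact Finset.sum_congr rfl fun s _ => by ring
    _ = 0 := by rw [this, zero_mul]

omit [Infinite F] in
private lemma l_ne {Φ : Matrix ((V × Fin 2) ⊕ α) ((V × Fin 2) ⊕ β) F} (g : α → F) (b : β → F)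
    {j : V} (h : lv (sc Φ g b) j ≠ 0) :
    (Matrix.of fun p (t : Fin 2) => Φ (Sum.inr p) (Sum.inl (j, t))) ≠ 0 := by
  intro h0
  apply h
  funext t
  rw [lv_sc]
  refine Finset.sum_eq_zero fun p _ => ?_
  have := congrFun (congrFun h0 p) t
  simp only [Matrix.of_apply, Matrix.zero_apply] at this
  rw [this, mul_zero]

omit [Infinite F] in
private lemma k_ne {Φ : Matrix ((V × Fin 2) ⊕ α) ((V × Fin 2) ⊕ β) F} (g : α → F) (b : β → F)
    {i : V} (h : kv (sc Φ g b) i ≠ 0) :
    (Matrix.of fun (s : Fin 2) q => Φ (Sum.inl (i, s)) (Sum.inr q)) ≠ 0 := by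
  intro h0
  apply h
  funext t
  rw [kv_sc]
  refine Finset.sum_eq_zero fun q _ => ?_
  have := congrFun (congrFun h0 t) q
  simp only [Matrix.of_apply, Matrix.zero_apply] at this
  rw [this, zero_mul]

omit [Infinite F] in
private lemma tau_sc (Φ : Matrix ((V × Fin 2) ⊕ α) ((V × Fin 2) ⊕ β) F) (g : α → F) (b : β → F)
    (i j : V) :
    tau (sc Φ g b) i j = ∑ s, ∑ t, lv (sc Φ g b) i s * Φ (Sum.inl (i, s)) (Sum.inl (j, t)) *
      kv (sc Φ g b) j t := by
  unfold tau
  simp only [inner_sc]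

/-- the rank inequality for single borders on `S` -/
def RankLoc (Θ : Matrix ((V × Fin 2) ⊕ α) ((V × Fin 2) ⊕ β) F) (S : Finset V) : Prop :=
  ∀ i ∈ S, ∀ j ∈ S, ∀ z : V → F, SuppIn z S → Reg (TT Θ) z →
    (bord (shift Θ z) (selR (some i)) (selC (some j))).rank ≤
      (bord Θ (selR (some i)) (selC (some j))).rank

theorem tau_zero {Θ : Matrix ((V × Fin 2) ⊕ α) ((V × Fin 2) ⊕ β) F} {S : Finset V}
    (h : CornerZero Θ S) (hrk : RankLoc Θ S) (g : α → F) (b : β → F)
    (hk : ∀ m ∈ S, kv (sc Θ g b) m ≠ 0) (hl : ∀ m ∈ S, lv (sc Θ g b) m ≠ 0)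
    {i j : V} (hi : i ∈ S) (hj : j ∈ S) (ht : tau (sc Θ g b) i j = 0) {z : V → F}
    (hz : SuppIn z S) (hr : Reg (TT Θ) z)
    (hki : kv (shift (sc Θ g b) z) i ≠ 0) (hli : lv (shift (sc Θ g b) z) i ≠ 0)
    (hkj : kv (shift (sc Θ g b) z) j ≠ 0) (hlj : lv (shift (sc Θ g b) z) j ≠ 0) :
    tau (shift (sc Θ g b) z) i j = 0 := by
  rw [shift_sc] at hki hli hkj hlj ⊢
  by_contra hne
  have h3 : 3 ≤ (bord (shift Θ z) (selR (some i)) (selC (some j))).rank := by
    rw [bord_of_cornerZero h hz hr i j]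
    refine rank_ge_three _ _ _ (lv (sc (shift Θ z) g b) i) (kv (sc (shift Θ z) g b) j) ?_ ?_
      (l_ne g b hlj) (k_ne g b hki) ?_
    · intro q
      simpa using orth_k h g b hi hz hr q
    · intro p
      simpa using orth_l h g b hj hz hr p
    · rw [tau_sc] at hne
      simpa using hne
  have hz0 : SuppIn (0 : V → F) S := fun _ _ => rfl
  have hr0 : Reg (TT Θ) 0 := reg_zero _
  have hs0 : shift Θ 0 = Θ := shift_zero Θ
  have h2 : (bord Θ (selR (some i)) (selC (some j))).rank ≤ 2 := by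
    have hb := bord_of_cornerZero h hz0 hr0 i j
    have ho1 := fun q => orth_k h g b hi hz0 hr0 q
    have ho2 := fun p => orth_l h g b hj hz0 hr0 p
    rw [hs0] at hb ho1 ho2
    rw [hb]
    refine rank_le_two _ _ _ (lv (sc Θ g b) i) (kv (sc Θ g b) j) (hl i hi) (hk j hj) ?_ ?_
      (l_ne g b (hl j hj)) (k_ne g b (hk i hi)) ?_
    · intro q
      simpa using ho1 q
    · intro p
      simpa using ho2 p
    · rw [tau_sc] at ht
      simpa using ht
  have := hrk i hi j hj z hz hr
  omega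

theorem par_generic {Θ : Matrix ((V × Fin 2) ⊕ α) ((V × Fin 2) ⊕ β) F} {S : Finset V}
    (h : CornerZero Θ S) (hrk : RankLoc Θ S) (g : α → F) (b : β → F)
    (hk : ∀ m ∈ S, kv (sc Θ g b) m ≠ 0) (hl : ∀ m ∈ S, lv (sc Θ g b) m ≠ 0)
    {i j : V} (hi : i ∈ S) (hj : j ∈ S) (ht : tau (sc Θ g b) i j = 0) {z : V → F}
    (hz : SuppIn z S) (hr : Reg (TT Θ) z)
    (hki : kv (shift (sc Θ g b) z) i ≠ 0) (hli : lv (shift (sc Θ g b) z) i ≠ 0)
    (hkj : kv (shift (sc Θ g b) z) j ≠ 0) (hlj : lv (shift (sc Θ g b) z) j ≠ 0)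
    {t : F} (hr' : Reg (TT Θ) (bump z j t)) :
    kv (shift (sc Θ g b) z) i 0 * kv (shift (sc Θ g b) (bump z j t)) i 1 =
      kv (shift (sc Θ g b) z) i 1 * kv (shift (sc Θ g b) (bump z j t)) i 0 := by
  have htau := tau_zero h hrk g b hk hl hi hj ht hz hr hki hli hkj hlj
  have hc := cornerZero_sc h g b
  have hrs : Reg (TT (sc Θ g b)) z := by rw [TT_sc]; exact hr
  have hrs' : Reg (TT (sc Θ g b)) (bump z j t) := by rw [TT_sc]; exact hr'
  -- `k_j(z + t e_j) = c k_j(z)`
  obtain ⟨c, hcj⟩ : ∃ c : F, kv (shift (sc Θ g b) (bump z j t)) j =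
      c • kv (shift (sc Θ g b) z) j := by
    apply exists_smul_of_parallel hkj
    refine own_parallel (p := ()) hc hj hz hrs hrs' ?_ () ()
    by_contra hcon
    push Not at hcon
    apply hlj
    funext s
    exact hcon s
  have hown := own_zero hc hi hz hrs () ()
  refine parallel_of_orth hli hown ?_
  have hstar : ∀ s : Fin 2, kv (shift (sc Θ g b) (bump z j t)) i s =
      kv (shift (sc Θ g b) z) i s + t * ∑ s', shift (sc Θ g b) z (Sum.inl (i, s))
        (Sum.inl (j, s')) * (c * kv (shift (sc Θ g b) z) j s') := by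
    intro s
    have h1 := star_left (sc Θ g b) hrs hrs' (Sum.inl (i, s)) (Sum.inr ())
    unfold kv
    rw [h1]
    congr 2
    refine Finset.sum_congr rfl fun s' _ => ?_
    congr 1
    have := congrFun hcj s'
    simpa [kv] using this
  have hown' : ∑ s, lv (shift (sc Θ g b) z) i s * kv (shift (sc Θ g b) z) i s = 0 := hown
  calc ∑ s, lv (shift (sc Θ g b) z) i s * kv (shift (sc Θ g b) (bump z j t)) i s
      = ∑ s, lv (shift (sc Θ g b) z) i s * kv (shift (sc Θ g b) z) i s +
        t * c * tau (shift (sc Θ g b) z) i j := by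
        unfold tau
        simp only [hstar]
        simp only [Fin.sum_univ_two]
        ring
    _ = 0 := by rw [hown', htau]; ring

end Pool.Agent.H18.R2
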