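import Pool.Agent.H18.R2.GenuineA

/-!
# Local genuineness of the scalar instance, all regular points (module GenuineB)

Setting and notation: see GenuineA (`par_generic` is the statement at generic points).
`genuine_sc`: extend to all regular pairs `x, y` on `S` that agree off `j`:
  on `F^(Option V)`, point `w`, put `x_w l = w (some l)` for `l ∈ S`, `0` for `l ∉ S`, and
  `y_w = bump x_w j (w none)`.  With `Θs = sc Θ g b`, the functions `den Θs x_w`, `den Θs y_w`, one
  numerator of `kv, lv` at `i` and at `j` for `x_w` (nonzero at `w = 0` because `num Θs 0 = Θs` and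
  `kv Θs m, lv Θs m ≠ 0`) and
  `φ w = num k_i0(x_w) num k_i1(y_w) - num k_i1(x_w) num k_i0(y_w)` are polynomial
  (`polyFun_den`, `polyFun_num`, `PolyFun.comp`).  If `φ` were nonzero somewhere, `exists_common`
  gives a `w` where all are nonzero: contradiction with `par_generic` (at `z = x_w`,
  `t = w none`; `num_eq` converts numerators to entries of `shift`).  So `φ = 0` everywhere.
  Given regular `x, y` on `S` with `x l = y l` for `l ≠ j`, take `w = (x, y j - x j)`: then
  `x_w = x`, `y_w = y`, and dividing `φ w = 0` by the nonzero denominators gives the claim.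
-/

namespace Pool.Agent.H18.R2

open Matrix

variable {F : Type*} [Field F] [Infinite F] {V : Type*} [Fintype V] [DecidableEq V]
variable {α β : Type*} [Fintype α] [Fintype β] [DecidableEq α] [DecidableEq β]

/-- the point `x_w` -/
def GenB_x (S : Finset V) (w : Option V → F) : V → F := fun l => if l ∈ S then w (some l) else 0

omit [Infinite F] in
theorem GenB_poly_x (S : Finset V) (l : V) :
    PolyFun (fun w : Option V → F => GenB_x S w l) := by
  by_cases hl : l ∈ S
  · have h : (fun w : Option V → F => GenB_x S w l) = fun w => w (some l) := by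
      funext w
      simp only [GenB_x, if_pos hl]
    rw [h]
    exact PolyFun.coord _
  · have h : (fun w : Option V → F => GenB_x S w l) = fun _ => 0 := by
      funext w
      simp only [GenB_x, if_neg hl]
    rw [h]
    exact PolyFun.const _

omit [Infinite F] in
theorem GenB_poly_y (S : Finset V) (j l : V) :
    PolyFun (fun w : Option V → F => bump (GenB_x S w) j (w none) l) := by
  by_cases hl : l = j
  · subst hl
    have h : (fun w : Option V → F => bump (GenB_x S w) l (w none) l) =
        fun w => GenB_x S w l + w none := by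
      funext w
      rw [bump_apply_same]
    rw [h]
    exact (GenB_poly_x S l).add (PolyFun.coord _)
  · have h : (fun w : Option V → F => bump (GenB_x S w) j (w none) l) =
        fun w => GenB_x S w l := by
      funext w
      rw [bump_apply_ne _ _ hl]
    rw [h]
    exact GenB_poly_x S l

theorem genuine_sc {Θ : Matrix ((V × Fin 2) ⊕ α) ((V × Fin 2) ⊕ β) F} {S : Finset V}
    (h : CornerZero Θ S) (hrk : RankLoc Θ S) (g : α → F) (b : β → F)
    (hk : ∀ m ∈ S, kv (sc Θ g b) m ≠ 0) (hl : ∀ m ∈ S, lv (sc Θ g b) m ≠ 0) :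
    GenuineOn (sc Θ g b) S := by
  intro i hi j hj hij htau x y hx hy hrx hry hxy
  set Φ := sc Θ g b with hΦ
  obtain ⟨t1, ht1⟩ := Function.ne_iff.1 (hk i hi)
  obtain ⟨t2, ht2⟩ := Function.ne_iff.1 (hl i hi)
  obtain ⟨t3, ht3⟩ := Function.ne_iff.1 (hk j hj)
  obtain ⟨t4, ht4⟩ := Function.ne_iff.1 (hl j hj)
  have pX : ∀ {f : (V → F) → F}, PolyFun f → PolyFun (fun w : Option V → F => f (GenB_x S w)) :=
    fun hf => hf.comp (g := fun l w => GenB_x S w l) (GenB_poly_x S)
  have pY : ∀ {f : (V → F) → F}, PolyFun f →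
      PolyFun (fun w : Option V → F => f (bump (GenB_x S w) j (w none))) :=
    fun hf => hf.comp (g := fun l w => bump (GenB_x S w) j (w none) l) (GenB_poly_y S j)
  let nk : (V → F) → V → Fin 2 → F := fun z m t => num Φ z (Sum.inl (m, t)) (Sum.inr ())
  let nl : (V → F) → V → Fin 2 → F := fun z m t => num Φ z (Sum.inr ()) (Sum.inl (m, t))
  let φ : (Option V → F) → F := fun w =>
    nk (GenB_x S w) i 0 * nk (bump (GenB_x S w) j (w none)) i 1 -
      nk (GenB_x S w) i 1 * nk (bump (GenB_x S w) j (w none)) i 0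
  have hpφ : PolyFun φ :=
    ((pX (polyFun_num Φ _ _)).mul (pY (polyFun_num Φ _ _))).sub
      ((pX (polyFun_num Φ _ _)).mul (pY (polyFun_num Φ _ _)))
  have hsupp : ∀ w : Option V → F, SuppIn (GenB_x S w) S := fun w l hl => if_neg hl
  have hx0 : GenB_x S (0 : Option V → F) = 0 := by
    funext l
    simp only [GenB_x, Pi.zero_apply, ite_self]
  have hy0 : bump (GenB_x S (0 : Option V → F)) j ((0 : Option V → F) none) = 0 := by
    rw [hx0]
    funext l
    by_cases hl : l = j
    · subst hl
      rw [bump_apply_same]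
      simp
    · rw [bump_apply_ne _ _ hl]
  -- the polynomial identity
  have hφ : ∀ w, φ w = 0 := by
    intro w0
    by_contra hne
    let f : Fin 7 → (Option V → F) → F := ![fun w => den Φ (GenB_x S w),
      fun w => den Φ (bump (GenB_x S w) j (w none)),
      fun w => nk (GenB_x S w) i t1, fun w => nl (GenB_x S w) i t2,
      fun w => nk (GenB_x S w) j t3, fun w => nl (GenB_x S w) j t4, φ]
    have hf : ∀ c, PolyFun (f c) := by
      intro c
      fin_cases c
      · exact pX (polyFun_den Φ)
      · exact pY (polyFun_den Φ)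
      · exact pX (polyFun_num Φ _ _)
      · exact pX (polyFun_num Φ _ _)
      · exact pX (polyFun_num Φ _ _)
      · exact pX (polyFun_num Φ _ _)
      · exact hpφ
    have hnz : ∀ c ∈ (Finset.univ : Finset (Fin 7)), ∃ w, f c w ≠ 0 := by
      intro c _
      fin_cases c
      · refine ⟨0, ?_⟩
        change den Φ (GenB_x S 0) ≠ 0
        rw [hx0, den_zero]
        exact one_ne_zero
      · refine ⟨0, ?_⟩
        change den Φ (bump (GenB_x S (0 : Option V → F)) j ((0 : Option V → F) none)) ≠ 0
        rw [hy0, den_zero]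
        exact one_ne_zero
      · refine ⟨0, ?_⟩
        change num Φ (GenB_x S 0) (Sum.inl (i, t1)) (Sum.inr ()) ≠ 0
        rw [hx0, num_zero]
        exact ht1
      · refine ⟨0, ?_⟩
        change num Φ (GenB_x S 0) (Sum.inr ()) (Sum.inl (i, t2)) ≠ 0
        rw [hx0, num_zero]
        exact ht2
      · refine ⟨0, ?_⟩
        change num Φ (GenB_x S 0) (Sum.inl (j, t3)) (Sum.inr ()) ≠ 0
        rw [hx0, num_zero]
        exact ht3
      · refine ⟨0, ?_⟩
        change num Φ (GenB_x S 0) (Sum.inr ()) (Sum.inl (j, t4)) ≠ 0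
        rw [hx0, num_zero]
        exact ht4
      · exact ⟨w0, hne⟩
    obtain ⟨w, hw⟩ := exists_common Finset.univ hf hnz
    have w0 : den Φ (GenB_x S w) ≠ 0 := hw 0 (Finset.mem_univ _)
    have w1 : den Φ (bump (GenB_x S w) j (w none)) ≠ 0 := hw 1 (Finset.mem_univ _)
    have w2 : num Φ (GenB_x S w) (Sum.inl (i, t1)) (Sum.inr ()) ≠ 0 := hw 2 (Finset.mem_univ _)
    have w3 : num Φ (GenB_x S w) (Sum.inr ()) (Sum.inl (i, t2)) ≠ 0 := hw 3 (Finset.mem_univ _)
    have w4 : num Φ (GenB_x S w) (Sum.inl (j, t3)) (Sum.inr ()) ≠ 0 := hw 4 (Finset.mem_univ _)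
    have w5 : num Φ (GenB_x S w) (Sum.inr ()) (Sum.inl (j, t4)) ≠ 0 := hw 5 (Finset.mem_univ _)
    have w6 : φ w ≠ 0 := hw 6 (Finset.mem_univ _)
    have r0 : Reg (TT Φ) (GenB_x S w) := w0
    have r1 : Reg (TT Φ) (bump (GenB_x S w) j (w none)) := w1
    rw [num_eq Φ r0] at w2 w3 w4 w5
    have r0' : Reg (TT Θ) (GenB_x S w) := by rw [← TT_sc Θ g b]; exact r0
    have r1' : Reg (TT Θ) (bump (GenB_x S w) j (w none)) := by rw [← TT_sc Θ g b]; exact r1
    have hp := par_generic h hrk g b hk hl hi hj htau (hsupp w) r0'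
      (Function.ne_iff.2 ⟨t1, right_ne_zero_of_mul w2⟩)
      (Function.ne_iff.2 ⟨t2, right_ne_zero_of_mul w3⟩)
      (Function.ne_iff.2 ⟨t3, right_ne_zero_of_mul w4⟩)
      (Function.ne_iff.2 ⟨t4, right_ne_zero_of_mul w5⟩) (t := w none) r1'
    apply w6
    change num Φ (GenB_x S w) (Sum.inl (i, 0)) (Sum.inr ()) *
        num Φ (bump (GenB_x S w) j (w none)) (Sum.inl (i, 1)) (Sum.inr ()) -
      num Φ (GenB_x S w) (Sum.inl (i, 1)) (Sum.inr ()) *
        num Φ (bump (GenB_x S w) j (w none)) (Sum.inl (i, 0)) (Sum.inr ()) = 0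
    rw [num_eq Φ r0, num_eq Φ r0, num_eq Φ r1, num_eq Φ r1]
    have hp' : shift Φ (GenB_x S w) (Sum.inl (i, 0)) (Sum.inr ()) *
        shift Φ (bump (GenB_x S w) j (w none)) (Sum.inl (i, 1)) (Sum.inr ()) =
      shift Φ (GenB_x S w) (Sum.inl (i, 1)) (Sum.inr ()) *
        shift Φ (bump (GenB_x S w) j (w none)) (Sum.inl (i, 0)) (Sum.inr ()) := hp
    linear_combination den Φ (GenB_x S w) * den Φ (bump (GenB_x S w) j (w none)) * hp'
  -- evaluate at the given points
  let w : Option V → F := fun o => o.elim (y j - x j) x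
  have hwx : GenB_x S w = x := by
    funext l
    by_cases hl : l ∈ S
    · simp only [GenB_x, if_pos hl]
      rfl
    · simp only [GenB_x, if_neg hl]
      exact (hx l hl).symm
  have hwy : bump (GenB_x S w) j (w none) = y := by
    rw [hwx]
    funext l
    by_cases hl : l = j
    · subst hl
      rw [bump_apply_same]
      change x l + (y l - x l) = y l
      ring
    · rw [bump_apply_ne _ _ hl]
      exact hxy l hl
  have h1 := hφ w
  change num Φ (GenB_x S w) (Sum.inl (i, 0)) (Sum.inr ()) *
      num Φ (bump (GenB_x S w) j (w none)) (Sum.inl (i, 1)) (Sum.inr ()) -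
    num Φ (GenB_x S w) (Sum.inl (i, 1)) (Sum.inr ()) *
      num Φ (bump (GenB_x S w) j (w none)) (Sum.inl (i, 0)) (Sum.inr ()) = 0 at h1
  rw [hwy, hwx, num_eq Φ hrx, num_eq Φ hrx, num_eq Φ hry, num_eq Φ hry] at h1
  have hd : den Φ x * den Φ y ≠ 0 := mul_ne_zero hrx hry
  apply mul_left_cancel₀ hd
  change den Φ x * den Φ y * (shift Φ x (Sum.inl (i, 0)) (Sum.inr ()) *
      shift Φ y (Sum.inl (i, 1)) (Sum.inr ())) =
    den Φ x * den Φ y * (shift Φ x (Sum.inl (i, 1)) (Sum.inr ()) *
      shift Φ y (Sum.inl (i, 0)) (Sum.inr ()))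
  linear_combination h1

end Pool.Agent.H18.R2
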