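import Pool.Agent.H18.R2.Gen
import Pool.Agent.H18.R2.Base

/-!
# Cleared denominators (module Num)

`den Θ x = det(1 - T X)`, `num Θ x = den Θ x • Θ + cols Θ X adj(1 - T X) rows Θ` are polynomial
in `x` and `num Θ x = den Θ x • shift Θ x` at regular points
(`(1-TX)⁻¹ = (det)⁻¹ • adj`: `Matrix.inv_def`, `Ring.inverse_eq_inv'`).
`Function.update x m c` is a polynomial map of `x` (coordinatewise), so `den Θ (update x m c)`
is a polynomial function of `x` too (`PolyFun.comp`).
-/

namespace Pool.Agent.H18.R2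

open Matrix

variable {F : Type*} [Field F] {V : Type*} [Fintype V] [DecidableEq V]
variable {α β : Type*} [Fintype α] [Fintype β] [DecidableEq α] [DecidableEq β]

/-- common denominator -/
noncomputable def den (Θ : Matrix ((V × Fin 2) ⊕ α) ((V × Fin 2) ⊕ β) F) (x : V → F) : F :=
  (1 - TT Θ * X x).det

/-- numerators -/
noncomputable def num (Θ : Matrix ((V × Fin 2) ⊕ α) ((V × Fin 2) ⊕ β) F) (x : V → F) :
    Matrix ((V × Fin 2) ⊕ α) ((V × Fin 2) ⊕ β) F :=
  den Θ x • Θ + cols Θ * X x * (1 - TT Θ * X x).adjugate * rows Θ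

omit [Fintype α] [Fintype β] [DecidableEq α] [DecidableEq β] in
theorem den_ne_zero_iff (Θ : Matrix ((V × Fin 2) ⊕ α) ((V × Fin 2) ⊕ β) F) (x : V → F) :
    den Θ x ≠ 0 ↔ Reg (TT Θ) x := Iff.rfl

theorem Num_entry (Θ : Matrix ((V × Fin 2) ⊕ α) ((V × Fin 2) ⊕ β) F) (i j : V × Fin 2) :
    PolyFun (fun x : V → F => (1 - TT Θ * X x) i j) := by
  have h : (fun x : V → F => (1 - TT Θ * X x) i j) =
      fun x => (1 : Matrix (V × Fin 2) (V × Fin 2) F) i j - TT Θ i j * x j.1 := by
    funext x
    simp only [Matrix.sub_apply, X, Matrix.mul_diagonal]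
  rw [h]
  exact (PolyFun.const _).sub ((PolyFun.const _).mul (PolyFun.coord _))

theorem Num_X (i j : V × Fin 2) : PolyFun (fun x : V → F => X x i j) := by
  by_cases h : i = j
  · subst h
    have h1 : (fun x : V → F => X x i i) = fun x => x i.1 := by
      funext x
      simp only [X, Matrix.diagonal_apply_eq]
    rw [h1]
    exact PolyFun.coord _
  · have h1 : (fun x : V → F => X x i j) = fun _ => 0 := by
      funext x
      simp only [X, Matrix.diagonal_apply_ne _ h]
    rw [h1]
    exact PolyFun.const _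

theorem polyFun_den (Θ : Matrix ((V × Fin 2) ⊕ α) ((V × Fin 2) ⊕ β) F) :
    PolyFun (den Θ) :=
  PolyFun.det (M := fun x => 1 - TT Θ * X x) (Num_entry Θ)

theorem polyFun_num (Θ : Matrix ((V × Fin 2) ⊕ α) ((V × Fin 2) ⊕ β) F)
    (p : (V × Fin 2) ⊕ α) (q : (V × Fin 2) ⊕ β) : PolyFun (fun x => num Θ x p q) := by
  have h : (fun x => num Θ x p q) = fun x => den Θ x * Θ p q +
      (cols Θ * X x * (1 - TT Θ * X x).adjugate * rows Θ) p q := by
    funext x
    simp only [num, Matrix.add_apply, Matrix.smul_apply, smul_eq_mul]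
  rw [h]
  refine ((polyFun_den Θ).mul (PolyFun.const _)).add ?_
  refine PolyFun.matMul (M := fun x => cols Θ * X x * (1 - TT Θ * X x).adjugate)
    (N := fun _ => rows Θ) (fun i j => ?_) (fun _ _ => PolyFun.const _) p q
  refine PolyFun.matMul (M := fun x => cols Θ * X x)
    (N := fun x => (1 - TT Θ * X x).adjugate) (fun i j => ?_) (fun i j => ?_) i j
  · exact PolyFun.matMul (M := fun _ => cols Θ) (N := fun x => X x)
      (fun _ _ => PolyFun.const _) Num_X i j
  · exact PolyFun.adjugate (M := fun x => 1 - TT Θ * X x) (Num_entry Θ) i j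

theorem num_eq (Θ : Matrix ((V × Fin 2) ⊕ α) ((V × Fin 2) ⊕ β) F) {x : V → F}
    (hx : Reg (TT Θ) x) (p : (V × Fin 2) ⊕ α) (q : (V × Fin 2) ⊕ β) :
    num Θ x p q = den Θ x * shift Θ x p q := by
  have hd : den Θ x ≠ 0 := hx
  have h1 : (1 - TT Θ * X x)⁻¹ = (den Θ x)⁻¹ • (1 - TT Θ * X x).adjugate := by
    rw [Matrix.inv_def, Ring.inverse_eq_inv']
    rfl
  have h2 : num Θ x = den Θ x • shift Θ x := by
    rw [num, shift, h1, Matrix.mul_smul, Matrix.smul_mul, smul_add, smul_smul,
      mul_inv_cancel₀ hd, one_smul]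
  rw [h2, Matrix.smul_apply, smul_eq_mul]

theorem den_zero (Θ : Matrix ((V × Fin 2) ⊕ α) ((V × Fin 2) ⊕ β) F) : den Θ 0 = 1 := by
  rw [den, X_zero, Matrix.mul_zero, sub_zero, Matrix.det_one]

theorem num_zero (Θ : Matrix ((V × Fin 2) ⊕ α) ((V × Fin 2) ⊕ β) F) : num Θ 0 = Θ := by
  rw [num, den_zero, X_zero, Matrix.mul_zero, Matrix.zero_mul, Matrix.zero_mul, add_zero,
    one_smul]

/-- setting a coordinate to zero is polynomial -/
theorem PolyFun.update_zero {f : (V → F) → F} (hf : PolyFun f) (m : V) :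
    PolyFun (fun x => f (Function.update x m 0)) := by
  have h : (fun x : V → F => f (Function.update x m 0)) =
      fun x => f (fun i => (fun i (y : V → F) => if i = m then 0 else y i) i x) := by
    funext x
    congr 1
    funext i
    rw [Function.update_apply]
  rw [h]
  refine hf.comp (g := fun i (y : V → F) => if i = m then 0 else y i) fun i => ?_
  by_cases hi : i = m
  · simp only [hi, if_true]
    exact PolyFun.const _
  · simp only [hi, if_false]
    exact PolyFun.coord _

end Pool.Agent.H18.R2
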