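import Pool.Agent.H18.R2.Num

/-!
# Own variable (module Own)

`Θ` with `H(x) = 0` (corner of `shift Θ x`) for all regular `x` supported on `S`, `i ∈ S`,
`z` regular, supported on `S`.

`own_bump`: for all `t` with `bump z i t` regular and all border indices `p, q`
   `∑ s, Θ^z p (i,s) * Θ^(z + t e_i) (i,s) q = 0`.
   For `t ≠ 0` this is `star_left` for the corner entry `(p, q)` (both corner entries are `0`).
   For `t = 0`: `bump z i 0 = z`.  Multiply by the denominator: the function
   `t ↦ ∑ s, shift Θ z p (i,s) * num Θ (bump z i t) (i,s) q` is polynomial in `t`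
   (`PolyFun` over `Unit`, or `Polynomial`), zero for all `t ≠ 0` with `den ≠ 0`, i.e. for all but
   finitely many `t`, hence zero at `t = 0`, where `den Θ z ≠ 0`.
`own_zero`: the case `t = 0`: `∑ s, Θ^z p (i,s) * Θ^z (i,s) q = 0`.
`own_parallel`: if some `Θ^z p (i,·) ≠ 0`, the vectors `Θ^(z+te_i) (i,·) q` and `Θ^z (i,·) q'`
   are both orthogonal to it, hence proportional (2 x 2 determinant 0).
-/

namespace Pool.Agent.H18.R2

open Matrix

variable {F : Type*} [Field F] [Infinite F] {V : Type*} [Fintype V] [DecidableEq V]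
variable {α β : Type*} [Fintype α] [Fintype β] [DecidableEq α] [DecidableEq β]

/-- `H(x) = 0` on `S` -/
def CornerZero (Θ : Matrix ((V × Fin 2) ⊕ α) ((V × Fin 2) ⊕ β) F) (S : Finset V) : Prop :=
  ∀ x : V → F, SuppIn x S → Reg (TT Θ) x → ∀ p q, shift Θ x (Sum.inr p) (Sum.inr q) = 0

omit [Infinite F] in
private lemma Own_bump_zero (z : V → F) (i : V) : bump z i 0 = z := by
  funext j
  by_cases hj : j = i
  · subst hj
    rw [bump_apply_same, add_zero]
  · rw [bump_apply_ne z 0 hj]

omit [Infinite F] in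
private lemma Own_supp {S : Finset V} {i : V} (hi : i ∈ S) {z : V → F} (hz : SuppIn z S) (t : F) :
    SuppIn (bump z i t) S := by
  intro j hj
  have hji : j ≠ i := fun h => hj (h ▸ hi)
  rw [bump_apply_ne z t hji]
  exact hz j hj

omit [Infinite F] in
private lemma Own_ne {Θ : Matrix ((V × Fin 2) ⊕ α) ((V × Fin 2) ⊕ β) F} {S : Finset V}
    (h : CornerZero Θ S) {i : V} (hi : i ∈ S) {z : V → F} (hz : SuppIn z S)
    (hr : Reg (TT Θ) z) {t : F} (ht : Reg (TT Θ) (bump z i t)) (ht0 : t ≠ 0) (p : α) (q : β) :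
    ∑ s : Fin 2, shift Θ z (Sum.inr p) (Sum.inl (i, s)) *
      shift Θ (bump z i t) (Sum.inl (i, s)) (Sum.inr q) = 0 := by
  have h1 := star_left Θ hr ht (Sum.inr p) (Sum.inr q)
  rw [h z hz hr p q, h _ (Own_supp hi hz t) ht p q, zero_add] at h1
  exact (mul_eq_zero.mp h1.symm).resolve_left ht0

private lemma Own_poly (Θ : Matrix ((V × Fin 2) ⊕ α) ((V × Fin 2) ⊕ β) F) {f : (V → F) → F}
    (hf : PolyFun f) (z : V → F) (i : V) :
    PolyFun (fun y : Unit → F => f (bump z i (y ()))) := by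
  have _ := Θ
  have h1 : ∀ j, PolyFun (fun y : Unit → F => bump z i (y ()) j) := by
    intro j
    by_cases hj : j = i
    · subst hj
      simp only [bump_apply_same]
      exact (PolyFun.const _).add (PolyFun.coord ())
    · simp only [bump_apply_ne z _ hj]
      exact PolyFun.const _
  exact hf.comp (g := fun j (y : Unit → F) => bump z i (y ()) j) h1

theorem own_bump {Θ : Matrix ((V × Fin 2) ⊕ α) ((V × Fin 2) ⊕ β) F} {S : Finset V}
    (h : CornerZero Θ S) {i : V} (hi : i ∈ S) {z : V → F} (hz : SuppIn z S)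
    (hr : Reg (TT Θ) z) {t : F} (ht : Reg (TT Θ) (bump z i t)) (p : α) (q : β) :
    ∑ s : Fin 2, shift Θ z (Sum.inr p) (Sum.inl (i, s)) *
      shift Θ (bump z i t) (Sum.inl (i, s)) (Sum.inr q) = 0 := by
  by_cases ht0 : t = 0
  · subst ht0
    by_contra hne
    let g : Fin 3 → (Unit → F) → F := ![fun y => ∑ s : Fin 2,
        shift Θ z (Sum.inr p) (Sum.inl (i, s)) *
        num Θ (bump z i (y ())) (Sum.inl (i, s)) (Sum.inr q),
      fun y => den Θ (bump z i (y ())), fun y => y ()]
    have hg : ∀ k, PolyFun (g k) := by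
      intro k
      fin_cases k
      · exact PolyFun.sum (Finset.univ : Finset (Fin 2)) (f := fun s (y : Unit → F) =>
          shift Θ z (Sum.inr p) (Sum.inl (i, s)) *
            num Θ (bump z i (y ())) (Sum.inl (i, s)) (Sum.inr q))
          fun s => (PolyFun.const (shift Θ z (Sum.inr p) (Sum.inl (i, s)))).mul
          (Own_poly Θ (polyFun_num Θ (Sum.inl (i, s)) (Sum.inr q)) z i)
      · exact Own_poly Θ (polyFun_den Θ) z i
      · exact PolyFun.coord ()
    have hnum : ∀ y : Unit → F, Reg (TT Θ) (bump z i (y ())) → g 0 y = den Θ (bump z i (y ())) *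
        ∑ s : Fin 2, shift Θ z (Sum.inr p) (Sum.inl (i, s)) *
          shift Θ (bump z i (y ())) (Sum.inl (i, s)) (Sum.inr q) := by
      intro y hy
      change (∑ s : Fin 2, shift Θ z (Sum.inr p) (Sum.inl (i, s)) *
        num Θ (bump z i (y ())) (Sum.inl (i, s)) (Sum.inr q)) = _
      rw [Finset.mul_sum]
      refine Finset.sum_congr rfl fun s _ => ?_
      rw [num_eq Θ hy]
      ring
    obtain ⟨y, hy⟩ := exists_common (Finset.univ : Finset (Fin 3)) hg (by
      intro k _
      fin_cases k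
      · refine ⟨fun _ => 0, ?_⟩
        change g 0 (fun _ => 0) ≠ 0
        rw [hnum (fun _ => 0) ht]
        exact mul_ne_zero ht hne
      · exact ⟨fun _ => 0, ht⟩
      · exact ⟨fun _ => 1, one_ne_zero⟩)
    have h0 := hy 0 (Finset.mem_univ _)
    have h1 : Reg (TT Θ) (bump z i (y ())) := hy 1 (Finset.mem_univ _)
    have h2 : y () ≠ 0 := hy 2 (Finset.mem_univ _)
    rw [hnum y h1, Own_ne h hi hz hr h1 h2 p q, mul_zero] at h0
    exact h0 rfl
  · exact Own_ne h hi hz hr ht ht0 p q

theorem own_zero {Θ : Matrix ((V × Fin 2) ⊕ α) ((V × Fin 2) ⊕ β) F} {S : Finset V}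
    (h : CornerZero Θ S) {i : V} (hi : i ∈ S) {z : V → F} (hz : SuppIn z S)
    (hr : Reg (TT Θ) z) (p : α) (q : β) :
    ∑ s : Fin 2, shift Θ z (Sum.inr p) (Sum.inl (i, s)) *
      shift Θ z (Sum.inl (i, s)) (Sum.inr q) = 0 := by
  have h1 := own_bump h hi hz hr (t := 0) (by rw [Own_bump_zero]; exact hr) p q
  rwa [Own_bump_zero] at h1

/-- two vectors of `F²` orthogonal to the same nonzero vector are proportional -/
theorem parallel_of_orth {a u v : Fin 2 → F} (ha : a ≠ 0) (hu : ∑ s, a s * u s = 0)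
    (hv : ∑ s, a s * v s = 0) : u 0 * v 1 = u 1 * v 0 := by
  rw [Fin.sum_univ_two] at hu hv
  by_cases h0 : a 0 = 0
  · have h1 : a 1 ≠ 0 := by
      intro h1
      apply ha
      funext s
      fin_cases s
      · exact h0
      · exact h1
    rw [h0, zero_mul, zero_add] at hu hv
    have hu1 : u 1 = 0 := (mul_eq_zero.mp hu).resolve_left h1
    have hv1 : v 1 = 0 := (mul_eq_zero.mp hv).resolve_left h1
    rw [hu1, hv1, mul_zero, zero_mul]
  · have h2 : a 0 * (u 0 * v 1 - u 1 * v 0) = 0 := by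
      linear_combination v 1 * hu - u 1 * hv
    exact sub_eq_zero.mp ((mul_eq_zero.mp h2).resolve_left h0)

/-- if `v ≠ 0` and `u` is proportional to `v`, then `u = c • v` -/
theorem exists_smul_of_parallel {u v : Fin 2 → F} (hv : v ≠ 0) (h : u 0 * v 1 = u 1 * v 0) :
    ∃ c : F, u = c • v := by
  by_cases h0 : v 0 = 0
  · have h1 : v 1 ≠ 0 := by
      intro h1
      apply hv
      funext s
      fin_cases s
      · exact h0
      · exact h1
    rw [h0, mul_zero] at h
    have hu0 : u 0 = 0 := (mul_eq_zero.mp h).resolve_right h1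
    refine ⟨u 1 / v 1, ?_⟩
    funext s
    fin_cases s
    · change u 0 = u 1 / v 1 * v 0
      rw [hu0, h0, mul_zero]
    · change u 1 = u 1 / v 1 * v 1
      rw [div_mul_cancel₀ _ h1]
  · refine ⟨u 0 / v 0, ?_⟩
    funext s
    fin_cases s
    · change u 0 = u 0 / v 0 * v 0
      rw [div_mul_cancel₀ _ h0]
    · change u 1 = u 0 / v 0 * v 1
      rw [div_mul_eq_mul_div, h, mul_div_cancel_right₀ _ h0]

theorem own_parallel {Θ : Matrix ((V × Fin 2) ⊕ α) ((V × Fin 2) ⊕ β) F} {S : Finset V}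
    (h : CornerZero Θ S) {i : V} (hi : i ∈ S) {z : V → F} (hz : SuppIn z S)
    (hr : Reg (TT Θ) z) {t : F} (ht : Reg (TT Θ) (bump z i t)) {p : α}
    (hp : ∃ s, shift Θ z (Sum.inr p) (Sum.inl (i, s)) ≠ 0) (q q' : β) :
    shift Θ (bump z i t) (Sum.inl (i, 0)) (Sum.inr q) * shift Θ z (Sum.inl (i, 1)) (Sum.inr q') =
      shift Θ (bump z i t) (Sum.inl (i, 1)) (Sum.inr q) *
        shift Θ z (Sum.inl (i, 0)) (Sum.inr q') := by
  obtain ⟨s, hs⟩ := hp
  refine parallel_of_orth (a := fun s => shift Θ z (Sum.inr p) (Sum.inl (i, s)))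
    (u := fun s => shift Θ (bump z i t) (Sum.inl (i, s)) (Sum.inr q))
    (v := fun s => shift Θ z (Sum.inl (i, s)) (Sum.inr q')) ?_
    (own_bump h hi hz hr ht p q) (own_zero h hi hz hr p q')
  intro h0
  exact hs (congrFun h0 s)

end Pool.Agent.H18.R2
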