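import Pool.Agent.H18.R2.Base
import Pool.Agent.H50.R2.LG

/-!
# Bridge to helper50's Theorem 1 (local to global for odd instances)

The scalar instance `Θ = [[T, μ], [ν, 0]]` of `Pool.Agent.H18.R2.Defs` is the instance
`⟨T, μ, ν⟩` of `Pool.Agent.H50.R2.Defs`.
-/

namespace Pool.Agent.H18.R2

open Matrix

variable {F : Type*} [Field F] {V : Type*} [Fintype V] [DecidableEq V]

/-- the instance of helper50 -/
def instOf (Θ : Matrix ((V × Fin 2) ⊕ Unit) ((V × Fin 2) ⊕ Unit) F) : Pool.Agent.H50.R2.Inst F V :=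
  ⟨TT Θ, fun p => Θ (Sum.inl p) (Sum.inr ()), fun p => Θ (Sum.inr ()) (Sum.inl p)⟩

theorem X_eq_dg (x : V → F) : X x = Pool.Agent.H50.R2.dg x := rfl

theorem instOf_reg (Θ : Matrix ((V × Fin 2) ⊕ Unit) ((V × Fin 2) ⊕ Unit) F) (x : V → F) :
    (instOf Θ).Reg x ↔ Reg (TT Θ) x := Iff.rfl

theorem inv_identity (T : Matrix (V × Fin 2) (V × Fin 2) F) (x : V → F) (hx : Reg T x) :
    (1 - T * X x)⁻¹ = 1 + T * X x * (1 - T * X x)⁻¹ := by
  have h : (1 - T * X x) * (1 - T * X x)⁻¹ = 1 :=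
    Matrix.mul_nonsing_inv _ (isUnit_iff_ne_zero.2 hx)
  rw [Matrix.sub_mul, Matrix.one_mul] at h
  exact (sub_eq_iff_eq_add.1 h)

theorem instOf_k (Θ : Matrix ((V × Fin 2) ⊕ Unit) ((V × Fin 2) ⊕ Unit) F) (x : V → F)
    (hx : Reg (TT Θ) x) (p : V × Fin 2) :
    (instOf Θ).k x p = shift Θ x (Sum.inl p) (Sum.inr ()) := by
  have h1 : shift Θ x (Sum.inl p) (Sum.inr ()) =
      Θ (Sum.inl p) (Sum.inr ()) +
        ((TT Θ * X x * (1 - TT Θ * X x)⁻¹) *ᵥ (fun p => Θ (Sum.inl p) (Sum.inr ()))) p := by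
    rw [shift, Matrix.add_apply]
    congr 1
  rw [h1]
  change ((1 - TT Θ * X x)⁻¹ *ᵥ (fun p => Θ (Sum.inl p) (Sum.inr ()))) p = _
  conv_lhs => rw [inv_identity (TT Θ) x hx]
  rw [Matrix.add_mulVec, Matrix.one_mulVec]
  rfl

theorem instOf_h (Θ : Matrix ((V × Fin 2) ⊕ Unit) ((V × Fin 2) ⊕ Unit) F) (x : V → F)
    (h0 : Θ (Sum.inr ()) (Sum.inr ()) = 0) :
    (instOf Θ).h x = shift Θ x (Sum.inr ()) (Sum.inr ()) := by
  rw [shift, Matrix.add_apply, h0, zero_add]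
  change (fun p => Θ (Sum.inr ()) (Sum.inl p)) ⬝ᵥ (X x *ᵥ ((1 - TT Θ * X x)⁻¹ *ᵥ
    (fun p => Θ (Sum.inl p) (Sum.inr ())))) = _
  rw [Matrix.mulVec_mulVec, Matrix.dotProduct_mulVec, Matrix.mul_assoc, Matrix.mul_assoc,
    ← Matrix.mul_assoc (X x)]
  rw [Matrix.mul_apply, ← Matrix.dotProduct_mulVec]
  simp only [dotProduct, Matrix.mulVec, Matrix.mul_apply, cols, rows, Matrix.submatrix_apply, id]

theorem instOf_tau (Θ : Matrix ((V × Fin 2) ⊕ Unit) ((V × Fin 2) ⊕ Unit) F) (i j : V) :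
    (instOf Θ).tau i j = tau Θ i j := by
  rw [Pool.Agent.H50.R2.Inst.tau, tau]
  simp only [dotProduct, Matrix.mulVec, Finset.mul_sum]
  refine Finset.sum_congr rfl fun s _ => Finset.sum_congr rfl fun t _ => ?_
  simp only [Pool.Agent.H50.R2.vec, Pool.Agent.H50.R2.blk, instOf, lv, kv, TT,
    Matrix.submatrix_apply]
  ring

/-- Theorem 1 of helper50: a locally odd instance is odd. -/
theorem local_to_global [Infinite F]
    (Θ : Matrix ((V × Fin 2) ⊕ Unit) ((V × Fin 2) ⊕ Unit) F) (U : Finset V)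
    (hmu : ∀ i ∈ U, kv Θ i ≠ 0) (hnu : ∀ i ∈ U, lv Θ i ≠ 0)
    (hodd : ∀ S ⊆ U, S.card ≤ 5 → OddOn Θ S)
    (hgen : ∀ S ⊆ U, S.card ≤ 5 → GenuineOn Θ S) : OddOn Θ U := by
  have h0 : Θ (Sum.inr ()) (Sum.inr ()) = 0 := by
    have := hodd ∅ (Finset.empty_subset _) (by simp) 0 (fun _ _ => rfl) (reg_zero _)
    rwa [shift_zero] at this
  have hlo : (instOf Θ).LocOdd U := by
    refine ⟨fun i hi => ⟨hmu i hi, hnu i hi⟩, fun S hS hc => ⟨?_, ?_⟩⟩
    · intro x hx hr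
      rw [instOf_h Θ x h0]
      exact hodd S hS hc x hx hr
    · intro i hi j hj hij ht x y hx hy hxy hrx hry
      rw [instOf_tau] at ht
      have h1 := hgen S hS hc i hi j hj hij ht x y hx hy hrx hry hxy
      change Pool.Agent.H50.R2.ar _ _ = 0
      rw [Pool.Agent.H50.R2.ar]
      simp only [Pool.Agent.H50.R2.vec]
      rw [instOf_k Θ x hrx, instOf_k Θ x hrx, instOf_k Θ y hry, instOf_k Θ y hry]
      exact sub_eq_zero.2 h1
  intro x hx hr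
  have := hlo.odd x hx hr
  rwa [instOf_h Θ x h0] at this

end Pool.Agent.H18.R2
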