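import Pool.Agent.H18.R2.T1
import Pool.Agent.H18.R2.Crit
import Pool.Agent.H18.R2.GenuineB

/-!
# Local optimality implies `H = 0` (module ZeroAll, helper18: assembled below)
-/

namespace Pool.Agent.H18.R2

open Matrix

variable {F : Type*} [Field F] [Infinite F] {V : Type*} [Fintype V] [DecidableEq V]
variable {α β : Type*} [Fintype α] [Fintype β] [DecidableEq α] [DecidableEq β]

omit [Infinite F] in
/-- entries of the corner of the extended data vanish iff the pair is a zero pair -/
theorem zeroPair_iff (Θ : Matrix ((V × Fin 2) ⊕ α) ((V × Fin 2) ⊕ β) F) (r s : Option V) :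
    ZeroPair Θ r s ↔ ∀ p q, ext Θ r s (Sum.inr p) (Sum.inr q) = 0 := by
  rw [ZeroPair, ← ext_corner]
  constructor
  · intro h p q
    exact congrFun (congrFun h p) q
  · intro h
    ext p q
    exact h p q

theorem no_crit {Θ : Matrix ((V × Fin 2) ⊕ α) ((V × Fin 2) ⊕ β) F} (hloc : LocOpt Θ)
    {r s : Option V} {U : Finset V} (h : Crit Θ r s U) : False := by
  have h6 := crit_card hloc h
  obtain ⟨x0, hx0, hr0, hb0⟩ := h.bad
  have hcz : ∀ S ⊆ U, S.card ≤ 5 → CornerZero (ext Θ r s) S := by
    intro S hS hc x hx hr p q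
    rw [TT_ext] at hr
    have := h.small r s h.zero S (by omega) x hx hr
    rw [shift_ext]
    exact (zeroPair_iff _ _ _).1 this p q
  have hrk : ∀ S ⊆ U, S.card ≤ 5 → RankLoc (ext Θ r s) S := by
    intro S hS hc i hi j hj z hz hr
    rw [TT_ext] at hr
    rw [shift_ext, rank_bord_ext, rank_bord_ext]
    exact hloc S z hc hz hr _ _ _ _
  have hbad : ∃ p q, shift (ext Θ r s) x0 (Sum.inr p) (Sum.inr q) ≠ 0 := by
    by_contra hcon
    push Not at hcon
    apply hb0
    rw [zeroPair_iff, ← shift_ext]
    exact hcon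
  obtain ⟨g, b, hk, hl, hc⟩ := exists_scalars (ext Θ r s) U (fun m hm => crit_row h hm)
    (fun m hm => crit_col h hm) x0 hbad
  have := local_to_global (sc (ext Θ r s) g b) U hk hl
    (by
      intro S hS hc x hx hr
      have h1 := cornerZero_sc (hcz S hS hc) g b
      exact h1 x hx hr () ())
    (by
      intro S hS hc
      exact genuine_sc (hcz S hS hc) (hrk S hS hc) g b (fun m hm => hk m (hS hm))
        (fun m hm => hl m (hS hm)))
  exact hc (this x0 hx0 (by rw [TT_sc, TT_ext]; exact hr0))

/-- local optimality at a base with `H = 0` gives `H = 0` everywhere -/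
theorem locOpt_zero {Θ : Matrix ((V × Fin 2) ⊕ α) ((V × Fin 2) ⊕ β) F} (hloc : LocOpt Θ)
    (h0 : ZeroPair Θ none none) {x : V → F} (hx : Reg (TT Θ) x) :
    ZeroPair (shift Θ x) none none := by
  by_contra hb
  obtain ⟨r, s, U, h⟩ := exists_crit h0 hx hb
  exact no_crit hloc h

end Pool.Agent.H18.R2
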